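import Pool.Agent.Helper19.SQ.GoalsQ2

/-!
Project SQ (MP_bb32d1_al), packet C0: the structure `Core0` for `u_q(gl_n)`.
-/

set_option autoImplicit false

namespace Pool.Agent.Helper4.SQ

open Pool.Agent.Helper19.SQ

theorem sTOI : S_TOI := by
  intro N l q hl s a
  have h : (tor N l q hl s).comp (tor N l q hl s⁻¹) = AlgHom.id ℂ (A N l q) := by
    refine A_hom_ext (fun i => ?_) (fun i => ?_) (fun i => ?_)
    · have h0 : (s i : ℂ) ≠ 0 := (s i).ne_zero
      have h1 : (s (i + 1) : ℂ) ≠ 0 := (s (i + 1)).ne_zero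
      rw [AlgHom.comp_apply, tor_E, map_smul, tor_E, smul_smul, AlgHom.id_apply]
      simp only [Pi.inv_apply, Units.val_inv_eq_inv_val, inv_inv]
      rw [show (s i : ℂ)⁻¹ * (s (i + 1) : ℂ) * ((s i : ℂ) * (s (i + 1) : ℂ)⁻¹) = 1 by field_simp,
        one_smul]
    · have h0 : (s i : ℂ) ≠ 0 := (s i).ne_zero
      have h1 : (s (i + 1) : ℂ) ≠ 0 := (s (i + 1)).ne_zero
      rw [AlgHom.comp_apply, tor_F, map_smul, tor_F, smul_smul, AlgHom.id_apply]
      simp only [Pi.inv_apply, Units.val_inv_eq_inv_val, inv_inv]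
      rw [show (s i : ℂ) * (s (i + 1) : ℂ)⁻¹ * ((s i : ℂ)⁻¹ * (s (i + 1) : ℂ)) = 1 by field_simp,
        one_smul]
    · rw [AlgHom.comp_apply, tor_K, tor_K, AlgHom.id_apply]
  exact DFunLike.congr_fun h a

/-- the torus automorphism. -/
noncomputable def torE (N l : ℕ) (q : ℂ) (hl : l ≠ 0) (s : ℕ → ℂˣ) : A N l q ≃ₐ[ℂ] A N l q :=
  AlgEquiv.ofAlgHom (tor N l q hl s) (tor N l q hl s⁻¹)
    (AlgHom.ext fun a => sTOI N l q hl s a)
    (AlgHom.ext fun a => by
      have h := sTOI N l q hl s⁻¹ a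
      rw [inv_inv] at h
      exact h)

theorem sC0 (hcap0 : S_CAP0) (hcup0 : S_CUP0) (hcap1 : S_CAP1) (hXC : S_XC) (hSM : S_SM)
    (hSD : S_SD) (hX2 : S_X2Q) (hUD : S_UD) (hVD : S_VD) (hT1 : S_TO1) (hT2 : S_TO2) : S_C0 := by
  intro N l q hl hP D s
  have hq : q ≠ 0 := hP.prim.ne_zero hl
  obtain ⟨m1, m2, -, -⟩ := hSM N q hq
  obtain ⟨t1, t2, t3⟩ := hT1 N l q hl hP D s
  obtain ⟨t4, t5, t6, t7⟩ := hT2 N l q hl hP s
  refine ⟨{ δ := D.dl
            ε := D.ep
            w := fun i => q⁻¹ ^ (2 * (i : ℕ))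
            w_ne := fun i => pow_ne_zero _ (inv_ne_zero hq)
            cap0 := hcap0 N l q hP D
            cup0 := hcup0 N l q hP D
            cap1 := hcap1 N l q hP D
            X := Xm N l q
            Xδ := hXC N l q hP D
            S := Smat N q
            T := Tmat N q
            ST := m1
            TS := m2
            inter := hSD N l q hP D
            u := uvec N l q
            v := vvec N l q
            uD := hUD N l q hP D
            vD := hVD N l q hP D
            X2eq := hX2 N l q hP D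
            φ := torE N l q hl s
            θ := fun i => s i
            φδ := t1
            φε := t2
            φX := t3
            φS := t4
            φT := t5
            φu := t6
            φv := t7 }, ?_⟩
  exact ⟨rfl, rfl, rfl, rfl, rfl, rfl, rfl, fun _ => rfl, fun _ => rfl, fun _ => rfl⟩

end Pool.Agent.Helper4.SQ
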