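import Pool.Agent.Helper19.SQ.GoalsQ
import Pool.Agent.Helper19.SQ.GoalsS

/-!
Project SQ (MP_bb32d1_al), packet CT: the coproduct lemma.
-/

set_option autoImplicit false

namespace Pool.Agent.Helper4.SQ

open Pool.Agent.Helper19.SQ

section

variable {B : Type} [Ring B] [Algebra ℂ B]

theorem inv_comm {K k E : B} {c : ℂ} (hc : c ≠ 0) (h1 : K * k = 1) (h2 : k * K = 1)
    (h : K * E = c • (E * K)) : k * E = c⁻¹ • (E * k) := by
  have h3 : E * k = c • (k * E) := by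
    calc E * k = k * (K * E) * k := by rw [← mul_assoc, h2, one_mul]
      _ = k * (c • (E * K)) * k := by rw [h]
      _ = c • (k * E * (K * k)) := by
          rw [mul_smul_comm, smul_mul_assoc]
          congr 1
          noncomm_ring
      _ = c • (k * E) := by rw [h1, mul_one]
  rw [h3, smul_smul, inv_mul_cancel₀ hc, one_smul]

theorem qne {N l : ℕ} {q : ℂ} (hP : Par N l q) : q ≠ 0 :=
  hP.prim.ne_zero (by have := hP.h3; omega)

theorem kk_comm (hKI : S_KI) {l : ℕ} {K : ℕ → B} (hl : 1 ≤ l)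
    (hc : ∀ i j, K i * K j = K j * K i) (hp : ∀ j, K j ^ l = 1) (a b c d : ℕ) :
    Commute (kk l K a b) (kk l K c d) := by
  obtain ⟨-, -, h3, h4, -, -⟩ := hKI B l K hl hc hp
  unfold kk
  have e1 : ∀ i j, Commute (K i) (K j) := hc
  have e2 : ∀ i j, Commute (K i) (ki l K j) := h3
  have e3 : ∀ i j, Commute (ki l K i) (ki l K j) := h4
  exact ((e1 a c).mul_right (e2 a d)).mul_left ((e2 c b).symm.mul_right (e3 b d))

theorem kk_E (hKI : S_KI) {l : ℕ} {q : ℂ} {E K : ℕ → B} (hl : 1 ≤ l) (hq : q ≠ 0)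
    (hc : ∀ i j, K i * K j = K j * K i) (hp : ∀ j, K j ^ l = 1)
    (hE : ∀ j i, K j * E i = q ^ pr j i • (E i * K j)) (a b j : ℕ) :
    kk l K a b * E j = q ^ (pr a j - pr b j) • (E j * kk l K a b) := by
  obtain ⟨h1, h2, -, -, -, -⟩ := hKI B l K hl hc hp
  have h3 := inv_comm (zpow_ne_zero (pr b j) hq) (h1 b) (h2 b) (hE b j)
  unfold kk
  rw [mul_assoc, h3, mul_smul_comm, ← mul_assoc, hE a j, smul_mul_assoc, smul_smul, mul_assoc,
    ← zpow_neg, ← zpow_add₀ hq]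
  congr 2
  ring

theorem ki_cm {l : ℕ} {K Y : ℕ → B} (h : Cm K Y) : Cm (ki l K) Y := by
  intro i j
  have e : Commute (K i) (Y j) := h i j
  exact (e.pow_left (l - 1)).eq

theorem cm_symm {X Y : ℕ → B} (h : Cm X Y) : Cm Y X := fun i j => (h j i).symm

theorem kk_cm {l : ℕ} {K Y : ℕ → B} (h : Cm K Y) (a b j : ℕ) : Commute (kk l K a b) (Y j) := by
  have e1 : Commute (K a) (Y j) := h a j
  have e2 : Commute (ki l K b) (Y j) := ki_cm h b j
  exact e1.mul_left e2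

/-- Serre relations for `a_i e_i`, `a_i` commuting with everything in sight. -/
theorem serre_mul {q : ℂ} {a e : ℕ → B} (ha : ∀ i j, Commute (a i) (a j))
    (hae : ∀ i j, Commute (a i) (e j)) (hS : SerreRel q e) : SerreRel q (fun i => a i * e i) := by
  have hm : ∀ i j, a i * e i * (a j * e j) = a i * a j * (e i * e j) := fun i j =>
    (hae j i).symm.mul_mul_mul_comm _ _
  have h3 : ∀ i j k, a i * e i * (a j * e j) * (a k * e k)
      = a i * a j * a k * (e i * e j * e k) := by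
    intro i j k
    rw [hm]
    exact (((hae k i).symm.mul_left (hae k j).symm)).mul_mul_mul_comm _ _
  have hsq : ∀ i j, (a i * e i) ^ 2 * (a j * e j) = a i * a i * a j * (e i ^ 2 * e j) := by
    intro i j
    rw [pow_two, h3, pow_two]
  have hsq' : ∀ i j, (a j * e j) * (a i * e i) ^ 2 = a i * a i * a j * (e j * e i ^ 2) := by
    intro i j
    rw [pow_two, ← mul_assoc, h3, pow_two, ← mul_assoc (e j)]
    congr 1
    rw [(ha j i).eq, mul_assoc, (ha j i).eq, ← mul_assoc]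
  have hmid : ∀ i j, a i * e i * (a j * e j) * (a i * e i)
      = a i * a i * a j * (e i * e j * e i) := by
    intro i j
    rw [h3]
    congr 1
    rw [mul_assoc, (ha j i).eq, ← mul_assoc]
  refine ⟨fun i j hij => ?_, fun i => ?_, fun i => ?_⟩
  · rw [hm, hm, hS.far i j hij, (ha i j).eq]
  · rw [hsq, hmid, hsq', ← mul_smul_comm, ← mul_sub, ← mul_add, hS.s1, mul_zero]
  · rw [hsq, hmid, hsq', ← mul_smul_comm, ← mul_sub, ← mul_add, hS.s2, mul_zero]

theorem serre_cE (hCS : S_CS) (hKI : S_KI) {l : ℕ} {q : ℂ} {E1 K1 E2 : ℕ → B} (hl : 1 ≤ l)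
    (hq : q ≠ 0) (h1 : HRel l q E1 K1) (h2 : SerreRel q E2) (c : Cm E1 E2) (cK : Cm K1 E2) :
    SerreRel q (cE l E1 K1 E2) := by
  refine hCS B q E1 (fun i => kk l K1 i (i + 1) * E2 i) hq h1.sE
    (serre_mul (fun i j => kk_comm hKI hl h1.K_comm h1.K_pow _ _ _ _)
      (fun i j => kk_cm cK _ _ _) h2) ?_
  intro i j
  have e : E2 i * E1 j = E1 j * E2 i := (c j i).symm
  have e3 := kk_E hKI hl hq h1.K_comm h1.K_pow h1.KE i (i + 1) j
  rw [mul_assoc, e, ← mul_assoc, e3, smul_mul_assoc, mul_assoc]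

theorem KE_cE {l : ℕ} {q : ℂ} {E1 K1 E2 K2 : ℕ → B} (hKI : S_KI) (hl : 1 ≤ l)
    (h1 : HRel l q E1 K1) (h2 : HRel l q E2 K2) (cEK : Cm E1 K2)
    (cKE : Cm K1 E2) (cKK : Cm K1 K2) (j i : ℕ) :
    cK K1 K2 j * cE l E1 K1 E2 i = q ^ pr j i • (cE l E1 K1 E2 i * cK K1 K2 j) := by
  unfold cK cE
  have e1 : K1 j * K2 j * E1 i = q ^ pr j i • (E1 i * (K1 j * K2 j)) := by
    rw [mul_assoc, ← cEK i j, ← mul_assoc, h1.KE, smul_mul_assoc, mul_assoc]
  obtain ⟨-, -, g3, -, -, -⟩ := hKI B l K1 hl h1.K_comm h1.K_pow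
  have e2 : Commute (K1 j) (kk l K1 i (i + 1)) := by
    have a1 : Commute (K1 j) (K1 i) := h1.K_comm j i
    have a2 : Commute (K1 j) (ki l K1 (i + 1)) := g3 j (i + 1)
    exact a1.mul_right a2
  have e3 : Commute (K2 j) (kk l K1 i (i + 1)) := (kk_cm cKK i (i + 1) j).symm
  have e4 : K1 j * K2 j * (kk l K1 i (i + 1) * E2 i)
      = q ^ pr j i • (kk l K1 i (i + 1) * E2 i * (K1 j * K2 j)) := by
    have a1 : K1 j * K2 j * (kk l K1 i (i + 1) * E2 i)
        = kk l K1 i (i + 1) * (K1 j * (K2 j * E2 i)) := by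
      rw [← mul_assoc, (e2.mul_left e3).eq, mul_assoc, mul_assoc]
    rw [a1, h2.KE, mul_smul_comm, mul_smul_comm, ← mul_assoc (K1 j), cKE j i]
    congr 1
    simp only [mul_assoc]
  rw [mul_add, add_mul, smul_add, e1, e4]

theorem cF_eq (hKI : S_KI) {l : ℕ} {F1 K2 F2 : ℕ → B} (hl : 1 ≤ l)
    (hc : ∀ i j, K2 i * K2 j = K2 j * K2 i) (hp : ∀ j, K2 j ^ l = 1) (c : Cm F1 K2) :
    cF l F1 K2 F2 = cE l F2 (ki l K2) F1 := by
  obtain ⟨-, -, g3, -, g5, -⟩ := hKI B l K2 hl hc hp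
  funext i
  unfold cF cE
  have e : kk l (ki l K2) i (i + 1) = kk l K2 (i + 1) i := by
    unfold kk
    rw [g5, g3]
  have e2 : Commute (F1 i) (kk l K2 (i + 1) i) := by
    have a1 : Commute (F1 i) (K2 (i + 1)) := c i (i + 1)
    have a2 : Commute (F1 i) (K2 i) := c i i
    exact a1.mul_right (a2.pow_right (l - 1))
  rw [e, e2.eq, add_comm]

end

theorem sCTG (hCS : S_CS) (hCP : S_CP) (hCE : S_CE) (hHF : S_HF) (hKI : S_KI) : S_CTG := by
  intro B _ _ N l q E1 F1 K1 E2 F2 K2 hP h1 h2 hc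
  have hl3 := hP.h3
  have hl : 1 ≤ l := by omega
  have hq := qne hP
  obtain ⟨a1, b1⟩ := hHF B N l q E1 F1 K1 hl hq h1
  obtain ⟨a2, b2⟩ := hHF B N l q E2 F2 K2 hl hq h2
  obtain ⟨c1, c2⟩ := hCE B N l q E1 F1 K1 E2 F2 K2 hl3 hq h1 h2 hc
  have cFE : Cm F2 F1 := fun i j => (hc.FF j i).symm
  have cKF : Cm (ki l K2) F1 := ki_cm fun i j => (hc.FK j i).symm
  have cKK' : Cm (ki l K2) (ki l K1) := ki_cm (cm_symm (ki_cm hc.KK))
  have hF := cF_eq (F2 := F2) hKI hl h2.K_comm h2.K_pow hc.FK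
  have hkm : ∀ j, ki l (cK K1 K2) j = cK (ki l K1) (ki l K2) j := by
    intro j
    unfold ki cK
    have e : Commute (K1 j) (K2 j) := hc.KK j j
    exact e.mul_pow (l - 1)
  have hcomm : ∀ i j, cK K1 K2 i * cK K1 K2 j = cK K1 K2 j * cK K1 K2 i := by
    intro i j
    have u1 : Commute (K1 i) (K1 j) := h1.K_comm i j
    have u2 : Commute (K2 i) (K2 j) := h2.K_comm i j
    have u3 : Commute (K1 i) (K2 j) := hc.KK i j
    have u4 : Commute (K2 i) (K1 j) := (hc.KK j i).symm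
    exact ((u1.mul_right u3).mul_left (u4.mul_right u2)).eq
  have hpow : ∀ j, cK K1 K2 j ^ l = 1 := by
    intro j
    have e : Commute (K1 j) (K2 j) := hc.KK j j
    rw [cK, e.mul_pow, h1.K_pow, h2.K_pow, one_mul]
  have hKF : ∀ j i, cK K1 K2 j * cF l F1 K2 F2 i
      = q ^ (-pr j i) • (cF l F1 K2 F2 i * cK K1 K2 j) := by
    intro j i
    -- use the half families (F2, ki K2), (F1, ki K1)
    have e := KE_cE hKI hl b2 b1 (cm_symm (ki_cm hc.KF)) cKF cKK' j i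
    rw [← hF] at e
    obtain ⟨g1, g2, -, -, -, -⟩ := hKI B l (cK K1 K2) hl hcomm hpow
    have e5 : cK (ki l K2) (ki l K1) j = ki l (cK K1 K2) j := by
      rw [hkm]
      unfold cK
      exact cKK' j j
    rw [e5] at e
    have e6 := inv_comm (zpow_ne_zero (pr j i) hq) (g2 j) (g1 j) e
    rw [zpow_neg]
    exact e6
  exact
    { E_out := fun i hi => by simp [cE, h1.E_out i hi, h2.E_out i hi]
      F_out := fun i hi => by simp [cF, h1.F_out i hi, h2.F_out i hi]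
      K_out := fun j hj => by simp [cK, h1.K_out j hj, h2.K_out j hj]
      K_comm := hcomm
      K_pow := hpow
      KE := fun j i => KE_cE hKI hl a1 a2 hc.EK hc.KE hc.KK j i
      KF := hKF
      EF := c2
      EF_ne := c1
      sE := serre_cE hCS hKI hl hq a1 a2.sE hc.EE hc.KE
      sF := by
        rw [hF]
        exact serre_cE hCS hKI hl hq b2 b1.sE cFE cKF
      pE := hCP B l q E1 K1 E2 K2 hP.odd hl3 hP.prim a1 a2 hc.EE hc.KE
      pF := by
        rw [hF]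
        exact hCP B l q F2 (ki l K2) F1 (ki l K1) hP.odd hl3 hP.prim b2 b1 cFE cKF }

theorem sCT_of (h : S_CTG) : S_CT := by
  intro B _ _ N l q hP E F K E' F' K' h1 h2 c1 c2 c3 c4 c5 c6 c7 c8 c9
  have e := h B N l q E F K E' F' K' hP h1 h2 ⟨c1, c2, c3, c4, c5, c6, c7, c8, c9⟩
  exact e

end Pool.Agent.Helper4.SQ
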