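import Pool.Agent.Helper19.SQ.GoalsQ
import Pool.Agent.Helper4.SQ.CT

/-!
Project SQ (MP_bb32d1_al), packet DE: existence of `delta` and `eps`.
-/

set_option autoImplicit false

namespace Pool.Agent.Helper4.SQ

open Pool.Agent.Helper19.SQ

section

variable (N : ℕ) (R : Type) [Ring R] [Algebra ℂ R]

/-- scalar matrices. -/
noncomputable def scH : Mat N ℂ →ₐ[ℂ] Mat N R := (Algebra.ofId ℂ R).mapMatrix

/-- constant diagonal matrices. -/
noncomputable def dgH : R →ₐ[ℂ] Mat N R :=
  (Matrix.diagonalAlgHom ℂ).comp (Pi.constAlgHom ℂ (Fin (N + 1)) R)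

variable {N R}

theorem scH_apply (M : Mat N ℂ) (a b : Fin (N + 1)) : scH N R M a b = algebraMap ℂ R (M a b) := rfl

theorem dgH_eq (x : R) : dgH N R x = Matrix.diagonal fun _ => x := rfl

theorem sc_dg (M : Mat N ℂ) (x : R) : scH N R M * dgH N R x = dgH N R x * scH N R M := by
  ext a b
  rw [dgH_eq, Matrix.mul_diagonal, Matrix.diagonal_mul, scH_apply]
  exact Algebra.commutes _ _

theorem sc_mul_dg (M : Mat N ℂ) (x : R) (a b : Fin (N + 1)) :
    (scH N R M * dgH N R x) a b = M a b • x := by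
  rw [dgH_eq, Matrix.mul_diagonal, scH_apply, Algebra.smul_def]

end

theorem q_pow {N l : ℕ} {q : ℂ} (hP : Par N l q) : q ^ (l - 1) = q⁻¹ := by
  have h3 := hP.h3
  have hq := qne hP
  have e : q ^ (l - 1) * q = 1 := by
    rw [← pow_succ, show l - 1 + 1 = l by omega]
    exact hP.prim.pow_eq_one
  exact eq_inv_of_mul_eq_one_left e

theorem kk_map {B C : Type} [Ring B] [Algebra ℂ B] [Ring C] [Algebra ℂ C] (l : ℕ)
    (f : B →ₐ[ℂ] C) (K : ℕ → B) (i j : ℕ) :
    kk l (fun j => f (K j)) i j = f (kk l K i j) := by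
  simp [kk, ki]

theorem kk_vK {N l : ℕ} {q : ℂ} (hP : Par N l q) (k : ℕ) :
    kk l (vK N q) k (k + 1) = Matrix.diagonal fun a : Fin (N + 1) => q ^ pr a k := by
  unfold kk ki vK
  rw [Matrix.diagonal_pow, Matrix.diagonal_mul_diagonal]
  congr 1
  funext a
  have hq := q_pow hP
  have h0 := qne hP
  unfold pr
  by_cases h1 : (a : ℕ) = k
  · simp [h1]
  · by_cases h2 : (a : ℕ) = k + 1
    · simp [h2, hq]
    · simp [h1, h2]

theorem kk_wK {N l : ℕ} {q : ℂ} (hP : Par N l q) (k : ℕ) :
    kk l (wK N q) k (k + 1) = Matrix.diagonal fun a : Fin (N + 1) => q ^ (-pr a k) := by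
  unfold kk ki wK
  rw [Matrix.diagonal_pow, Matrix.diagonal_mul_diagonal]
  congr 1
  funext a
  have hq := q_pow hP
  have h0 := qne hP
  have hq' : q⁻¹ ^ (l - 1) = q := by rw [inv_pow, hq, inv_inv]
  unfold pr
  by_cases h1 : (a : ℕ) = k
  · simp [h1]
  · by_cases h2 : (a : ℕ) = k + 1
    · simp only [h2, Pi.mul_apply, Pi.pow_apply]
      simp [hq']
    · simp [h1, h2]

section

variable {N l : ℕ} {q : ℂ}

theorem cm_sd (X : ℕ → Mat N ℂ) (Y : ℕ → A N l q) :
    Cm (fun i => scH N (A N l q) (X i)) (fun i => dgH N (A N l q) (Y i)) :=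
  fun i j => sc_dg (X i) (Y j)

theorem dl_fam (hCT : S_CTG) (hV : S_VREP) (hP : Par N l q) :
    GlRel N l q (dE N q (gE N l q)) (dF N l (gF N l q) (gK N l q)) (dK N q (gK N l q)) := by
  have h1 := (hV N l q hP).1.map (scH N (A N l q))
  have h2 := (glA N l q).map (dgH N (A N l q))
  have h := hCT _ N l q _ _ _ _ _ _ hP h1 h2
    ⟨cm_sd _ _, cm_sd _ _, cm_sd _ _, cm_sd _ _, cm_sd _ _, cm_sd _ _, cm_sd _ _, cm_sd _ _,
      cm_sd _ _⟩
  have eE : cE l (fun i => scH N (A N l q) (vE N i)) (fun i => scH N (A N l q) (vK N q i))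
      (fun i => dgH N (A N l q) (gE N l q i)) = dE N q (gE N l q) := by
    funext k
    ext a b
    rw [cE, kk_map, Matrix.add_apply, sc_mul_dg, kk_vK hP, scH_apply, dE, Matrix.of_apply, vE,
      Matrix.of_apply, add_comm, Matrix.diagonal_apply]
    congr 1
    · split_ifs <;> simp
    · split_ifs <;> simp
  have eF : cF l (fun i => scH N (A N l q) (vF N i)) (fun i => dgH N (A N l q) (gK N l q i))
      (fun i => dgH N (A N l q) (gF N l q i)) = dF N l (gF N l q) (gK N l q) := by
    funext k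
    ext a b
    rw [cF, kk_map, Matrix.add_apply, sc_mul_dg, dF, Matrix.of_apply, vF,
      Matrix.of_apply, add_comm, dgH_eq, Matrix.diagonal_apply]
    congr 1
    split_ifs
    · rw [one_smul]; rfl
    · rw [zero_smul]
  have eK : cK (fun i => scH N (A N l q) (vK N q i)) (fun i => dgH N (A N l q) (gK N l q i))
      = dK N q (gK N l q) := by
    funext k
    ext a b
    rw [cK, sc_mul_dg, dK, Matrix.of_apply, vK, Matrix.diagonal_apply]
    split_ifs <;> simp
  rw [eE, eF, eK] at h
  exact h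

theorem ep_fam (hCT : S_CTG) (hV : S_VREP) (hP : Par N l q) :
    GlRel N l q (eE N q (gE N l q)) (eF N l q (gF N l q) (gK N l q)) (eK N q (gK N l q)) := by
  have h1 := (hV N l q hP).2.map (scH N (A N l q))
  have h2 := (glA N l q).map (dgH N (A N l q))
  have h := hCT _ N l q _ _ _ _ _ _ hP h1 h2
    ⟨cm_sd _ _, cm_sd _ _, cm_sd _ _, cm_sd _ _, cm_sd _ _, cm_sd _ _, cm_sd _ _, cm_sd _ _,
      cm_sd _ _⟩
  have eE' : cE l (fun i => scH N (A N l q) (wE N q i)) (fun i => scH N (A N l q) (wK N q i))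
      (fun i => dgH N (A N l q) (gE N l q i)) = eE N q (gE N l q) := by
    funext k
    ext a b
    rw [cE, kk_map, Matrix.add_apply, sc_mul_dg, kk_wK hP, scH_apply, eE, Matrix.of_apply, wE,
      Matrix.of_apply, add_comm, Matrix.diagonal_apply]
    congr 1
    · split_ifs <;> simp
    · split_ifs
      · rw [Algebra.algebraMap_eq_smul_one]
      · simp
  have eF' : cF l (fun i => scH N (A N l q) (wF N q i)) (fun i => dgH N (A N l q) (gK N l q i))
      (fun i => dgH N (A N l q) (gF N l q i)) = eF N l q (gF N l q) (gK N l q) := by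
    funext k
    ext a b
    rw [cF, kk_map, Matrix.add_apply, sc_mul_dg, eF, Matrix.of_apply, wF,
      Matrix.of_apply, add_comm, dgH_eq, Matrix.diagonal_apply]
    congr 1
    split_ifs
    · rfl
    · rw [zero_smul]
  have eK' : cK (fun i => scH N (A N l q) (wK N q i)) (fun i => dgH N (A N l q) (gK N l q i))
      = eK N q (gK N l q) := by
    funext k
    ext a b
    rw [cK, sc_mul_dg, eK, Matrix.of_apply, wK, Matrix.diagonal_apply]
    split_ifs <;> simp
  rw [eE', eF', eK'] at h
  exact h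

end

theorem sDELTA (hCT : S_CTG) (hV : S_VREP) : S_DELTA := by
  intro N l q hP
  exact ⟨{ dl := liftA (dl_fam hCT hV hP)
           ep := liftA (ep_fam hCT hV hP)
           dl_E := fun i => liftA_E _ i
           dl_F := fun i => liftA_F _ i
           dl_K := fun i => liftA_K _ i
           ep_E := fun i => liftA_E _ i
           ep_F := fun i => liftA_F _ i
           ep_K := fun i => liftA_K _ i }⟩

end Pool.Agent.Helper4.SQ
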