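import Pool.Agent.Helper4.SQ.GAM1

/-!
Project SQ (MP_bb32d1_al), packet GAM, part 3: the theorem.
-/

set_option autoImplicit false

namespace Pool.Agent.Helper4.SQ

open Pool.Agent.Helper19.SQ

section

variable {N l : ℕ} {q : ℂ} {M : Type} [AddCommGroup M] [Module ℂ M] [Module (A N l q) M]
  [IsScalarTower ℂ (A N l q) M]

/-- one pair of root vectors. -/
theorem pair (hCN : S_CN) (hKG : S_KG) (hKI : S_KI) (hP : Par N l q)
    {a n : ℕ} {z : ℕ → ℤ} {w : M} (hn : a + (n + 1) ≤ N)
    (h : Cond (N := N) (l := l) (q := q) a (n + 1) z w) (r : ℕ) :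
    rv q (gE N l q) a (a + (n + 1)) ^ r • (rv q (gF N l q) a (a + (n + 1)) ^ r • w)
      = (∏ s ∈ Finset.range r, hv q n (s + 1)) • w := by
  have hg := good_gF hP
  have hq := hg.q0
  have hqq : q - q⁻¹ ≠ 0 := by
    intro h
    apply hg.q1
    field_simp at h
    linear_combination h
  have hC := (hCN _ N l q _ _ _ hP (glA N l q)).1
  set k := a + (n + 1) with hk
  have hak : a < k := by omega
  have hm : k - a - 1 = n := by omega
  have e := hC a k hak hn
  rw [hm] at e
  have h1 : z a - z k = -1 := by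
    have := h.c1 k hak le_rfl
    rw [this, hk]
    push_cast
    ring
  have hE : ∀ s, rv q (gE N l q) a k • (rv q (gF N l q) a k ^ (s + 1) • w)
      = hv q n (s + 1) • (rv q (gF N l q) a k ^ s • w) := by
    intro s
    have e2 : rv q (gE N l q) a k * rv q (gF N l q) a k
        = rv q (gF N l q) a k * rv q (gE N l q) a k
          + ((-q)⁻¹ ^ n * (q - q⁻¹)⁻¹) • (kk l (gK N l q) a k - kk l (gK N l q) k a) := by
      rw [← e]; abel
    have hs : ∀ s : ℕ, (kk l (gK N l q) a k - kk l (gK N l q) k a) • (rv q (gF N l q) a k ^ s • w)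
        = (q ^ (-1 - 2 * (s : ℤ)) - q ^ (1 + 2 * (s : ℤ))) • (rv q (gF N l q) a k ^ s • w) := by
      intro s
      have w1 := wt_fpow hKG hP h.wt hak s
      have e1 : ew a a k = 1 := by
        unfold ew
        rw [if_pos rfl, if_neg (by omega)]
        norm_num
      have e3 : ew k a k = -1 := by
        unfold ew
        rw [if_neg (by omega), if_pos rfl]
        norm_num
      have w2 := kk_wt hKI hP w1 (show a ≤ N by omega) hn
      have w3 := kk_wt hKI hP w1 hn (show a ≤ N by omega)
      have x1 : (z a - (s : ℤ) * ew a a k) - (z k - (s : ℤ) * ew k a k) = -1 - 2 * (s : ℤ) := by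
        rw [e1, e3]; linarith
      have x2 : (z k - (s : ℤ) * ew k a k) - (z a - (s : ℤ) * ew a a k) = 1 + 2 * (s : ℤ) := by
        rw [e1, e3]; linarith
      change _ = (q ^ ((z a - (s : ℤ) * ew a a k) - (z k - (s : ℤ) * ew k a k)) : ℂ) • _ at w2
      change _ = (q ^ ((z k - (s : ℤ) * ew k a k) - (z a - (s : ℤ) * ew a a k)) : ℂ) • _ at w3
      rw [x1] at w2
      rw [x2] at w3
      rw [sub_smul, w2, w3, sub_smul]
    induction s with
    | zero =>
      have h3 := h.c3 k hak le_rfl
      have h4 := hs 0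
      rw [pow_zero, one_smul] at h4
      rw [zero_add, pow_one, pow_zero, one_smul, ← mul_smul, e2, add_smul, mul_smul, h3, smul_zero,
        zero_add, smul_assoc, h4, smul_smul]
      congr 1
      have h5 := hv_succ hq hqq n 0
      rw [hv_zero, zero_add, zero_add] at h5
      rw [h5]
    | succ s ih =>
      rw [pow_succ' _ (s + 1), mul_smul, ← mul_smul, e2, add_smul, mul_smul, ih, smul_c,
        ← mul_smul, ← pow_succ', smul_assoc, hs (s + 1), smul_smul, ← add_smul,
        hv_succ hq hqq n (s + 1)]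
  induction r with
  | zero => simp
  | succ r ih =>
    rw [pow_succ (rv q (gE N l q) a k), mul_smul, hE, smul_c, ih, smul_smul,
      Finset.prod_range_succ, mul_comm]

theorem rv_rvA (q : ℂ) {B : Type} [Ring B] [Algebra ℂ B] (E : ℕ → B) (a n : ℕ) :
    rvA q E n a = rv q E a (a + (n + 1)) := by
  rw [rv, show a + (n + 1) - a - 1 = n by omega]

/-- the scalar of a row. -/
noncomputable def gr (q : ℂ) (l n : ℕ) : ℂ :=
  ∏ m ∈ Finset.range n, ∏ s ∈ Finset.range (l - 1), hv q m (s + 1)

theorem row (hROOT : S_ROOT) (hCN : S_CN) (hKG : S_KG) (hKI : S_KI) (hP : Par N l q)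
    {a : ℕ} (n : ℕ) (hn : a + n ≤ N) : ∀ {z : ℕ → ℤ} {w : M},
    Cond (N := N) (l := l) (q := q) a n z w →
    Vr l q (gE N l q) a n • (Ur l q (gF N l q) a n • w) = gr q l n • w := by
  induction n with
  | zero =>
    intro z w _
    simp [Vr, Ur, gr]
  | succ n ih =>
    intro z w h
    rw [Vr, Ur, mul_smul, mul_smul, rv_rvA, rv_rvA,
      ih (by omega) (h.step hROOT hCN hKG hKI hP hn), smul_c, pair hCN hKG hKI hP hn h, smul_smul,
      gr, gr, Finset.prod_range_succ]

/-- the weight of a row. -/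
theorem wt_Ur (hKG : S_KG) (hP : Par N l q) {a : ℕ} (n : ℕ) (hn : a + n ≤ N) :
    ∀ {z : ℕ → ℤ} {x : M}, Wt N l q z x →
    Wt N l q (fun p => z p + ((if p = a then (n : ℤ) else 0) - (if a < p ∧ p ≤ a + n then 1 else 0)))
      (Ur l q (gF N l q) a n • x) := by
  induction n with
  | zero =>
    intro z x h p hp
    rw [Ur, one_smul, h p hp]
    congr 2
    change z p = z p + ((if p = a then ((0 : ℕ) : ℤ) else 0) - (if a < p ∧ p ≤ a + 0 then 1 else 0))
    rw [if_neg (show ¬ (a < p ∧ p ≤ a + 0) by omega)]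
    simp
  | succ n ih =>
    intro z x h p hp
    rw [Ur, mul_smul, rv_rvA]
    have h1 := ih (by omega) (wt_ftop hKG hP h (show a < a + (n + 1) by omega)) p hp
    rw [h1]
    congr 2
    change z p + ew p a (a + (n + 1)) + ((if p = a then (n : ℤ) else 0)
      - (if a < p ∧ p ≤ a + n then 1 else 0)) = z p + ((if p = a then ((n + 1 : ℕ) : ℤ) else 0)
      - (if a < p ∧ p ≤ a + (n + 1) then 1 else 0))
    unfold ew
    by_cases c1 : p = a
    · subst c1
      simp only [if_true, lt_irrefl, false_and, if_false]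
      rw [if_neg (by omega)]
      push_cast
      ring
    · rw [if_neg c1, if_neg c1, if_neg c1]
      by_cases c2 : p = a + (n + 1)
      · rw [if_pos c2, if_neg (by omega), if_pos (by omega)]
        ring
      · rw [if_neg c2]
        by_cases c3 : a < p ∧ p ≤ a + n
        · rw [if_pos c3, if_pos (by omega)]
          ring
        · rw [if_neg c3, if_neg (by omega)]
          ring

/-- the weight of the vector after the rows `N-n, ..., N-1`. -/
def zz (N : ℕ) (c : ℤ) (n : ℕ) (p : ℕ) : ℤ :=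
  if p < N - n then c + p else c + N - p + ((N : ℤ) - n)

theorem wt_Tr (hKG : S_KG) (hP : Par N l q) {c : ℤ} {m : M} (h : Wt N l q (fun p => c + p) m)
    (n : ℕ) (hn : n ≤ N) : Wt N l q (zz N c n) (Tr N l q (gF N l q) n • m) := by
  induction n with
  | zero =>
    intro p hp
    rw [Tr, one_smul, h p hp]
    congr 2
    unfold zz
    split_ifs with h1
    · rfl
    · have : p = N := by omega
      subst this
      push_cast
      ring
  | succ n ih =>
    intro p hp
    rw [Tr, mul_smul, wt_Ur hKG hP (n + 1) (by omega) (ih (by omega)) p hp]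
    congr 2
    have e0 : ((N - (n + 1) : ℕ) : ℤ) = (N : ℤ) - (n + 1) := by
      rw [Nat.cast_sub hn]
      push_cast
      ring
    change zz N c n p + _ = _
    unfold zz
    by_cases c1 : p = N - (n + 1)
    · have e1 : (p : ℤ) = (N : ℤ) - (n + 1) := by rw [c1, e0]
      rw [if_pos (by omega), if_pos c1, if_neg (by omega), if_neg (by omega)]
      push_cast
      linarith
    · rw [if_neg c1]
      by_cases c2 : p < N - (n + 1)
      · rw [if_pos (by omega), if_neg (by omega), if_pos c2]
        ring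
      · rw [if_neg (by omega), if_pos (by omega), if_neg c2]
        push_cast
        ring

/-- `E_aj` kills all vectors obtained with the `F_k`, `k > a`. -/
theorem word_kill (hCM1 : S_CM1) (hKI : S_KI) (hP : Par N l q) {z : ℕ → ℤ} {m : M}
    (hm : Wt N l q z m) (hE : ∀ i, gE N l q i • m = 0) (a : ℕ) (w : List ℕ) :
    (∃ z', Wt N l q z' ((w.map fun k => gF N l q (a + 1 + k)).prod • m)) ∧
    ∀ j, a < j → j ≤ N → rv q (gE N l q) a j •
      ((w.map fun k => gF N l q (a + 1 + k)).prod • m) = 0 := by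
  have hq := qne hP
  obtain ⟨hA, -, hC⟩ := hCM1 _ N l q _ _ _ hP (glA N l q)
  induction w with
  | nil =>
    refine ⟨⟨z, by simpa using hm⟩, fun j h1 h2 => ?_⟩
    have e : ∀ d i, rvA q (gE N l q) d i • m = 0 := by
      intro d
      induction d with
      | zero => exact fun i => hE i
      | succ d ih =>
        intro i
        rw [rvA, sub_smul, mul_smul, ih, smul_zero, smul_assoc, mul_smul, hE, smul_zero,
          smul_zero, sub_zero]
    rw [List.map_nil, List.prod_nil, one_smul]
    exact e _ _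
  | cons k w ih =>
    obtain ⟨⟨z', hz⟩, hk⟩ := ih
    set x := (w.map fun k => gF N l q (a + 1 + k)).prod • m with hx
    have e0 : ((k :: w).map fun k => gF N l q (a + 1 + k)).prod • m
        = gF N l q (a + 1 + k) • x := by
      rw [List.map_cons, List.prod_cons, mul_smul]
    rw [e0]
    refine ⟨⟨fun p => z' p - pr p (a + 1 + k), fun p hp => ?_⟩, fun j h1 h2 => ?_⟩
    · rw [← mul_smul, (glA N l q).KF, smul_assoc, mul_smul, hz p hp, smul_c, smul_smul,
        ← zpow_add₀ hq]
      congr 2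
      ring
    · by_cases h3 : N ≤ a + 1 + k
      · rw [(glA N l q).F_out _ h3, zero_smul, smul_zero]
      · by_cases h4 : a + 1 + k + 1 = j
        · have e1 := hC a (a + 1 + k) (by omega) (by omega)
          have e2 : rv q (gE N l q) a (a + 1 + k + 1) * gF N l q (a + 1 + k)
              = gF N l q (a + 1 + k) * rv q (gE N l q) a (a + 1 + k + 1)
                + q⁻¹ • (rv q (gE N l q) a (a + 1 + k)
                  * kk l (gK N l q) (a + 1 + k) (a + 1 + k + 1)) := by
            rw [← e1]; abel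
          rw [← h4, ← mul_smul, e2, add_smul, mul_smul, hk _ (by omega) (by omega), smul_zero,
            zero_add, smul_assoc, mul_smul, kk_wt hKI hP hz (by omega) (by omega), smul_c,
            hk _ (by omega) (by omega), smul_zero, smul_zero]
        · rw [← mul_smul, hA a j (a + 1 + k) h1 h2 (by omega) h4, mul_smul, hk j h1 h2, smul_zero]

theorem G_kill (hCM1 : S_CM1) (hKI : S_KI) (hP : Par N l q) {z : ℕ → ℤ} {m : M}
    (hm : Wt N l q z m) (hE : ∀ i, gE N l q i • m = 0) (a h : ℕ) {x : A N l q}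
    (hx : x ∈ G (fun k => gF N l q (a + 1 + k)) h) (j : ℕ) (h1 : a < j) (h2 : j ≤ N) :
    rv q (gE N l q) a j • (x • m) = 0 := by
  unfold G at hx
  induction hx using Submodule.span_induction with
  | mem y hy =>
    obtain ⟨w, -, rfl⟩ := hy
    exact (word_kill hCM1 hKI hP hm hE a w).2 j h1 h2
  | zero => rw [zero_smul, smul_zero]
  | add y y' _ _ e1 e2 => rw [add_smul, smul_add, e1, e2, add_zero]
  | smul c y _ e => rw [smul_assoc, smul_c, e, smul_zero]

theorem top_kill (hSPAN : S_SPAN) (hHTOP : S_HTOP) (hP : Par N l q) (n : ℕ) (hn : n ≤ N)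
    (j k : ℕ) (h1 : N - n ≤ j) (h2 : j < k) :
    rv q (gF N l q) j k * Tr N l q (gF N l q) n = 0 := by
  have hg := (good_gF hP).shift n hn
  have e1 : rv q (gF N l q) j k ∈ G (fun i => gF N l q (N - n + i)) (k - j - 1 + 1) := by
    have e := G_rvA q (fun i => gF N l q (N - n + i)) (k - j - 1) (j - (N - n))
    rw [rvA_shift, show N - n + (j - (N - n)) = j by omega] at e
    exact e
  have e2 := G_mul e1 (Tr_mem N l q (gF N l q) n hn)
  exact G_gt hSPAN hHTOP hg (by omega) e2

theorem cond_Tr (hCM1 : S_CM1) (hKG : S_KG) (hKI : S_KI) (hSPAN : S_SPAN) (hHTOP : S_HTOP)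
    (hP : Par N l q) {c : ℤ} {m : M} (hm : Wt N l q (fun p => c + p) m)
    (hE : ∀ i, gE N l q i • m = 0) (n : ℕ) (hn : n + 1 ≤ N) :
    Cond (N := N) (l := l) (q := q) (N - (n + 1)) (n + 1) (zz N c n)
      (Tr N l q (gF N l q) n • m) := by
  refine ⟨wt_Tr hKG hP hm n (by omega), ?_, ?_, ?_⟩
  · intro j h1 h2
    have e0 : ((N - (n + 1) : ℕ) : ℤ) = (N : ℤ) - (n + 1) := by
      rw [Nat.cast_sub hn]
      push_cast
      ring
    unfold zz
    rw [if_pos (by omega), if_neg (by omega), e0]
    push_cast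
    ring
  · intro j k h1 h2 h3
    rw [← mul_smul, top_kill hSPAN hHTOP hP n (by omega) j k (by omega) h2, zero_smul]
  · intro j h1 h2
    have e := Tr_mem N l q (gF N l q) n (by omega)
    rw [show N - n = N - (n + 1) + 1 by omega] at e
    exact G_kill hCM1 hKI hP hm hE _ _ e j h1 (by omega)

theorem rows (hROOT : S_ROOT) (hCM1 : S_CM1) (hCN : S_CN) (hKG : S_KG) (hKI : S_KI)
    (hSPAN : S_SPAN) (hHTOP : S_HTOP) (hP : Par N l q) {c : ℤ} {m : M}
    (hm : Wt N l q (fun p => c + p) m) (hE : ∀ i, gE N l q i • m = 0) (n : ℕ) (hn : n ≤ N) :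
    Wr N l q (gE N l q) n • (Tr N l q (gF N l q) n • m)
      = (∏ i ∈ Finset.range n, gr q l (i + 1)) • m := by
  induction n with
  | zero => simp [Wr, Tr]
  | succ n ih =>
    rw [Wr, Tr, mul_smul, mul_smul, row hROOT hCN hKG hKI hP (n + 1) (by omega)
      (cond_Tr hCM1 hKG hKI hSPAN hHTOP hP hm hE n hn), smul_c, ih (by omega), smul_smul,
      Finset.prod_range_succ, mul_comm]

end

theorem sGAM (hROOT : S_ROOT) (hCM1 : S_CM1) (hCN : S_CN) (hKG : S_KG) (hKI : S_KI)
    (hSPAN : S_SPAN) (hHTOP : S_HTOP) : S_GAM := by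
  intro N l _ q hP c
  have h3 := hP.h3
  set Γ : ℂ := ∏ i ∈ Finset.range N, gr q l (i + 1) with hΓ
  have hΓ0 : Γ ≠ 0 := by
    refine Finset.prod_ne_zero_iff.2 fun i _ => ?_
    unfold gr
    refine Finset.prod_ne_zero_iff.2 fun m _ => Finset.prod_ne_zero_iff.2 fun s hs => ?_
    have := Finset.mem_range.1 hs
    exact hv_ne hP m (s + 1) (by omega) (by omega)
  obtain ⟨c', hc'⟩ := G_eq hSPAN hHTOP (good_gE hP) (Wr_mem N l q (gE N l q) N)
  have key : ∀ (M : Type) [AddCommGroup M] [Module ℂ M] [Module (A N l q) M]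
      [IsScalarTower ℂ (A N l q) M] (m : M),
      Sing q (fun j : Fin (N + 1) => c + ((j : ℕ) : ZMod l)) m →
      c' • (mon N q (gE N l q) (topE N l) • (mon N q (gF N l q) (topE N l) • m)) = Γ • m := by
    intro M _ _ _ _ m hm
    have hw : Wt N l q (fun p => (c.val : ℤ) + p) m := by
      intro p hp
      have e := hm.2 ⟨p, by omega⟩
      rw [e]
      congr 1
      unfold qz
      have e2 : ((c + (p : ZMod l)).val : ℕ) ≡ c.val + p [MOD l] := by
        rw [← ZMod.natCast_eq_natCast_iff]
        simp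
      have e3 : q ^ (c + (p : ZMod l)).val = q ^ (c.val + p) := by
        rw [pow_eq_pow_mod _ hP.prim.pow_eq_one, e2, ← pow_eq_pow_mod _ hP.prim.pow_eq_one]
      change q ^ (c + (p : ZMod l)).val = _
      rw [e3, ← zpow_natCast]
      push_cast
      rfl
    have e := rows hROOT hCM1 hCN hKG hKI hSPAN hHTOP hP hw hm.1 N le_rfl
    rw [hc', ← mon_eq, smul_assoc] at e
    exact e
  by_cases h0 : c' = 0
  · refine ⟨1, one_ne_zero, fun M _ _ _ _ m hm => ?_⟩
    have e := key M m hm
    rw [h0, zero_smul] at e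
    have e2 : m = 0 := by
      have := congrArg (fun x => Γ⁻¹ • x) e.symm
      simpa [smul_smul, inv_mul_cancel₀ hΓ0] using this
    rw [e2, smul_zero, smul_zero, smul_zero]
  · refine ⟨c'⁻¹ * Γ, mul_ne_zero (inv_ne_zero h0) hΓ0, fun M _ _ _ _ m hm => ?_⟩
    rw [mul_smul c'⁻¹ Γ m, ← key M m hm, ← mul_smul c'⁻¹ c', inv_mul_cancel₀ h0, one_smul]

end Pool.Agent.Helper4.SQ
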