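import Pool.Agent.Helper19.SQ.GoalsQ
import Pool.Agent.Helper19.SQ.GoalsH

/-!
Project SQ (MP_bb32d1_al), packet NTRIV.
-/

set_option autoImplicit false

namespace Pool.Agent.Helper4.SQ

open Pool.Agent.Helper19.SQ

theorem sNTRIV (hV : S_VREP) : S_NTRIV := by
  intro N l q hP
  exact (liftA (hV N l q hP).1).toRingHom.domain_nontrivial

end Pool.Agent.Helper4.SQ
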