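import Pool.Agent.Helper29.SQ.KW
import Pool.Agent.Helper29.SQ.CS
import Pool.Agent.Helper29.SQ.CR
import Pool.Agent.Helper29.SQ.CP
import Pool.Agent.Helper29.SQ.CE
import Pool.Agent.Helper29.SQ.XC
import Pool.Agent.Helper29.SQ.RO
import Pool.Agent.Helper29.SQ.ROOT
import Pool.Agent.Helper8.SQ.QB
import Pool.Agent.Helper8.SQ.XF
import Pool.Agent.Helper59.SQ.CO
import Pool.Agent.Helper85.SQ.VR
import Pool.Agent.Helper85.SQ.TO
import Pool.Agent.Helper14.SQ.CUP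
import Pool.Agent.Helper84.SQ.CM
import Pool.Agent.Helper28.SQ.CN
import Pool.Agent.Helper28.SQ.SPAN
import Pool.Agent.Helper17.SQ.LE
import Pool.Agent.Helper24.SQ.LF
import Pool.Agent.Helper77.SQ.YE
import Pool.Agent.Helper79.SQ.YF
import Pool.Agent.Helper81.SQ.EL
import Pool.Agent.Helper27.SQ.SM
import Pool.Agent.Helper35.SQ.SE
import Pool.Agent.Helper35.SQ.UV
import Pool.Agent.Helper64.SQ.SD
import Pool.Agent.Helper15.SQ.XQ
import Pool.Agent.Helper96.SQ.LM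
import Pool.Agent.Helper23.SQ.HTOP
import Pool.Agent.Helper60.SQ.SF
import Pool.Agent.Helper50.SQ.EY
import Pool.Agent.Helper4.SQ.CT
import Pool.Agent.Helper4.SQ.DE
import Pool.Agent.Helper4.SQ.C0
import Pool.Agent.Helper4.SQ.GAM
import Pool.Agent.Helper4.SQ.NTRIV

/-!
Project SQ (MP_bb32d1_al): assembly of the quantum group half.
-/

set_option autoImplicit false

namespace Pool.Agent.Helper4.SQ

open Pool.Agent.Helper19.SQ

theorem qROOT : S_ROOT := Helper29.SQ.sROOT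
theorem qRO : S_RO := Helper29.SQ.sRO
theorem qKI : S_KI := Helper29.SQ.sKI
theorem qHF : S_HF := Helper29.SQ.sHF
theorem qKW : S_KW := Helper29.SQ.sKW
theorem qKG : S_KG := Helper29.SQ.sKG
theorem qQBINS : S_QBINS := Helper8.SQ.sQBINS
theorem qCS : S_CS := Helper29.SQ.sCS
theorem qCR : S_CR := Helper29.SQ.sCR
theorem qCP : S_CP := Helper29.SQ.sCP qQBINS
theorem qCO : S_CO := Helper59.SQ.sCO qKG qKI qRO
theorem qCE : S_CE := Helper29.SQ.sCE
theorem qCTG : S_CTG := sCTG qCS qCP qCE qHF qKI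
theorem qCT : S_CT := sCT_of qCTG
theorem qVRV : S_VRV := Helper85.SQ.sVRV
theorem qVREP : S_VREP := Helper85.SQ.sVREP
theorem qDELTA : S_DELTA := sDELTA qCTG qVREP
theorem qNTRIV : S_NTRIV := sNTRIV qVREP
theorem qCAP0 : S_CAP0 := Helper14.SQ.sCAP0
theorem qCUP0 : S_CUP0 := Helper14.SQ.sCUP0
theorem qCAP1 : S_CAP1 := Helper14.SQ.sCAP1
theorem qCUP1 : S_CUP1 := Helper14.SQ.sCUP1
theorem qCM1 : S_CM1 := Helper84.SQ.sCM1 qROOT qKG qKI
theorem qCM2 : S_CM2 := Helper84.SQ.sCM2 qROOT qRO qKG qKI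
theorem qCN : S_CN := Helper28.SQ.sCN qCM1 qCM2 qKG qKI
theorem qLE : S_LE := Helper17.SQ.sLE qROOT qKG qKI
theorem qLF : S_LF := Helper24.SQ.sLF qKI qCM1
theorem qLK : S_LK := Helper17.SQ.sLK qKG
theorem qYE : S_YE := Helper77.SQ.sYE qRO qKG qKI qCM2
theorem qYF : S_YF := Helper79.SQ.sYF qRO qKI
theorem qYK : S_YK := Helper77.SQ.sYK qRO qKG qKI qCM2
theorem qXC : S_XC := Helper29.SQ.sXC qLE qLF qLK qYE qYF qYK
theorem qEL : S_EL := Helper81.SQ.sEL qCR qVRV qVREP qKI qHF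
theorem qSM : S_SM := Helper27.SQ.sSM
theorem qSE : S_SE := Helper35.SQ.sSE
theorem qUD : S_UD := Helper35.SQ.sUD qCUP1
theorem qTO1 : S_TO1 := Helper85.SQ.sTO1
theorem qTO2 : S_TO2 := Helper85.SQ.sTO2
theorem qLM : S_LM := Helper96.SQ.s_lm qROOT
theorem qSPAN : S_SPAN := Helper28.SQ.s_span qLM
theorem qHTOP : S_HTOP := Helper23.SQ.s_htop
theorem qGAM : S_GAM := sGAM qROOT qCM1 qCN qKG qKI qSPAN qHTOP

theorem qSF : S_SF := Helper60.SQ.sSF
theorem qEY : S_EY := Helper50.SQ.sEY qCO qVRV qVREP qKI qKG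
theorem qSD : S_SD := Helper64.SQ.sSD qSE qSF
theorem qXF : S_XF := Helper8.SQ.sXF qEL qEY
theorem qX2Q : S_X2Q := Helper15.SQ.sX2Q qXF qSM
theorem qVD : S_VD := Helper35.SQ.sVD qCAP1 qSD qSM qXC

/-- the structure Core0 for u_q(gl_n) exists. -/
theorem qC0 : S_C0 := sC0 qCAP0 qCUP0 qCAP1 qXC qSM qSD qX2Q qUD qVD qTO1 qTO2

end Pool.Agent.Helper4.SQ
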