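import Pool.Agent.Helper4.SQ.QCur
import Pool.Agent.Helper19.SQ.CDefs

/-!
Project SQ (MP_bb32d1_al), stage B, helper4: loop operators for the abstract data.
-/

set_option autoImplicit false
set_option linter.unusedSectionVars false

namespace Pool.Agent.Helper4.SQ

noncomputable section

open Pool.Agent.Helper19.SQ Pool.Agent.Helper34.SQ Pool.Agent.Helper41.SQ

variable {N l : ℕ} [NeZero l] {q : ℂ} {hl : l ≠ 0} {s : ℕ → ℂˣ} {D : Dl N l q}
  {C : Core (A N l q) (Fin (N + 1)) l} {K : ℕ}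

/-- loop operators for the abstract data. -/
theorem loopA_of (h : Sett2 N l q hl s D C K) (h5 : 5 ≤ l) :
    Nonempty (LoopA (absData h)) := by
  obtain ⟨L⟩ := loop_of h h5
  refine ⟨{ e := L.e, mul := ?_, com := ?_, E_eq := L.E_eq, F_eq := L.F_eq, Ez_eq := L.Ez_eq,
            Fz_eq := L.Fz_eq }⟩
  · intro a b c r s r' s' h1 h2 h3
    have h4 := L.mul a b c r s r' s' h1 h2 h3
    rw [lie_eq] at h4
    exact h4
  · intro a b c d r s r' s' h1 h2 h3 h4
    have h5 := L.com a b c d r s r' s' h1 h2 h3 h4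
    rw [lie_eq] at h5
    exact sub_eq_zero.1 h5

/-- **part Q with the loop operators.** -/
theorem part_ql (N l : ℕ) [NeZero l] (q : ℂ) (hP : Par N l q) (h5 : 5 ≤ l) :
    ∃ (hl : l ≠ 0) (s : ℕ → ℂˣ) (D : Dl N l q) (C : Core (A N l q) (Fin (N + 1)) l) (K : ℕ),
      Sett2 N l q hl s D C K ∧
      (∀ τ : A N l q →ₗ[ℂ] ℂ, (∀ x y, τ (x * y) = τ (y * x)) → τ ∈ Tinv C.toCore0) ∧
      (∃ d : AbsData l (N + 1) (Tinv C.toCore0), Nonempty (LoopA d) ∧
        (∀ m, d.gr m = (Tm C m).comap (Tinv C.toCore0).subtype) ∧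
        (∀ m, Module.finrank ℂ (d.gr m) = Module.finrank ℂ (Tm C m))) ∧
      (∀ m, Module.finrank ℂ (Zm C m) ≤ Module.finrank ℂ (Tm C m)) ∧
      Module.finrank ℂ (Tinv C.toCore0) ≤ ∑ m ∈ C.types, Module.finrank ℂ (Tm C m) ∧
      Module.finrank ℂ (Subalgebra.center ℂ (A N l q)) ≤ Module.finrank ℂ (Tinv C.toCore0) ∧
      (Nat.Coprime (N + 1) l → l * Module.finrank ℂ (Subalgebra.center ℂ (Usl N l q))
        ≤ Module.finrank ℂ (Tinv C.toCore0)) := by
  have hl : l ≠ 0 := NeZero.ne l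
  obtain ⟨s, hs⟩ := Helper18.SQ.s_twi N
  obtain ⟨D, C, K, h⟩ := sett2' N l q hl s hP hs
  obtain ⟨h1, h2, h3⟩ := dims h
  refine ⟨hl, s, D, C, K, h, all_inv h, ⟨absData h, loopA_of h h5, fun m => rfl, finrank_gr⟩,
    h2, h3, h1, ?_⟩
  intro hco
  exact (yZUL N l q hP hco h.sett.fd).trans h1

end

end Pool.Agent.Helper4.SQ
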