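import Pool.Agent.Helper39.SQ.ZUL

/-!
Project SQ (MP_bb32d1_al), stage C, helper4: `dim Z(u_q(gl_n)) ≤ l dim Z(u_q(sl_n))` for
`gcd(n, l) = 1`.
-/

set_option autoImplicit false

namespace Pool.Agent.Helper4.SQ

open Pool.Agent.Helper19.SQ Pool.Agent.Helper6.SQ Pool.Agent.Helper39.SQ

noncomputable section

variable {N l : ℕ} {q : ℂ}

/-- **ZAU**. -/
theorem zau_of (hIota : S_IOTA) (hPi : S_PI) (N l : ℕ) [NeZero l] (q : ℂ) (hP : Par N l q)
    (hco : Nat.Coprime (N + 1) l) (hfin : FiniteDimensional ℂ (A N l q)) :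
    Module.finrank ℂ (Subalgebra.center ℂ (A N l q))
      ≤ l * Module.finrank ℂ (Subalgebra.center ℂ (Usl N l q)) := by
  have hl : l ≠ 0 := NeZero.ne l
  have hl3 := hP.h3
  have hq : q ≠ 0 := hP.prim.ne_zero hl
  obtain ⟨n', -, hn'⟩ := Nat.exists_mul_mod_eq_one_of_coprime hco (by omega)
  have hn2 : (n' * (N + 1)) % l = 1 := by rw [mul_comm]; exact hn'
  obtain ⟨hrel, hkap⟩ := hPi N l q hP n' hn2
  set ι : Usl N l q →ₐ[ℂ] A N l q := liftU (hIota N l q hP) with hι
  have hιE : ∀ i : Fin N, ι (uE N l q i) = gE N l q i := fun i => liftU_E _ i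
  have hιF : ∀ i : Fin N, ι (uF N l q i) = gF N l q i := fun i => liftU_F _ i
  have hιK : ∀ i : Fin N, ι (uK N l q i) = gK N l q i * gK N l q (i + 1) ^ (l - 1) :=
    fun i => liftU_K _ i
  have hleft : ∀ (ζ : ℂ) (hζ : ζ ^ l = 1) (x : Usl N l q),
      liftA (kz_rel hl hrel hζ) (ι x) = x := by
    intro ζ hζ x
    refine U_induction (P := fun x => liftA (kz_rel hl hrel hζ) (ι x) = x) ?_ ?_ ?_ ?_ ?_ ?_ x
    · intro c; simp
    · intro i; rw [hιE, liftA_E]; simp [ext0, i.2]
    · intro i; rw [hιF, liftA_F]; simp [ext0, i.2]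
    · intro i
      rw [hιK, map_mul, map_pow, liftA_K, liftA_K, kz_mul hl hζ (by omega) (by omega)]
      exact hkap i
    · intro a b ha hb; rw [map_add, map_add, ha, hb]
    · intro a b ha hb; rw [map_mul, map_mul, ha, hb]
  have hinj : Function.Injective ι :=
    Function.LeftInverse.injective (hleft 1 (one_pow l))
  have : FiniteDimensional ℂ (Usl N l q) :=
    FiniteDimensional.of_injective ι.toLinearMap hinj
  set c := pK N l q (N + 1) with hc
  have hcl : c ^ l = 1 := pK_pow (N + 1)
  have hcc : ∀ a : A N l q, Commute c a := fun a => pK_central hq a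
  set P : Usl N l q := liftA hrel c with hPdef
  have hPl : P ^ l = 1 := by rw [hPdef, ← map_pow, hcl, map_one]
  have hpi : ∀ (ζ : ℂ) (hζ : ζ ^ l = 1) (m : ℕ), m ≤ N + 1 →
      liftA (kz_rel hl hrel hζ) (pK N l q m) = ζ ^ m • liftA hrel (pK N l q m) := by
    intro ζ hζ m
    induction m with
    | zero => intro _; simp [pK_zero]
    | succ m ih =>
      intro hm
      rw [pK_succ, map_mul, map_mul, ih (by omega), liftA_K, liftA_K, kz_le (by omega),
        smul_mul_smul_comm, pow_succ]
  -- the `K_j K_i⁻¹` are in the image of `iota`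
  have hstep : ∀ i, i < N → kk N l q i (i + 1) ∈ ι.range := by
    intro i hi
    exact ⟨uK N l q ⟨i, hi⟩, hιK ⟨i, hi⟩⟩
  have hstep' : ∀ i, i < N → kk N l q (i + 1) i ∈ ι.range := by
    intro i hi
    rw [← kk_inv (by omega) i (i + 1)]
    exact Subalgebra.pow_mem _ (hstep i hi) _
  have h0 : ∀ i, i ≤ N → kk N l q i 0 ∈ ι.range := by
    intro i
    induction i with
    | zero => intro _; rw [kk_self hl]; exact Subalgebra.one_mem _
    | succ i ih =>
      intro hi
      rw [← kk_mul hl (i + 1) i 0]
      exact Subalgebra.mul_mem _ (hstep' i (by omega)) (ih (by omega))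
  have h0' : ∀ i, i ≤ N → kk N l q 0 i ∈ ι.range := by
    intro i
    induction i with
    | zero => intro _; rw [kk_self hl]; exact Subalgebra.one_mem _
    | succ i ih =>
      intro hi
      rw [← kk_mul hl 0 i (i + 1)]
      exact Subalgebra.mul_mem _ (ih (by omega)) (hstep i (by omega))
  have hkk : ∀ j i, j ≤ N → i ≤ N → kk N l q j i ∈ ι.range := by
    intro j i hj hi
    rw [← kk_mul hl j 0 i]
    exact Subalgebra.mul_mem _ (h0 j hj) (h0' i hi)
  -- `A = ∑ iota(U) c^i`
  let Ψ : (Fin l → Usl N l q) →ₗ[ℂ] A N l q :=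
    { toFun := fun u => ∑ i, ι (u i) * c ^ (i : ℕ)
      map_add' := by
        intro x y
        simp [add_mul, Finset.sum_add_distrib]
      map_smul' := by
        intro t x
        simp [Finset.smul_sum] }
  have hΨ : ∀ u, Ψ u = ∑ i, ι (u i) * c ^ (i : ℕ) := fun u => rfl
  have mem1 : ∀ (u : Usl N l q) (i : ℕ), ι u * c ^ i ∈ LinearMap.range Ψ := by
    intro u i
    refine ⟨Pi.single (⟨i % l, Nat.mod_lt _ (by omega)⟩ : Fin l) u, ?_⟩
    rw [hΨ, Finset.sum_eq_single (⟨i % l, Nat.mod_lt _ (by omega)⟩ : Fin l)]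
    · rw [Pi.single_eq_same]
      congr 1
      conv_rhs => rw [← Nat.div_add_mod i l, pow_add, pow_mul, hcl, one_pow, one_mul]
    · intro j _ hj
      rw [Pi.single_eq_of_ne hj, map_zero, zero_mul]
    · intro h; exact absurd (Finset.mem_univ _) h
  have memmul : ∀ a b : A N l q, a ∈ LinearMap.range Ψ → b ∈ LinearMap.range Ψ →
      a * b ∈ LinearMap.range Ψ := by
    rintro _ _ ⟨u, rfl⟩ ⟨v, rfl⟩
    rw [hΨ, hΨ, Finset.sum_mul]
    refine Submodule.sum_mem _ fun i _ => ?_
    rw [Finset.mul_sum]
    refine Submodule.sum_mem _ fun j _ => ?_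
    have h1 : ι (u i) * c ^ (i : ℕ) * (ι (v j) * c ^ (j : ℕ))
        = ι (u i * v j) * c ^ ((i : ℕ) + (j : ℕ)) := by
      rw [map_mul, pow_add, mul_assoc, ← mul_assoc (c ^ (i : ℕ)),
        ((hcc (ι (v j))).pow_left (i : ℕ)).eq]
      simp only [mul_assoc]
    rw [h1]
    exact mem1 _ _
  have memone : (1 : A N l q) ∈ LinearMap.range Ψ := by
    have := mem1 1 0
    rwa [map_one, pow_zero, one_mul] at this
  have mempow : ∀ (a : A N l q), a ∈ LinearMap.range Ψ → ∀ k : ℕ, a ^ k ∈ LinearMap.range Ψ := by
    intro a ha k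
    induction k with
    | zero => rw [pow_zero]; exact memone
    | succ k ih => rw [pow_succ]; exact memmul _ _ ih ha
  have memι : ∀ u : Usl N l q, ι u ∈ LinearMap.range Ψ := by
    intro u
    have := mem1 u 0
    rwa [pow_zero, mul_one] at this
  have hsurj : ∀ a : A N l q, a ∈ LinearMap.range Ψ := by
    intro a
    refine A_induction (P := fun a => a ∈ LinearMap.range Ψ) ?_ ?_ ?_ ?_ ?_ ?_ a
    · intro t
      have := memι (algebraMap ℂ _ t)
      rwa [AlgHom.commutes] at this
    · intro i
      by_cases hi : i < N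
      · have := memι (uE N l q ⟨i, hi⟩)
        rw [hιE] at this; exact this
      · rw [(glA N l q).E_out i (by omega)]; exact Submodule.zero_mem _
    · intro i
      by_cases hi : i < N
      · have := memι (uF N l q ⟨i, hi⟩)
        rw [hιF] at this; exact this
      · rw [(glA N l q).F_out i (by omega)]; exact Submodule.zero_mem _
    · intro j
      by_cases hj : j ≤ N
      · have h1 : gK N l q j ^ (N + 1) ∈ LinearMap.range Ψ := by
          rw [← prod_kk hl j (N + 1)]
          have h2 : ((List.range (N + 1)).map (kk N l q j)).prod ∈ ι.range := by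
            apply Subalgebra.list_prod_mem
            intro x hx
            rw [List.mem_map] at hx
            obtain ⟨i, hi, rfl⟩ := hx
            rw [List.mem_range] at hi
            exact hkk j i hj (by omega)
          obtain ⟨u, hu⟩ := h2
          rw [← hu]
          have := mem1 u 1
          rw [pow_one] at this
          exact this
        have h2 : gK N l q j = (gK N l q j ^ (N + 1)) ^ n' := by
          rw [← pow_mul]
          have h3 : (N + 1) * n' = l * ((N + 1) * n' / l) + 1 := by
            have := Nat.div_add_mod ((N + 1) * n') l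
            rw [hn'] at this
            exact this.symm
          rw [h3, pow_add, pow_mul, (glA N l q).K_pow, one_pow, one_mul, pow_one]
        rw [h2]
        exact mempow _ h1 _
      · rw [(glA N l q).K_out j (by omega)]; exact memone
    · intro a b ha hb; exact Submodule.add_mem _ ha hb
    · intro a b ha hb; exact memmul a b ha hb
  have hprim : IsPrimitiveRoot (q ^ (N + 1)) l := hP.prim.pow_of_coprime (N + 1) hco
  have hroot : ∀ j : ℕ, (q ^ j) ^ l = 1 := by
    intro j
    rw [← pow_mul, mul_comm, pow_mul, hP.prim.pow_eq_one, one_pow]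
  -- joint injectivity
  have hjoint : ∀ a : A N l q,
      (∀ j : Fin l, liftA (kz_rel hl hrel (hroot j)) a = 0) → a = 0 := by
    intro a ha
    obtain ⟨z, rfl⟩ := hsurj a
    have h1 : ∀ j : Fin l,
        ∑ i : Fin l, ((q ^ (j : ℕ)) ^ (N + 1)) ^ (i : ℕ) • (z i * P ^ (i : ℕ)) = 0 := by
      intro j
      have h2 := ha j
      rw [hΨ, map_sum] at h2
      rw [← h2]
      refine Finset.sum_congr rfl fun i _ => ?_
      rw [map_mul, hleft _ (hroot j), map_pow, hc, hpi _ (hroot j) (N + 1) le_rfl, smul_pow,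
        mul_smul_comm]
    have h3 : ∀ i : Fin l, z i * P ^ (i : ℕ) = 0 := by
      intro i
      rw [← Module.forall_dual_apply_eq_zero_iff ℂ]
      intro f
      have h4 := Matrix.eq_zero_of_forall_index_sum_pow_mul_eq_zero
        (f := fun j : Fin l => (q ^ (N + 1)) ^ (j : ℕ))
        (v := fun i : Fin l => f (z i * P ^ (i : ℕ))) ?_ ?_
      · exact congrFun h4 i
      · intro a b hab
        exact Fin.ext (hprim.pow_inj a.2 b.2 hab)
      · intro j
        have h5 := h1 j
        have h6 := congrArg f h5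
        rw [map_sum, map_zero] at h6
        rw [← h6]
        refine Finset.sum_congr rfl fun i _ => ?_
        rw [map_smul, smul_eq_mul]
        congr 2
        rw [← pow_mul, ← pow_mul, mul_comm]
    have h4 : ∀ i, z i = 0 := by
      intro i
      have h5 : P ^ (i : ℕ) * P ^ (l - (i : ℕ)) = 1 := by
        rw [← pow_add, Nat.add_sub_cancel' i.2.le, hPl]
      calc z i = z i * (P ^ (i : ℕ) * P ^ (l - (i : ℕ))) := by rw [h5, mul_one]
        _ = (z i * P ^ (i : ℕ)) * P ^ (l - (i : ℕ)) := by rw [mul_assoc]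
        _ = 0 := by rw [h3 i, zero_mul]
    rw [hΨ]
    exact Finset.sum_eq_zero fun i _ => by rw [h4 i, map_zero, zero_mul]
  -- the linear map
  let Φ : Subalgebra.center ℂ (A N l q) →ₗ[ℂ] (Fin l → Subalgebra.center ℂ (Usl N l q)) :=
    { toFun := fun z j => ⟨liftA (kz_rel hl hrel (hroot j)) (z : A N l q), by
        refine Subalgebra.mem_center_iff.2 fun b => ?_
        have h1 := (Subalgebra.mem_center_iff.1 z.2) (ι b)
        have h2 := congrArg (liftA (kz_rel hl hrel (hroot j))) h1
        rw [map_mul, map_mul, hleft _ (hroot j)] at h2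
        exact h2⟩
      map_add' := by
        intro x y
        funext j
        apply Subtype.ext
        simp
      map_smul' := by
        intro t x
        funext j
        apply Subtype.ext
        simp }
  have hΦ : Function.Injective Φ := by
    rw [← LinearMap.ker_eq_bot, LinearMap.ker_eq_bot']
    intro z hz
    apply Subtype.ext
    refine hjoint z.1 fun j => ?_
    have h1 := congrFun hz j
    exact congrArg Subtype.val h1
  have h := LinearMap.finrank_le_finrank_of_injective hΦ
  rwa [Module.finrank_pi_fintype, Finset.sum_const, Finset.card_univ, Fintype.card_fin,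
    smul_eq_mul] at h

end

end Pool.Agent.Helper4.SQ
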