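import Pool.Agent.Helper4.SQ.QCur
import Pool.Agent.Helper4.SQ.Zau

/-!
Project SQ (MP_bb32d1_al), stage C, helper4: the words in the closures, applied to `1`, span
everything modulo the kernels of all traces (SPT); all central functionals come from the center
(TZ).
-/

set_option autoImplicit false
set_option linter.unusedSectionVars false

namespace Pool.Agent.Helper4.SQ

noncomputable section

open Matrix Pool.Agent.Helper19.SQ Pool.Agent.Helper34.SQ Pool.Agent.Helper41.SQ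

variable {N l : ℕ} [NeZero l] {q : ℂ} {hl : l ≠ 0} {s : ℕ → ℂˣ} {D : Dl N l q}
  {C : Core (A N l q) (Fin (N + 1)) l} {K : ℕ}

/-! ### TZ -/

/-- every functional is `t(z ·)`. -/
theorem exists_form (h : Sett2 N l q hl s D C K) :
    ∃ (t : A N l q →ₗ[ℂ] ℂ) (e : A N l q ≃ₗ[ℂ] (A N l q →ₗ[ℂ] ℂ)),
      (∀ x y, t (x * y) = t (y * x)) ∧ (∀ x, (∀ y, t (x * y) = 0) → x = 0) ∧
      ∀ z x, e z x = t (z * x) := by
  have : FiniteDimensional ℂ (A N l q) := h.sett.fd
  obtain ⟨t, ht, hn, -⟩ := zTF N l q hl D h.sett.par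
  have hinj := Helper14.SQ.fT_inj hn
  have hsurj : Function.Surjective (Helper14.SQ.fT t) := by
    refine (LinearMap.injective_iff_surjective_of_finrank_eq_finrank ?_).1 hinj
    exact (Subspace.dual_finrank_eq (K := ℂ) (V := A N l q)).symm
  exact ⟨t, LinearEquiv.ofBijective (Helper14.SQ.fT t) ⟨hinj, hsurj⟩, ht, hn, fun z x => rfl⟩

theorem cen_of_tr {t : A N l q →ₗ[ℂ] ℂ} (ht : ∀ x y, t (x * y) = t (y * x))
    (hn : ∀ x, (∀ y, t (x * y) = 0) → x = 0) {z : A N l q}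
    (hz : ∀ x y, t (z * (x * y)) = t (z * (y * x))) (a : A N l q) : z * a = a * z := by
  rw [← sub_eq_zero]
  apply hn
  intro y
  rw [sub_mul, map_sub, sub_eq_zero, mul_assoc, hz, ← mul_assoc, ht, ← mul_assoc]

/-- **TZ**. -/
theorem tz (h : Sett2 N l q hl s D C K) :
    Module.finrank ℂ (Tinv C.toCore0)
      ≤ Module.finrank ℂ (Subalgebra.center ℂ (A N l q)) := by
  have : FiniteDimensional ℂ (A N l q) := h.sett.fd
  obtain ⟨t, e, ht, hn, he⟩ := exists_form h
  let L : Tinv C.toCore0 →ₗ[ℂ] Subalgebra.center ℂ (A N l q) :=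
    { toFun := fun τ => ⟨e.symm τ.1, Subalgebra.mem_center_iff.2 fun b =>
        (cen_of_tr ht hn (fun x y => by
          rw [← he, ← he, e.apply_symm_apply]
          exact τ.2.1 x y) b).symm⟩
      map_add' := fun a b => Subtype.ext (map_add e.symm a.1 b.1)
      map_smul' := fun c a => Subtype.ext (map_smul e.symm c a.1) }
  have hL : Function.Injective L := by
    intro a b hab
    apply Subtype.ext
    exact e.symm.injective (congrArg Subtype.val hab)
  exact LinearMap.finrank_le_finrank_of_injective hL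

/-- **TZ**, for the blocks. -/
theorem tz_blk (h : Sett2 N l q hl s D C K) (m : ZMod l → ℤ) :
    Module.finrank ℂ (Tm C m) ≤ Module.finrank ℂ (Zm C m) := by
  have : FiniteDimensional ℂ (A N l q) := h.sett.fd
  obtain ⟨t, e, ht, hn, he⟩ := exists_form h
  let L : Tm C m →ₗ[ℂ] Zm C m :=
    { toFun := fun τ => ⟨e.symm τ.1, by
        have h1 : ∀ y, t (e.symm τ.1 * y) = τ.1 y := fun y => by
          rw [← he, e.apply_symm_apply]
        refine ⟨fun b => cen_of_tr ht hn (fun x y => by rw [h1, h1]; exact τ.2.tr x y) b, ?_⟩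
        rw [← sub_eq_zero]
        apply hn
        intro y
        rw [sub_mul, map_sub, mul_assoc, C.e_cen, h1, h1, τ.2.blk, sub_self]⟩
      map_add' := fun a b => Subtype.ext (map_add e.symm a.1 b.1)
      map_smul' := fun c a => Subtype.ext (map_smul e.symm c a.1) }
  have hL : Function.Injective L := by
    intro a b hab
    apply Subtype.ext
    exact e.symm.injective (congrArg Subtype.val hab)
  exact LinearMap.finrank_le_finrank_of_injective hL

/-- **ZAU**. -/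
theorem zau (N l : ℕ) [NeZero l] (q : ℂ) (hP : Par N l q) (hco : Nat.Coprime (N + 1) l) :
    Module.finrank ℂ (Subalgebra.center ℂ (A N l q))
      ≤ l * Module.finrank ℂ (Subalgebra.center ℂ (Usl N l q)) :=
  zau_of Helper6.SQ.s_iota Helper49.SQ.s_pi N l q hP hco (zFDIM N l q hP)

theorem dim_T (h : Sett2 N l q hl s D C K) :
    Module.finrank ℂ (Tinv C.toCore0) = Module.finrank ℂ (Subalgebra.center ℂ (A N l q)) :=
  le_antisymm (tz h) (dims h).1

theorem dim_Tm (h : Sett2 N l q hl s D C K) (m : ZMod l → ℤ) :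
    Module.finrank ℂ (Tm C m) = Module.finrank ℂ (Zm C m) :=
  le_antisymm (tz_blk h m) ((dims h).2.1 m)

theorem dim_U (h : Sett2 N l q hl s D C K) (hco : Nat.Coprime (N + 1) l) :
    l * Module.finrank ℂ (Subalgebra.center ℂ (Usl N l q))
      = Module.finrank ℂ (Tinv C.toCore0) := by
  rw [dim_T h]
  exact le_antisymm (yZUL N l q h.sett.par hco h.sett.fd) (zau N l q h.sett.par hco)

/-! ### SPT -/

section spt

/-- the invariant traces which vanish on `S`. -/
def NN (C : Core (A N l q) (Fin (N + 1)) l) (S : Submodule ℂ (A N l q)) :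
    Submodule ℂ (A N l q →ₗ[ℂ] ℂ) where
  carrier := {τ | τ ∈ Tinv C.toCore0 ∧ ∀ x ∈ S, τ x = 0}
  add_mem' := by
    rintro a b ⟨ha, ha'⟩ ⟨hb, hb'⟩
    exact ⟨Submodule.add_mem _ ha hb, fun x hx => by
      rw [LinearMap.add_apply, ha' x hx, hb' x hx, add_zero]⟩
  zero_mem' := ⟨Submodule.zero_mem _, fun x _ => rfl⟩
  smul_mem' := by
    rintro c a ⟨ha, ha'⟩
    exact ⟨Submodule.smul_mem _ _ ha, fun x hx => by
      rw [LinearMap.smul_apply, ha' x hx, smul_zero]⟩

theorem mem_NN {S : Submodule ℂ (A N l q)} {τ : A N l q →ₗ[ℂ] ℂ} :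
    τ ∈ NN C S ↔ τ ∈ Tinv C.toCore0 ∧ ∀ x ∈ S, τ x = 0 := Iff.rfl

theorem MO_mul (z z' : A N l q) (τ : A N l q →ₗ[ℂ] ℂ) : MO (z * z') τ = MO z' (MO z τ) := by
  ext x
  rw [MO_apply, MO_apply, MO_apply, mul_assoc]

theorem MO_add (z z' : A N l q) (τ : A N l q →ₗ[ℂ] ℂ) : MO (z + z') τ = MO z τ + MO z' τ := by
  ext x
  rw [LinearMap.add_apply, MO_apply, MO_apply, MO_apply, add_mul, map_add]

theorem MO_smul (c : ℂ) (z : A N l q) (τ : A N l q →ₗ[ℂ] ℂ) : MO (c • z) τ = c • MO z τ := by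
  ext x
  rw [LinearMap.smul_apply, MO_apply, MO_apply, smul_mul_assoc, map_smul]

theorem MO_one (τ : A N l q →ₗ[ℂ] ℂ) : MO (1 : A N l q) τ = τ := by
  ext x
  rw [MO_apply, one_mul]

variable (hQ : CoreQ C.toCore0 q) {S : Submodule ℂ (A N l q)}

/-- the elements whose multiplications preserve `NN`. -/
def QQ (C : Core (A N l q) (Fin (N + 1)) l) (S : Submodule ℂ (A N l q)) :
    Subalgebra ℂ (A N l q) where
  carrier := {z | ∀ τ ∈ NN C S, MO z τ ∈ NN C S}
  mul_mem' := by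
    intro a b ha hb τ hτ
    rw [MO_mul]
    exact hb _ (ha _ hτ)
  add_mem' := by
    intro a b ha hb τ hτ
    rw [MO_add]
    exact Submodule.add_mem _ (ha _ hτ) (hb _ hτ)
  algebraMap_mem' := by
    intro t τ hτ
    rw [Algebra.algebraMap_eq_smul_one, MO_smul, MO_one]
    exact Submodule.smul_mem _ _ hτ

theorem mem_QQ {z : A N l q} : z ∈ QQ C S ↔ ∀ τ ∈ NN C S, MO z τ ∈ NN C S := Iff.rfl

theorem pair_X (R : Type) [AddCommGroup R] [Module ℂ R] (f : ℕ → R) :
    Pool.Agent.Helper41.SQ.pair (Polynomial.X : Polynomial ℂ) f = f 1 := by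
  rw [Pool.Agent.Helper41.SQ.pair, ← Polynomial.monomial_one_one_eq_X,
    Polynomial.sum_monomial_index]
  · rw [one_smul]
  · rw [zero_smul]

theorem Dq_X (q : ℂ) (hq : q ≠ 0) :
    Dq q Polynomial.X = Polynomial.C (-((q - q⁻¹) ^ 2)) * Polynomial.X := by
  have e : (-((q - q⁻¹) ^ 2) : ℂ) = 2 - q ^ 2 - q⁻¹ ^ 2 := by
    field_simp
    ring
  rw [Dq, Polynomial.X_comp, Polynomial.X_comp, e]
  simp only [Polynomial.C_sub]
  ring

include hQ in
/-- `pi_1` is a multiple of `c_1`. -/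
theorem pi_one : C.pi 1 = hQ.κ2 • cq C.toCore0 1 := by
  obtain ⟨-, -, -, -, -, -, -, -, -, -, hrel, -, -⟩ :=
    Helper57.SQ.t_core0 (A N l q) (Fin (N + 1)) C.toCore0
  have h1 : C.pi 1 = C.b 0 := by
    change piv C.b C.β (0 + 1) = C.b 0
    rw [piv, Finset.range_zero, Finset.sum_empty, sub_zero, Nat.cast_zero, zero_add, one_smul]
  have h2 := hrel 0
  rw [Finset.range_zero, Finset.sum_empty, add_zero] at h2
  rw [h1, h2, (yBETA (A N l q) (Fin (N + 1)) C.toCore0 q hQ).1 0]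

include hQ in
theorem pi_one_mem (hc1 : ∀ a ∈ S, cq C.toCore0 1 * a ∈ S) : C.pi 1 ∈ QQ C S := by
  obtain ⟨-, -, -, -, -, -, -, -, -, -, -, hcen, hφ⟩ :=
    Helper57.SQ.t_core0 (A N l q) (Fin (N + 1)) C.toCore0
  rw [mem_QQ]
  intro τ hτ
  refine ⟨(yOPT (A N l q) (Fin (N + 1)) C.toCore0).2.2 _ (hcen 1) (hφ 1) τ hτ.1, ?_⟩
  intro x hx
  rw [MO_apply, pi_one hQ, smul_mul_assoc, map_smul, hτ.2 _ (hc1 x hx), smul_zero]

include hQ in
theorem FO_mem (hq0 : q ≠ 0) (hw : q - q⁻¹ ≠ 0)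
    (hF : ∀ a ∈ S, Matrix.trace (C.δ a) ∈ S) (hc1 : ∀ a ∈ S, cq C.toCore0 1 * a ∈ S)
    (g : Polynomial ℂ) : ∀ τ ∈ NN C S, FO C.toCore0 g τ ∈ NN C S := by
  have h1 : ∀ τ ∈ NN C S, FO C.toCore0 1 τ ∈ NN C S := by
    intro τ hτ
    refine ⟨(yOPT (A N l q) (Fin (N + 1)) C.toCore0).1 _ τ hτ.1, ?_⟩
    intro x hx
    have e : pev (1 : Polynomial ℂ) C.X = 1 := map_one _
    rw [FO_apply, e, mul_one]
    exact hτ.2 _ (hF x hx)
  have hX : ∀ g : Polynomial ℂ, (∀ τ ∈ NN C S, FO C.toCore0 g τ ∈ NN C S) →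
      ∀ τ ∈ NN C S, FO C.toCore0 (Polynomial.X * g) τ ∈ NN C S := by
    intro g hg τ hτ
    have hpi := mem_QQ.1 (pi_one_mem hQ hc1)
    have h2 := (yOPPF (A N l q) (Fin (N + 1)) C.toCore0 q hQ τ Polynomial.X g).1
    rw [pair_X, Dq_X q hq0] at h2
    have h3 : FO C.toCore0 (Polynomial.C (-((q - q⁻¹) ^ 2)) * Polynomial.X * g) τ
        ∈ NN C S := by
      rw [← h2]
      exact Submodule.sub_mem _ (hpi _ (hg τ hτ)) (hg _ (hpi τ hτ))
    have h4 : Polynomial.C (-((q - q⁻¹) ^ 2)) * Polynomial.X * g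
        = (-((q - q⁻¹) ^ 2)) • (Polynomial.X * g) := by
      rw [Polynomial.smul_eq_C_mul, mul_assoc]
    rw [h4, Helper80.SQ.FO_smul'] at h3
    have h5 := Submodule.smul_mem _ (-((q - q⁻¹) ^ 2))⁻¹ h3
    rwa [smul_smul, inv_mul_cancel₀ (neg_ne_zero.2 (pow_ne_zero 2 hw)), one_smul] at h5
  have hpow : ∀ k : ℕ, ∀ τ ∈ NN C S, FO C.toCore0 (Polynomial.X ^ k) τ ∈ NN C S := by
    intro k
    induction k with
    | zero => rw [pow_zero]; exact h1
    | succ k ih =>
      rw [pow_succ']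
      exact hX _ ih
  intro τ hτ
  induction g using Polynomial.induction_on' with
  | add p r hp hr =>
    rw [Helper80.SQ.FO_add']
    exact Submodule.add_mem _ hp hr
  | monomial n a =>
    rw [← Polynomial.smul_X_eq_monomial, Helper80.SQ.FO_smul']
    exact Submodule.smul_mem _ _ (hpow n τ hτ)

include hQ in
theorem EO_mem (hq0 : q ≠ 0) (hw : q - q⁻¹ ≠ 0)
    (hE : ∀ a ∈ S, Matrix.trace (C.ε a) ∈ S) (hc1 : ∀ a ∈ S, cq C.toCore0 1 * a ∈ S)
    (g : Polynomial ℂ) : ∀ τ ∈ NN C S, EO C.toCore0 g τ ∈ NN C S := by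
  obtain ⟨hdp, _, _, _⟩ := yDP2 (A N l q) (Fin (N + 1)) C.toCore0
  obtain ⟨hd1, hd2, hd3, _⟩ := yDPV (A N l q) (Fin (N + 1)) C.δ C.ε hdp
  have h1 : ∀ τ ∈ NN C S, EO C.toCore0 1 τ ∈ NN C S := by
    intro τ hτ
    refine ⟨(yOPT (A N l q) (Fin (N + 1)) C.toCore0).2.1 _ τ hτ.1, ?_⟩
    intro x hx
    have e : pev (1 : Polynomial ℂ) C.X = 1 := map_one _
    rw [EO_apply, e, hd3, mul_one]
    exact hτ.2 _ (hE x hx)
  have hX : ∀ g : Polynomial ℂ, (∀ τ ∈ NN C S, EO C.toCore0 g τ ∈ NN C S) →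
      ∀ τ ∈ NN C S, EO C.toCore0 (Polynomial.X * g) τ ∈ NN C S := by
    intro g hg τ hτ
    have hpi := mem_QQ.1 (pi_one_mem hQ hc1)
    have h2 := (yOPPF (A N l q) (Fin (N + 1)) C.toCore0 q hQ τ Polynomial.X g).2
    rw [pair_X, Dq_X q hq0] at h2
    have h3 : EO C.toCore0 (Polynomial.C (-((q - q⁻¹) ^ 2)) * Polynomial.X * g) τ
        ∈ NN C S := by
      rw [← h2]
      exact Submodule.sub_mem _ (hg _ (hpi τ hτ)) (hpi _ (hg τ hτ))
    have h4 : Polynomial.C (-((q - q⁻¹) ^ 2)) * Polynomial.X * g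
        = (-((q - q⁻¹) ^ 2)) • (Polynomial.X * g) := by
      rw [Polynomial.smul_eq_C_mul, mul_assoc]
    rw [h4, Helper80.SQ.EO_smul'] at h3
    have h5 := Submodule.smul_mem _ (-((q - q⁻¹) ^ 2))⁻¹ h3
    rwa [smul_smul, inv_mul_cancel₀ (neg_ne_zero.2 (pow_ne_zero 2 hw)), one_smul] at h5
  have hpow : ∀ k : ℕ, ∀ τ ∈ NN C S, EO C.toCore0 (Polynomial.X ^ k) τ ∈ NN C S := by
    intro k
    induction k with
    | zero => rw [pow_zero]; exact h1
    | succ k ih =>
      rw [pow_succ']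
      exact hX _ ih
  intro τ hτ
  induction g using Polynomial.induction_on' with
  | add p r hp hr =>
    rw [Helper80.SQ.EO_add']
    exact Submodule.add_mem _ hp hr
  | monomial n a =>
    rw [← Polynomial.smul_X_eq_monomial, Helper80.SQ.EO_smul']
    exact Submodule.smul_mem _ _ (hpow n τ hτ)

include hQ in
theorem pair_mem (hq0 : q ≠ 0) (hw : q - q⁻¹ ≠ 0)
    (hF : ∀ a ∈ S, Matrix.trace (C.δ a) ∈ S)
    (hE : ∀ a ∈ S, Matrix.trace (C.ε a) ∈ S) (hc1 : ∀ a ∈ S, cq C.toCore0 1 * a ∈ S)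
    (g : Polynomial ℂ) : Pool.Agent.Helper41.SQ.pair g C.pi ∈ QQ C S := by
  rw [mem_QQ]
  intro τ hτ
  have h1 := yOPEF (A N l q) (Fin (N + 1)) C.toCore0 τ hτ.1.1 g
  have h2 : MO (Pool.Agent.Helper41.SQ.pair g C.pi) τ
      = -(EO C.toCore0 1 (FO C.toCore0 g τ) - FO C.toCore0 g (EO C.toCore0 1 τ)) := by
    rw [h1, neg_neg]
  rw [h2]
  refine Submodule.neg_mem _ (Submodule.sub_mem _ ?_ ?_)
  · exact EO_mem hQ hq0 hw hE hc1 1 _ (FO_mem hQ hq0 hw hF hc1 g τ hτ)
  · exact FO_mem hQ hq0 hw hF hc1 g _ (EO_mem hQ hq0 hw hE hc1 1 τ hτ)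

/-- two different types differ in some `m(c+1) - m(c)`. -/
theorem types_sep {m m' : ZMod l → ℤ} (hm : ∑ c, m c = ∑ c, m' c)
    (h : ∀ c, m (c + 1) - m c = m' (c + 1) - m' c) : m = m' := by
  have h1 : ∀ c : ZMod l, m c - m' c = m 0 - m' 0 := by
    have h2 : ∀ k : ℕ, m (k : ZMod l) - m' (k : ZMod l) = m 0 - m' 0 := by
      intro k
      induction k with
      | zero => rw [Nat.cast_zero]
      | succ k ih =>
        rw [← ih]
        have h3 := h (k : ZMod l)
        push_cast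
        linarith
    intro c
    have h4 := h2 c.val
    rwa [ZMod.natCast_zmod_val] at h4
  have h5 : ∑ c : ZMod l, (m c - m' c) = 0 := by
    rw [Finset.sum_sub_distrib, hm, sub_self]
  rw [Finset.sum_congr rfl fun c _ => h1 c, Finset.sum_const, Finset.card_univ, ZMod.card,
    nsmul_eq_mul] at h5
  have h6 : m 0 - m' 0 = 0 := by
    rcases mul_eq_zero.1 h5 with h7 | h7
    · exact absurd (by exact_mod_cast h7) (NeZero.ne l)
    · exact h7
  funext c
  have h8 := h1 c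
  rw [h6] at h8
  linarith

theorem pair_e (c : ZMod l) (m : ZMod l → ℤ) :
    Pool.Agent.Helper41.SQ.pair (C.pc c) C.pi * C.e m
      = ((m (c + 1) - m c : ℤ) : ℂ) • C.e m := by
  have h2 := C.DL c m
  rw [← h2]
  congr 1
  rw [Pool.Agent.Helper41.SQ.pair, Polynomial.sum_over_range]
  intro k
  rw [zero_smul]

/-- the idempotents are polynomials in the `pi`. -/
theorem e_mem (h : Sett2 N l q hl s D C K)
    (hp : ∀ c, Pool.Agent.Helper41.SQ.pair (C.pc c) C.pi ∈ QQ C S) (m : ZMod l → ℤ) :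
    C.e m ∈ QQ C S := by
  classical
  by_cases hm : m ∈ C.types
  · have key : ∀ T : Finset (ZMod l → ℤ), T ⊆ C.types → m ∉ T →
        ∃ z ∈ QQ C S, z * C.e m = C.e m ∧ ∀ m' ∈ T, z * C.e m' = 0 := by
      intro T
      induction T using Finset.induction_on with
      | empty =>
        intro _ _
        exact ⟨1, Subalgebra.one_mem _, one_mul _, fun m' h' => absurd h' (Finset.notMem_empty _)⟩
      | insert m' T hm' ih =>
        intro hT hmT
        rw [Finset.mem_insert, not_or] at hmT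
        obtain ⟨z, hz, hz1, hz2⟩ := ih (fun x hx => hT (Finset.mem_insert_of_mem hx)) hmT.2
        have hm't : m' ∈ C.types := hT (Finset.mem_insert_self _ _)
        obtain ⟨c, hc⟩ : ∃ c, m (c + 1) - m c ≠ m' (c + 1) - m' c := by
          by_contra hcon
          push Not at hcon
          apply hmT.1
          exact types_sep (by rw [(isTy_of_mem h hm).2, (isTy_of_mem h hm't).2]) hcon
        have hne : ((m (c + 1) - m c : ℤ) : ℂ) - ((m' (c + 1) - m' c : ℤ) : ℂ) ≠ 0 := by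
          rw [sub_ne_zero]
          exact fun h' => hc (Int.cast_injective h')
        let w : A N l q := (((m (c + 1) - m c : ℤ) : ℂ) - ((m' (c + 1) - m' c : ℤ) : ℂ))⁻¹ •
          (Pool.Agent.Helper41.SQ.pair (C.pc c) C.pi
            - algebraMap ℂ (A N l q) ((m' (c + 1) - m' c : ℤ) : ℂ))
        have hw : w ∈ QQ C S := Subalgebra.smul_mem _ (Subalgebra.sub_mem _ (hp c)
          (Subalgebra.algebraMap_mem _ _)) _
        have hwe : ∀ m'' : ZMod l → ℤ, w * C.e m''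
            = ((((m (c + 1) - m c : ℤ) : ℂ) - ((m' (c + 1) - m' c : ℤ) : ℂ))⁻¹ *
              (((m'' (c + 1) - m'' c : ℤ) : ℂ) - ((m' (c + 1) - m' c : ℤ) : ℂ))) • C.e m'' := by
          intro m''
          rw [smul_mul_assoc, sub_mul, pair_e, ← Algebra.smul_def, ← sub_smul, smul_smul]
        refine ⟨z * w, Subalgebra.mul_mem _ hz hw, ?_, ?_⟩
        · rw [mul_assoc, hwe, inv_mul_cancel₀ hne, one_smul, hz1]
        · intro m'' hm''
          rw [mul_assoc, hwe, mul_smul_comm]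
          rcases Finset.mem_insert.1 hm'' with h' | h'
          · rw [h', sub_self, mul_zero, zero_smul]
          · rw [hz2 m'' h', smul_zero]
    obtain ⟨z, hz, hz1, hz2⟩ := key (C.types.erase m) (Finset.erase_subset _ _)
      (Finset.notMem_erase _ _)
    have e1 : z = C.e m := by
      calc z = z * ∑ m' ∈ C.types, C.e m' := by rw [C.e_sum, mul_one]
        _ = ∑ m' ∈ C.types, z * C.e m' := Finset.mul_sum _ _ _
        _ = z * C.e m := by
            refine Finset.sum_eq_single m (fun m' hm' hne => ?_) (fun h' => absurd hm h')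
            exact hz2 m' (Finset.mem_erase.2 ⟨hne, hm'⟩)
        _ = C.e m := hz1
    rw [← e1]; exact hz
  · rw [C.e_types m hm]; exact Subalgebra.zero_mem _

/-- `ch_{n δ_c}(1) ≠ 0`. -/
theorem chm_one_ne (hP : Par N l q) (hfd : FiniteDimensional ℂ (A N l q))
    (hD : Dl N l q) (c : ZMod l) :
    chm N l q (fun x => if x = c then ((N : ℤ) + 1) else 0) 1 ≠ 0 := by
  have hZfd : ∀ lam : Fin (N + 1) → ZMod l, FiniteDimensional ℂ (Zl (N := N) q lam) :=
    fun lam => (Helper35.SQ.s_zuniv N l q hP hfd lam).1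
  intro h7
  rw [Helper48.SQ.chm_apply] at h7
  have h8 : ∀ lam : Fin (N + 1) → ZMod l,
      (if Pool.Agent.Helper19.SQ.ty lam = (fun x => if x = c then ((N : ℤ) + 1) else 0)
        then Helper48.SQ.ch1 N l q lam 1 else 0)
      = (((if Pool.Agent.Helper19.SQ.ty lam = (fun x => if x = c then ((N : ℤ) + 1) else 0)
        then dZ (N := N) q lam else 0 : ℕ)) : ℂ) := by
    intro lam
    have := hZfd lam
    split
    · exact chi_one (Zl q lam)
    · simp
  rw [Finset.sum_congr rfl fun lam _ => h8 lam, ← Nat.cast_sum, Nat.cast_eq_zero,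
    Finset.sum_eq_zero_iff] at h7
  have h9 := h7 (fun j : Fin (N + 1) => c + ((j : ℕ) : ZMod l)) (Finset.mem_univ _)
  rw [if_pos (Helper48.SQ.ty_st c)] at h9
  exact absurd h9 ((zHARM N l q hD hP).2 _).ne'

/-- **SPT**: a subspace which contains `1`, is stable under the closures and the
multiplication by `c_1` is detected by no trace. -/
theorem spt (h : Sett2 N l q hl s D C K) (S : Submodule ℂ (A N l q)) (h1 : (1 : A N l q) ∈ S)
    (hF : ∀ a ∈ S, Matrix.trace (D.dl a) ∈ S) (hE : ∀ a ∈ S, Matrix.trace (D.ep a) ∈ S)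
    (hc1 : ∀ a ∈ S, cq C.toCore0 1 * a ∈ S) (τ : A N l q →ₗ[ℂ] ℂ)
    (hτ : ∀ x y, τ (x * y) = τ (y * x)) (hS : ∀ a ∈ S, τ a = 0) : τ = 0 := by
  obtain ⟨hQ⟩ := h.cq
  have hF' : ∀ a ∈ S, Matrix.trace (C.δ a) ∈ S := by
    rw [h.sett.c0.δ]; exact hF
  have hE' : ∀ a ∈ S, Matrix.trace (C.ε a) ∈ S := by
    rw [h.sett.c0.ε]; exact hE
  have hq0 : q ≠ 0 := hQ.q_ne
  have hw : q - q⁻¹ ≠ 0 := by
    rw [sub_ne_zero]
    intro h'
    have h2 : q ^ 2 = 1 := by
      rw [pow_two]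
      nth_rewrite 2 [h']
      exact mul_inv_cancel₀ hq0
    have h3 := h.sett.par.prim.dvd_of_pow_eq_one 2 h2
    have h4 := h.sett.par.h3
    exact absurd (Nat.le_of_dvd (by norm_num) h3) (by omega)
  have hem : ∀ m, C.e m ∈ QQ C S := e_mem h fun c => pair_mem hQ hq0 hw hF' hE' hc1 _
  have hτN : τ ∈ NN C S := ⟨all_inv h τ hτ, hS⟩
  have key := yCOG N l q hl s D C h.sett hQ (fun m => NN C S ⊓ Tm C m) ?_ ?_ ?_ ?_
  · have h2 : ∀ m, tpr C m τ = 0 := by
      intro m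
      have h3 : tpr C m τ ∈ NN C S ⊓ Tm C m := by
        refine ⟨?_, tpr_trz hτN.1⟩
        have h4 := mem_QQ.1 (hem m) τ hτN
        have h5 : MO (C.e m) τ = tpr C m τ := by
          ext x
          rw [MO_apply, C.e_cen]
          rfl
        rwa [h5] at h4
      have h6 := key m
      rw [h6] at h3
      exact (Submodule.mem_bot ℂ).1 h3
    rw [← sum_tpr (C := C) τ]
    exact Finset.sum_eq_zero fun m _ => h2 m
  · intro m σ hσ
    exact hσ.2
  · intro m c r σ hσ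
    exact ⟨FO_mem hQ hq0 hw hF' hc1 _ σ hσ.1, Fcr_trz hσ.2⟩
  · intro m c r σ hσ
    exact ⟨EO_mem hQ hq0 hw hE' hc1 _ σ hσ.1, Ecr_trz hσ.2⟩
  · intro c
    rw [eq_bot_iff]
    rintro σ ⟨hσ1, hσ2⟩
    rw [Submodule.mem_bot]
    have hch := (yCHM N l q hl s D C h.sett K h.nil h.pc1 h.pc2).2.2.2.2
      (fun x => if x = c then ((N : ℤ) + 1) else 0)
    have hch0 := (yCHM N l q hl s D C h.sett K h.nil h.pc1 h.pc2).2.2.2.1 c
    have hst : ∃ t : ℂ, σ = t • chm N l q (fun x => if x = c then ((N : ℤ) + 1) else 0) := by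
      refine yST1 N l q hl h.sett.par s c
        (C.e (fun x => if x = c then ((N : ℤ) + 1) else 0)) (C.e_cen _)
        (C.e_idem _) ?_ _ _ hch.tr hσ2.tr hch.blk hσ2.blk hch0
      intro M _ _ _ _ _ lam v hv
      have hev := h.sett.ev M lam (fun x => if x = c then ((N : ℤ) + 1) else 0) v hv
      constructor
      · intro h'
        rw [hev, if_pos]
        exact (ty_eq_iff c lam).2 h'
      · intro h'
        rw [hev, if_neg]
        exact fun h'' => h' ((ty_eq_iff c lam).1 h'')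
    obtain ⟨t, ht⟩ := hst
    have h2 := hσ1.2 1 h1
    rw [ht, LinearMap.smul_apply, smul_eq_mul] at h2
    rcases mul_eq_zero.1 h2 with h3 | h3
    · rw [ht, h3, zero_smul]
    · exact absurd h3 (chm_one_ne h.sett.par h.sett.fd D c)

end spt

end

end Pool.Agent.Helper4.SQ
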