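import Pool.Agent.Helper4.SQ.GoalsR
import Pool.Agent.Helper34.SQ.Fam
import Pool.Agent.Helper41.SQ.GoalsN
import Pool.Agent.Helper19.SQ.GoalsS

/-!
Project SQ (MP_bb32d1_al), stage B, part Q (captain helper4), second part: the operators
`F[g]`, `E[g]` and the multiplications on the space of invariant traces.

Every goal is a `def S_XX : Prop` with its complete proof in the doc-string.
-/

set_option autoImplicit false
set_option linter.unusedSectionVars false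

namespace Pool.Agent.Helper4.SQ

noncomputable section

open Matrix Pool.Agent.Helper19.SQ Pool.Agent.Helper34.SQ Pool.Agent.Helper41.SQ

section ops

variable {A : Type} [Ring A] [Algebra ℂ A] {ι : Type} [Fintype ι] [DecidableEq ι]

/-- `x ↦ tr (δ(x) g(X))`. -/
def fo (C : Core0 A ι) (g : Polynomial ℂ) : A →ₗ[ℂ] A :=
  Matrix.traceLinearMap ι ℂ A ∘ₗ LinearMap.mulRight ℂ (pev g C.X) ∘ₗ C.δ.toLinearMap

/-- `x ↦ tr (ε(x) g(X)^v)`. -/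
def eo (C : Core0 A ι) (g : Polynomial ℂ) : A →ₗ[ℂ] A :=
  Matrix.traceLinearMap ι ℂ A ∘ₗ LinearMap.mulRight ℂ (vv C.ε (pev g C.X)) ∘ₗ C.ε.toLinearMap

/-- the operator `F[g]`. -/
def FO (C : Core0 A ι) (g : Polynomial ℂ) : (A →ₗ[ℂ] ℂ) →ₗ[ℂ] (A →ₗ[ℂ] ℂ) :=
  LinearMap.lcomp ℂ ℂ (fo C g)

/-- the operator `E[g]`. -/
def EO (C : Core0 A ι) (g : Polynomial ℂ) : (A →ₗ[ℂ] ℂ) →ₗ[ℂ] (A →ₗ[ℂ] ℂ) :=
  LinearMap.lcomp ℂ ℂ (eo C g)

/-- multiplication by `z`. -/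
def MO (z : A) : (A →ₗ[ℂ] ℂ) →ₗ[ℂ] (A →ₗ[ℂ] ℂ) :=
  LinearMap.lcomp ℂ ℂ (LinearMap.mulLeft ℂ z)

theorem FO_apply (C : Core0 A ι) (g : Polynomial ℂ) (τ : A →ₗ[ℂ] ℂ) (x : A) :
    FO C g τ x = τ (Matrix.trace (C.δ x * pev g C.X)) := rfl

theorem EO_apply (C : Core0 A ι) (g : Polynomial ℂ) (τ : A →ₗ[ℂ] ℂ) (x : A) :
    EO C g τ x = τ (Matrix.trace (C.ε x * vv C.ε (pev g C.X))) := rfl

theorem MO_apply (z : A) (τ : A →ₗ[ℂ] ℂ) (x : A) : MO z τ x = τ (z * x) := rfl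

/-- the space of invariant traces. -/
def Tinv (C : Core0 A ι) : Submodule ℂ (A →ₗ[ℂ] ℂ) where
  carrier := {τ | (∀ x y, τ (x * y) = τ (y * x)) ∧ ∀ x, τ (C.φ x) = τ x}
  add_mem' := by
    rintro a b ⟨ha, ha'⟩ ⟨hb, hb'⟩
    exact ⟨fun x y => by rw [LinearMap.add_apply, LinearMap.add_apply, ha, hb],
      fun x => by rw [LinearMap.add_apply, LinearMap.add_apply, ha', hb']⟩
  zero_mem' := ⟨fun x y => rfl, fun x => rfl⟩
  smul_mem' := by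
    rintro c a ⟨ha, ha'⟩
    exact ⟨fun x y => by rw [LinearMap.smul_apply, LinearMap.smul_apply, ha],
      fun x => by rw [LinearMap.smul_apply, LinearMap.smul_apply, ha']⟩

theorem mem_Tinv {C : Core0 A ι} {τ : A →ₗ[ℂ] ℂ} :
    τ ∈ Tinv C ↔ (∀ x y, τ (x * y) = τ (y * x)) ∧ ∀ x, τ (C.φ x) = τ x := Iff.rfl

/-- the invariant traces of the block `m`. -/
def Tm {l : ℕ} (C : Core A ι l) (m : ZMod l → ℤ) : Submodule ℂ (A →ₗ[ℂ] ℂ) where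
  carrier := {τ | IsTrz C 1 m τ}
  add_mem' := by
    intro a b ha hb
    exact ⟨fun x y => by rw [LinearMap.add_apply, LinearMap.add_apply, ha.tr, hb.tr],
      fun x => by rw [LinearMap.add_apply, LinearMap.add_apply, ha.eq, hb.eq]; ring,
      fun x => by rw [LinearMap.add_apply, LinearMap.add_apply, ha.blk, hb.blk]⟩
  zero_mem' := ⟨fun x y => rfl, fun x => by simp, fun x => rfl⟩
  smul_mem' := by
    intro c a ha
    exact ⟨fun x y => by rw [LinearMap.smul_apply, LinearMap.smul_apply, ha.tr],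
      fun x => by
        rw [LinearMap.smul_apply, LinearMap.smul_apply, ha.eq, smul_eq_mul, smul_eq_mul]; ring,
      fun x => by rw [LinearMap.smul_apply, LinearMap.smul_apply, ha.blk]⟩

theorem mem_Tm {l : ℕ} {C : Core A ι l} {m : ZMod l → ℤ} {τ : A →ₗ[ℂ] ℂ} :
    τ ∈ Tm C m ↔ IsTrz C 1 m τ := Iff.rfl

/-- the center of the block `m`. -/
def Zm {l : ℕ} (C : Core A ι l) (m : ZMod l → ℤ) : Submodule ℂ A where
  carrier := {z | (∀ a, z * a = a * z) ∧ z * C.e m = z}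
  add_mem' := by
    rintro a b ⟨ha, ha'⟩ ⟨hb, hb'⟩
    exact ⟨fun x => by rw [add_mul, mul_add, ha, hb], by rw [add_mul, ha', hb']⟩
  zero_mem' := ⟨fun x => by rw [zero_mul, mul_zero], by rw [zero_mul]⟩
  smul_mem' := by
    rintro c a ⟨ha, ha'⟩
    exact ⟨fun x => by rw [smul_mul_assoc, mul_smul_comm, ha], by rw [smul_mul_assoc, ha']⟩

theorem mem_Zm {l : ℕ} {C : Core A ι l} {m : ZMod l → ℤ} {z : A} :
    z ∈ Zm C m ↔ (∀ a, z * a = a * z) ∧ z * C.e m = z := Iff.rfl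

/-- `-(f(q² X) + f(q⁻² X) - 2 f(X))`. -/
def Dq (q : ℂ) (f : Polynomial ℂ) : Polynomial ℂ :=
  Polynomial.C 2 * f - f.comp (Polynomial.C (q ^ 2) * Polynomial.X)
    - f.comp (Polynomial.C (q⁻¹ ^ 2) * Polynomial.X)

end ops

/-- **OPT** (packet OPT).  The operators preserve the invariant traces.  Hypotheses allowed: S_DPV,
S_DP2 (of helper41, `Pool/Agent/Helper41/SQ/GoalsN.lean`).
PROOF.  `g(X)` commutes with `δ(A)` (`Xδ`, `pev_comm`), so `vv ε (g(X))` commutes with `ε(A)` (DPV (1) for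
the dual pair `(δ, ε)`, DP2 (1)).
Trace: `F[g]τ(xy) = τ(tr(δ(x) δ(y) g(X))) = τ(tr(δ(y) g(X) δ(x)))` (`trace_comm_of_tr`)
`= τ(tr(δ(y) δ(x) g(X)))`; the same for `E[g]`.
Invariance: `φ((X^k)_ij) = θ_i⁻¹ θ_j (X^k)_ij` (induction from `φX`), so the same for `g(X)`;
`δ(φ x)_ij = θ_i θ_j⁻¹ φ(δ(x)_ij)`; so `δ(φ x)_ij g(X)_ji = φ(δ(x)_ij g(X)_ji)`.  For `E`: with `Z = g(X)`,
`ε(φ(Z_pj))_pi = θ_p⁻¹ θ_i φ(ε(Z_pj)_pi)` (`φε`) and `φ(Z_pj) = θ_p⁻¹ θ_j Z_pj`, so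
`φ(ε(Z_pj)_pi) = θ_i⁻¹ θ_j ε(Z_pj)_pi`, i.e. `φ((vv ε Z)_ji) = θ_i⁻¹ θ_j (vv ε Z)_ji`, and
`ε(φ x)_ij = θ_i⁻¹ θ_j φ(ε(x)_ij)`, so `ε(φ x)_ij (vv ε Z)_ji = φ(ε(x)_ij (vv ε Z)_ji)`.
(3) clear. -/
def S_OPT : Prop := ∀ (A : Type) [Ring A] [Algebra ℂ A] (ι : Type) [Fintype ι] [DecidableEq ι]
  (C : Core0 A ι),
    (∀ g, ∀ τ ∈ Tinv C, FO C g τ ∈ Tinv C) ∧ (∀ g, ∀ τ ∈ Tinv C, EO C g τ ∈ Tinv C) ∧
    ∀ z, (∀ a, z * a = a * z) → C.φ z = z → ∀ τ ∈ Tinv C, MO z τ ∈ Tinv C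

/-- **OPEF** (packet OPEF): `[E[1], F[g]] = - pi_g`.  Hypotheses allowed: S_CORE0, S_CORE1, S_TR (of
helper34), S_DPV, S_DP2.  Model: `S_EFFE` (`Pool/Agent/*/SQ`, grep EFFE).
PROOF.  `vv ε 1 = 1` (DPV (3)).  `E[1] F[g] τ (x) = (F[g] τ)(tr ε(x)) = ∑_j τ(tr(δ(ε(x)_jj) g(X))) =
τ(tr(D1(x) X1(g(X))))` (trace over `ι × ι`), `X1 (g(X)) = pev g (X1 X)` (`pev_X1`).
`F[g] E[1] τ (x) = (E[1] τ)(tr(δ(x) g(X))) = ∑_p τ(tr ε((δ(x) g(X))_pp)) = τ(tr(Phi ε (δ(x) g(X)))) =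
τ(tr(D2(x) pev g X2))` (`D2_eq`, `pev_X2`).
By linearity let `g = X^k`.  `D1(x) = T D2(x) S` (`inter`, `TS`), so
`τ(tr(D1(x) X1^k)) = τ(tr(T D2(x) S X1^k)) = τ(tr(D2(x) (S X1^k T))) = τ(tr(D2(x) X1p^k))`
(`trace_comm_of_tr`; `(S X1 T)^k = S X1^k T`, CORE0 (5)).  TR with `Y = X2`, `Y' = X1p`, `D = D2(x)` (`uD`;
`D2(x)` commutes with `X2` and `X1p`): `τ(tr(X2^k D2(x))) - τ(tr(X1p^k D2(x))) = τ(π_k x)`. -/
def S_OPEF : Prop := ∀ (A : Type) [Ring A] [Algebra ℂ A] (ι : Type) [Fintype ι] [DecidableEq ι]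
  (C : Core0 A ι) (τ : A →ₗ[ℂ] ℂ), (∀ x y, τ (x * y) = τ (y * x)) → ∀ g : Polynomial ℂ,
    EO C 1 (FO C g τ) - FO C g (EO C 1 τ) = - MO (pair g C.pi) τ

/-- **OPPF** (packet OPPF): the relations of the `pi_k` with `F[g]`, `E[g]`.  Hypotheses allowed:
S_DPI, S_CORE0, S_DPV, S_DP2.
PROOF.  `Dq q (X^k) = -(q^k - q⁻ᵏ)² X^k` (`2 - q^{2k} - q^{-2k}`), so by DPI and linearity
`δ(π_f) = diagonal π_f + pev (Dq q f) X`, `ε(π_f) = diagonal π_f - vv ε (pev (Dq q f) X)`,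
`π_f = pair f C.pi`, a central element (CORE0).
(1) `(π_f F[g] τ)(x) = F[g] τ (π_f x) = τ(tr(δ(π_f) δ(x) g(X))) = τ(π_f tr(δ(x) g(X))) +
τ(tr((Dq f)(X) δ(x) g(X)))`, the first is `F[g](π_f τ)(x)`, the second `F[(Dq f) g] τ(x)`, as polynomials
in `X` commute with `δ(x)`.
(2) the same with `ε`: `vv ε` of a product of two polynomials in `X` is the product (DPV (2)) and
`vv ε (g(X))` commutes with `ε(x)` (DPV (1)). -/
def S_OPPF : Prop := ∀ (A : Type) [Ring A] [Algebra ℂ A] (ι : Type) [Fintype ι] [DecidableEq ι]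
  (C : Core0 A ι) (q : ℂ), CoreQ C q → ∀ (τ : A →ₗ[ℂ] ℂ) (f g : Polynomial ℂ),
    (MO (pair f C.pi) (FO C g τ) - FO C g (MO (pair f C.pi) τ) = FO C (Dq q f * g) τ) ∧
    (EO C g (MO (pair f C.pi) τ) - MO (pair f C.pi) (EO C g τ) = EO C (Dq q f * g) τ)

/-- **OPG** (packet OPG): `[E[f], F[g]] = - pi_{fg}` for all `f`, `g`.  Hypotheses allowed: S_OPT,
S_OPEF, S_OPPF, S_CORE0.
PROOF.  `Z(f,g) τ = E[f] F[g] τ - F[g] E[f] τ + π_{fg} τ` for `τ ∈ Tinv C`; it is linear in `f` and in `g`,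
`Z(1,g) = 0` (OPEF).  The `π_h` are central and `φ`-fixed (CORE0), so all operators preserve
`Tinv C` (OPT), and the `π_h` commute.  Let `D = Dq q h`.  By OPPF on `Tinv C`
`[E[f], π_h] = E[D f]`, `[π_h, F[g]] = F[D g]`, so (Jacobi)
`[E[D f], F[g]] = [[E[f], π_h], F[g]] = [E[f], [π_h, F[g]]] - [π_h, [E[f], F[g]]] =
(Z(f, D g) - π_{f D g}) - [π_h, Z(f,g)]`, i.e. `Z(D f, g) = Z(f, D g) - [π_h, Z(f,g)]`.
Hence the set `J` of all `f` with `Z(f, g) = 0` for all `g` is a subspace that contains `1` and is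
stable under multiplication by `Dq q h`, in particular (`h = X^k`) by `(q^k - q⁻ᵏ)² X^k`, and
`(q^k - q⁻ᵏ)² ≠ 0` if `l` does not divide `k` (`q^{2k} = 1` iff `l ∣ 2k` iff `l ∣ k`, `l` odd).  So
`X^k ∈ J` for `l ∤ k`, and for `l ∣ k`, `k > 0`: `X^k = X · X^{k-1}` with `l ∤ k - 1`, `l ∤ 1`
(`l ≥ 3`).  So `J` is everything (`Polynomial.induction_on'`). -/
def S_OPG : Prop := ∀ (A : Type) [Ring A] [Algebra ℂ A] (ι : Type) [Fintype ι] [DecidableEq ι]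
  (C : Core0 A ι) (l : ℕ) (q : ℂ), CoreQ C q → IsPrimitiveRoot q l → Odd l → 3 ≤ l →
  ∀ τ ∈ Tinv C, ∀ f g : Polynomial ℂ,
    EO C f (FO C g τ) - FO C g (EO C f τ) = - MO (pair (f * g) C.pi) τ

/-- **BLE** (packet BLE): the analogue of `BL1` for `ε`.  Hypotheses allowed: S_DPV, S_DP2.
PROOF.  (a) `vv ε (Z * diagonal a) = vv ε Z * ε(a)`: `∑_P ε(Z_PK a)_PI = ∑_(P,J) ε(Z_PK)_PJ ε(a)_JI`.
(b) `vv ε (δ(b) * diagonal a) = diagonal b * ε(a)`: `∑_P ε(δ(b)_PK a)_PI = ∑_(P,J) ε(δ(b)_PK)_PJ ε(a)_JI`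
and `∑_P ε(δ(b)_PK)_PJ = [J = K] b` (`cap0`).
Apply `vv ε` to `BL1 c m'`, for all `m' ∈ types`: `vv ε (p_c(X)) ε(e_m') = diagonal (e_(m'-α)) ε(e_m')`.
Multiply by `diagonal e_m` (commutes with everything) and sum over `m' ∈ types` (`e_sum`, so
`∑ ε(e_m') = 1`): `vv ε (p_c(X)) diagonal(e_m) = ∑_m' diagonal (e_(m'-α) e_m) ε(e_m')`, and
`e_(m'-α) e_m = [m' = m + α] e_m` (`e_orth`, `e_idem`); if `m + α ∉ types` then `e (m + α) = 0` and the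
sum is `0` as well. -/
def S_BLE : Prop := ∀ (A : Type) [Ring A] [Algebra ℂ A] (ι : Type) [Fintype ι] [DecidableEq ι]
  (l : ℕ) (C : Core A ι l) (c : ZMod l) (m : ZMod l → ℤ),
    vv C.ε (pev (C.pc c) C.X) * Matrix.diagonal (fun _ => C.e m)
      = C.ε (C.e (m + al c)) * Matrix.diagonal (fun _ => C.e m)

/-- **OPB** (packet OPB): the operators and the blocks.  Hypotheses allowed: S_OPT, S_BLE, S_DPV,
S_DP2.
PROOF.  (3) `F[p_c g] τ (x) = τ(tr(δ(x) p_c(X) g(X)) e_m) = τ(tr(δ(x) g(X) p_c(X) diagonal(e_m)))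
= τ(tr(δ(x) g(X) δ(e_(m-α)) diagonal(e_m)))` (`BL1`) `= τ(tr(δ(x e_(m-α)) g(X)))` (`e_(m-α)` central,
`δ(A)` commutes with `g(X)`, `blk`).  (4) the same with BLE (`vv ε (p_c(X) g(X)) =
vv ε (g(X)) vv ε (p_c(X))`, DPV (2)).  (1), (2): `Tinv` by OPT; block: put `x e_(m-α)` for `x` in (3),
`e` idempotent.  (5): (3), (4) for `g = 1` (`vv ε 1 = 1`) and the definitions of `Ft`, `Et`.  (6): OPT,
and `τ(z x e_m) = τ(z x)`. -/
def S_OPB : Prop := ∀ (A : Type) [Ring A] [Algebra ℂ A] (ι : Type) [Fintype ι] [DecidableEq ι]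
  (l : ℕ) (C : Core A ι l) (c : ZMod l) (m : ZMod l → ℤ) (τ : A →ₗ[ℂ] ℂ), IsTrz C 1 m τ →
    (∀ g, IsTrz C 1 (m - al c) (FO C.toCore0 (C.pc c * g) τ)) ∧
    (∀ g, IsTrz C 1 (m + al c) (EO C.toCore0 (C.pc c * g) τ)) ∧
    (∀ g x, FO C.toCore0 (C.pc c * g) τ x
      = τ (Matrix.trace (C.δ (x * C.e (m - al c)) * pev g C.X))) ∧
    (∀ g x, EO C.toCore0 (C.pc c * g) τ x
      = τ (Matrix.trace (C.ε (x * C.e (m + al c)) * vv C.ε (pev g C.X)))) ∧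
    (FO C.toCore0 (C.pc c) τ = Ft C c m τ ∧ EO C.toCore0 (C.pc c) τ = Et C c m τ) ∧
    (∀ z, (∀ a, z * a = a * z) → C.φ z = z → IsTrz C 1 m (MO z τ))

/-! ### the currents -/

/-- `y_c = q^{-2c} X - 1`. -/
def yc (q : ℂ) {l : ℕ} (c : ZMod l) : Polynomial ℂ :=
  Polynomial.C ((qz q (2 * c))⁻¹) * Polynomial.X - 1

section cur

variable {A : Type} [Ring A] [Algebra ℂ A] {ι : Type} [Fintype ι] [DecidableEq ι] {l : ℕ}

/-- `F_c^r`. -/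
def Fcr (C : Core A ι l) (q : ℂ) (c : ZMod l) (r : ℕ) : (A →ₗ[ℂ] ℂ) →ₗ[ℂ] (A →ₗ[ℂ] ℂ) :=
  FO C.toCore0 (C.pc c * yc q c ^ r)

/-- `E_c^r`. -/
def Ecr (C : Core A ι l) (q : ℂ) (c : ZMod l) (r : ℕ) : (A →ₗ[ℂ] ℂ) →ₗ[ℂ] (A →ₗ[ℂ] ℂ) :=
  EO C.toCore0 (C.pc c * yc q c ^ r)

/-- `H_c^r`. -/
def Hcr (C : Core A ι l) (q : ℂ) (c : ZMod l) (r : ℕ) : (A →ₗ[ℂ] ℂ) →ₗ[ℂ] (A →ₗ[ℂ] ℂ) :=
  - MO (pair (C.pc c * yc q c ^ r) C.pi)

end cur

/-- the entries of the affine Cartan matrix of type `A_{l-1}`. -/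
def ac {l : ℕ} (c c' : ZMod l) : ℂ :=
  2 * (if c = c' then 1 else 0) - (if c' = c + 1 then 1 else 0) - (if c' = c - 1 then 1 else 0)

/-- **CUR** (packet CUR): the relations of the currents.  Hypotheses allowed: S_OPT, S_OPG, S_OPPF,
S_OPEF, S_CORE0, S_PCX.
PROOF.  (i) if `(X^l - 1)^K ∣ h` then `pev h C.X = 0`, so `F[h] = 0`, `E[h] = 0`, and
`π_h τ = 0` for `τ ∈ Tinv` by OPEF (`[E[1], F[h]] = - π_h`).  So in `F[g]`, `E[g]`, `π_g` the polynomial `g`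
matters only modulo `(X^l - 1)^K` (linearity).
(ii) PCX: modulo `(X^l - 1)^K`, `p_c p_c' ≡ [c = c'] p_c`, `p_c (X - q^{2c})^K ≡ 0`, so `p_c y_c^r ≡ 0` for
`r ≥ K` (`y_c = q^{-2c} (X - q^{2c})`); `p_c(q² X) ≡ p_{c-1}`, `p_c(q⁻² X) ≡ p_{c+1}`, and
`y_c(q² X) = y_{c-1}`, `y_c(q⁻² X) = y_{c+1}` (`q^{-2c} q² = q^{-2(c-1)}`, `qz_add`).  So
`Dq q (p_c y_c^r) ≡ 2 p_c y_c^r - p_{c-1} y_{c-1}^r - p_{c+1} y_{c+1}^r`.
(1) OPG with `f = p_c y_c^r`, `g = p_c' y_c'^s`: `f g ≡ [c = c'] p_c y_c^{r+s}`.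
(2) OPPF (1) with `f = p_c y_c^r`, `g = p_c' y_c'^s`: `Dq f * g ≡ (2 [c=c'] - [c-1=c'] - [c+1=c'])
p_c' y_c'^{r+s}`; `H = - π`.  (3) OPPF (2) in the same way.  (4) the `π_k` are central (CORE0).
(5) (ii).  (6) OPT (`π_h` is central and `φ`-fixed, CORE0). -/
def S_CUR : Prop := ∀ (A : Type) [Ring A] [Algebra ℂ A] (ι : Type) [Fintype ι] [DecidableEq ι]
  (l : ℕ) [NeZero l] (C : Core A ι l) (q : ℂ), CoreQ C.toCore0 q → IsPrimitiveRoot q l →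
  Odd l → 3 ≤ l → ∀ K : ℕ, (C.X ^ l - 1) ^ K = 0 →
  (∀ c c', (C.pc c).eval (qz q (2 * c')) = if c = c' then 1 else 0) →
  (∀ c, (Polynomial.X ^ l - 1) ^ K ∣ C.pc c ^ 2 - C.pc c) →
  ∀ τ ∈ Tinv C.toCore0,
    (∀ c c' r s, Ecr C q c r (Fcr C q c' s τ) - Fcr C q c' s (Ecr C q c r τ)
      = if c = c' then Hcr C q c (r + s) τ else 0) ∧
    (∀ c c' r s, Hcr C q c r (Fcr C q c' s τ) - Fcr C q c' s (Hcr C q c r τ)
      = (-ac c c') • Fcr C q c' (r + s) τ) ∧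
    (∀ c c' r s, Hcr C q c r (Ecr C q c' s τ) - Ecr C q c' s (Hcr C q c r τ)
      = ac c c' • Ecr C q c' (r + s) τ) ∧
    (∀ c c' r s, Hcr C q c r (Hcr C q c' s τ) = Hcr C q c' s (Hcr C q c r τ)) ∧
    (∀ c r, K ≤ r → Ecr C q c r τ = 0 ∧ Fcr C q c r τ = 0 ∧ Hcr C q c r τ = 0) ∧
    (∀ c r, Ecr C q c r τ ∈ Tinv C.toCore0 ∧ Fcr C q c r τ ∈ Tinv C.toCore0 ∧
      Hcr C q c r τ ∈ Tinv C.toCore0)

/-- **COG** (packet COG): a family of subspaces of the spaces of traces that is stable under all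
currents `E_c^r`, `F_c^r` and is zero at all `n δ_c` is zero.  Hypotheses allowed: S_VANE, S_VANF,
S_OPB, S_PCX, S_BLE, and `hZ` = the conclusion of `Helper34.SQ.t_famZero` (take its hypotheses
S_TRF, S_SL2, S_IDL, S_IT, S_CH, S_GSUP, S_G1, S_G2, S_G0).
PROOF.  `W m τ := τ ∈ W m` is a family `Fam C 1`: `trz` and `stF` (`Ft = F_c^0` by OPB (5)) are
hypotheses.  `killE`: let `τ ∈ W m`, `W m' = 0` for all `m'` with `∑ m'² > ∑ m²`, `m (c+1) ≤ m c`.  Then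
`∑ (m + al c)² = ∑ m² + 2 (m c - m (c+1)) + 2 > ∑ m²`, so `E_c^r τ = 0` for all `r`.  By
`S_VANE` it is enough that `∑_(p,r) τ(ε((X^k)_pr (x e_(m+α)))_pr) = 0`; this sum is
`τ(tr(vv ε (X^k) ε(x e_(m+α)))) = τ(tr(ε(x e_(m+α)) vv ε (X^k))) = E[p_c X^k] τ (x)` (OPB (4)), and
`p_c X^k` is a combination of the `p_c y_c^r` (`X = q^{2c} (y_c + 1)`, binomial theorem).
`killF`: the same with `S_VANF`, OPB (3): `∑ (m - al c)² = ∑ m² - 2 (m c - m (c+1)) + 2 > ∑ m²` if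
`m c ≤ m (c+1)`. -/
def S_COG : Prop :=
  ∀ (N l : ℕ) [NeZero l] (q : ℂ) (hl : l ≠ 0) (s : ℕ → ℂˣ) (D : Dl N l q)
    (C : Core (A N l q) (Fin (N + 1)) l), Sett N l q hl s D C → CoreQ C.toCore0 q →
  ∀ W : (ZMod l → ℤ) → Submodule ℂ (A N l q →ₗ[ℂ] ℂ),
    (∀ m, ∀ τ ∈ W m, IsTrz C 1 m τ) →
    (∀ m c r, ∀ τ ∈ W m, Fcr C q c r τ ∈ W (m - al c)) →
    (∀ m c r, ∀ τ ∈ W m, Ecr C q c r τ ∈ W (m + al c)) →
    (∀ c : ZMod l, W (fun x => if x = c then ((N : ℤ) + 1) else 0) = ⊥) →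
    ∀ m, W m = ⊥

/-! ### characters -/

/-- **CHX** (packet CHX): nilpotent operators have trace zero.  Hypothesis allowed: S_CHARV.
PROOF.  By CHARV `chi M (trace (H a * Y)) = LinearMap.trace (actM (H a * Y))` on `Ten H M`, and
`actM (H a * Y) = actM (H a) ∘ actM Y` (`actM_mul`); `actM Y` is nilpotent (`Y^k = 0`,
`actM (Y^k) = (actM Y)^k`) and commutes with `actM (H a)`, so the product is nilpotent and its trace
is `0` (`LinearMap.isNilpotent_trace_of_isNilpotent`). -/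
def S_CHX : Prop :=
  ∀ (N l : ℕ) (q : ℂ) (H : A N l q →ₐ[ℂ] Mat N (A N l q)) (M : Type) [AddCommGroup M]
    [Module ℂ M] [Module (A N l q) M] [IsScalarTower ℂ (A N l q) M] [FiniteDimensional ℂ M]
    (Y : Mat N (A N l q)), (∀ a, Y * H a = H a * Y) → IsNilpotent Y → ∀ a : A N l q,
      chi M (Matrix.trace (H a * Y)) = 0

/-- **CH3** (packet CH3): the character of `V (x) Z(lam)`.  Hypotheses allowed: S_FL, S_LAYA, S_HARM,
S_ZUNIV, S_GENV, S_CUP0, S_FDIM, S_CHARV.  Model: the proof of `S_CH1` (grep CH1).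
PROOF.  FL for `W = Ten D.dl (Zl q lam)`, exactly as in `S_CH1`; take its conclusion
`chi W a = ∑_j chi (Zl q (addE lam j)) a` and CHARV (second claim). -/
def S_CH3 : Prop :=
  ∀ (N l : ℕ) [NeZero l] (q : ℂ) (D : Dl N l q), Par N l q →
    ∀ (lam : Fin (N + 1) → ZMod l) (a : A N l q),
      chi (Zl q lam) (Matrix.trace (D.dl a)) = ∑ j, chi (Zl q (addE lam j)) a

/-- **CHI** (packet CHI): the characters of the `Z(lam)` are invariant traces of the block `ty lam`.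
Hypotheses allowed: S_ZUNIV, S_TOI, S_FDIM.
PROOF.  Trace: `chiL_mul_comm`.  Invariance: the left ideal `Jl q lam` is stable under `t = tor s` and
`tor s⁻¹` (generators: `t(E_i)` is a multiple of `E_i`, `t(K_j) = K_j`), so `a ↦ t(a)` induces a
bijection `θ` of `Zl q lam` with `θ(a z) = t(a) θ(z)`; so `lsm (t a) = θ lsm(a) θ⁻¹` has the same trace
as `lsm a` (`LinearMap.trace_conj'`).  Block: `e_m` is central and acts on the generator `zgen` (a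
singular vector) by `[ty lam = m]` (`Sett.ev`), so it acts on `Z(lam) = A zgen` by this number:
`lsm (x * e_m) = [ty lam = m] lsm x`. -/
def S_CHI : Prop :=
  ∀ (N l : ℕ) [NeZero l] (q : ℂ) (hl : l ≠ 0) (s : ℕ → ℂˣ) (D : Dl N l q)
    (C : Core (A N l q) (Fin (N + 1)) l), Sett N l q hl s D C →
    ∀ lam : Fin (N + 1) → ZMod l,
      IsTrz C 1 (Pool.Agent.Helper19.SQ.ty lam) (chiL (Zl q lam))

/-- the sum of the characters of the `Z(lam)` of type `m`. -/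
def chm (N l : ℕ) [NeZero l] (q : ℂ) (m : ZMod l → ℤ) : A N l q →ₗ[ℂ] ℂ :=
  ∑ lam : Fin (N + 1) → ZMod l,
    if Pool.Agent.Helper19.SQ.ty lam = m then chiL (Zl q lam) else 0

/-- **CHM** (packet CHM): the currents on the characters.  Hypotheses allowed: S_CHI, S_CHX, S_CH2,
S_CH3, S_TYP, S_PCX, S_OPB, S_DPV, S_DP2, S_XNIL, S_HARM, S_FDIM, S_ZUNIV.
PROOF.  `χ_lam = chiL (Zl q lam)`, a trace of the block `ty lam` (CHI).
(1) `r > 0`: `F_c^r χ_lam (x) = chi Z (trace (δ(x) (p_c y_c^r)(X)))`, and `Y = (p_c y_c^r)(X)` commutes with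
`δ(A)` and is nilpotent (`Y^K = 0`: `(X^l - 1)^K ∣ p_c y_c^K` by PCX, `(C.X^l - 1)^K = 0`), so it is `0`
(CHX).  `E_c^r`: the same with `vv ε Y` (DPV (1), (2), `vv` of a power is the power).
(2) `m = ty lam`: `E_c^0 χ_lam = Et C c m χ_lam`: `x ↦ chi Z (trace (ε(x e_(m+α_c)))) =
∑_j χ_(lam-ε_j)(x e_(m+α_c))` (CH2) `= ∑_(j : x_j = c+1) χ_(lam-ε_j)(x)`, since
`ty(lam - ε_j) = m + α_(x_j - 1)` (TYP) is `m + α_c` iff `x_j = c + 1` (`al` injective).  The same with CH3: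
`F_c^0 χ_lam = ∑_(j : x_j = c) χ_(lam+ε_j)`.
(3) sum over all `lam` of type `m`: `E_c^0 ch_m = ∑_(mu : ty mu = m + α_c) χ_mu #{j : x_j(mu) = c}`
(`mu = lam - ε_j`, `lam = mu + ε_j`, `x_j(mu) = x_j(lam) - 1`), and `#{j : x_j(mu) = c} = (m + α_c)(c) =
m c + 1` (`c ≠ c + 1`).  `F_c^0 ch_m = ∑_(mu : ty mu = m - α_c) χ_mu #{j : x_j(mu) = c+1}`,
`= (m - α_c)(c+1) = m (c+1) + 1`.
(4) `ch_m(1) = ∑_(lam : ty lam = m) dZ lam > 0` if `m` is a type (there is a `lam`, all `dZ > 0`, HARM);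
for a general type `m` choose `x : Fin (N+1) → ZMod l` with the given fibres (only the case
`m = n δ_c` is needed: `lam_j = c + j`, `Helper19.SQ.ty_eq_iff`).  (5) CHI. -/
def S_CHM : Prop :=
  ∀ (N l : ℕ) [NeZero l] (q : ℂ) (hl : l ≠ 0) (s : ℕ → ℂˣ) (D : Dl N l q)
    (C : Core (A N l q) (Fin (N + 1)) l), Sett N l q hl s D C →
    ∀ K : ℕ, (C.X ^ l - 1) ^ K = 0 →
    (∀ c c', (C.pc c).eval (qz q (2 * c')) = if c = c' then 1 else 0) →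
    (∀ c, (Polynomial.X ^ l - 1) ^ K ∣ C.pc c ^ 2 - C.pc c) →
    (∀ m c r, 0 < r → Ecr C q c r (chm N l q m) = 0 ∧ Fcr C q c r (chm N l q m) = 0) ∧
    (∀ m c, Ecr C q c 0 (chm N l q m) = ((m c + 1 : ℤ) : ℂ) • chm N l q (m + al c)) ∧
    (∀ m c, Fcr C q c 0 (chm N l q m) = ((m (c + 1) + 1 : ℤ) : ℂ) • chm N l q (m - al c)) ∧
    (∀ c : ZMod l, chm N l q (fun x => if x = c then ((N : ℤ) + 1) else 0) ≠ 0) ∧
    (∀ m, IsTrz C 1 m (chm N l q m))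

/-! ### dimensions -/

/-- **ST1** (packet ST1): the traces on a Steinberg block are proportional.  Hypotheses allowed:
S_GAM, S_TRI, S_SPAN, S_MONW, S_HTOP, S_SV, S_FDIM.  Model: the proof of `S_STT`
(`Pool/Agent/Helper6/SQ/STT.lean`).
PROOF.  As in `S_STT` there is an idempotent `f` with `f x f ∈ ℂ f` for all `x` and `e ∈ A f A`.  So
`τ(x f x') = τ(f x' x f)` is a multiple of `τ(f)` (for every trace `τ`), and if `τ(f) = 0` then `τ`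
vanishes on `A f A`, so `τ(x) = τ(x e) = 0`.  Apply this to `τ = τ_2(f) τ_1 - τ_1(f) τ_2`: if
`τ_1(f) = 0` then `τ_1 = 0 = 0 τ_2`, otherwise `τ_2 = (τ_2(f)/τ_1(f)) τ_1`; if `τ_1 ≠ 0` then
`τ_1(f) ≠ 0`. -/
def S_ST1 : Prop :=
  ∀ (N l : ℕ) [NeZero l] (q : ℂ) (hl : l ≠ 0), Par N l q → ∀ (s : ℕ → ℂˣ) (c : ZMod l)
    (e : A N l q), (∀ a, e * a = a * e) → e * e = e →
    (∀ (M : Type) [AddCommGroup M] [Module ℂ M] [Module (A N l q) M]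
      [IsScalarTower ℂ (A N l q) M] [FiniteDimensional ℂ M] (lam : Fin (N + 1) → ZMod l) (v : M),
      Sing q lam v → ((∀ j : Fin (N + 1), lam j = c + ((j : ℕ) : ZMod l)) → e • v = v) ∧
        ((¬ ∀ j : Fin (N + 1), lam j = c + ((j : ℕ) : ZMod l)) → e • v = 0)) →
    ∀ τ₁ τ₂ : A N l q →ₗ[ℂ] ℂ, (∀ x y, τ₁ (x * y) = τ₁ (y * x)) →
      (∀ x y, τ₂ (x * y) = τ₂ (y * x)) → (∀ x, τ₁ (x * e) = τ₁ x) →
      (∀ x, τ₂ (x * e) = τ₂ x) → τ₁ ≠ 0 → ∃ t : ℂ, τ₂ = t • τ₁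

/-- **ALLI** (packet ALLI): all traces are invariant.  Hypotheses allowed: S_TRI, S_FDIM, and
`hZ : ∀ ζ m, ζ ≠ 1 → TrZero C ζ m` (this is `Helper19.SQ.trz_of`).
PROOF.  `A` is the (finite) sum of the eigenspaces `A_ζ` of `φ = tor s` (TRI: the monomials are
eigenvectors; see `Gdeg`, `S_ZDEG` in `Pool/Agent/Helper19/SQ/Homg.lean`).  For a trace `τ` and `ζ` let
`τ_ζ` be `τ` composed with the projection to `A_ζ`; it is a polynomial in `φ` (Lagrange), so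
`τ_ζ` is a combination of the traces `τ ∘ φ^k`, hence a trace, `τ_ζ ∘ φ = ζ τ_ζ`, `τ = ∑_ζ τ_ζ`
(finite sum).  For `ζ ≠ 1` and all `m`: `τ_ζ(· e_m)` satisfies `IsTrz C ζ m` (`φ e_m = e_m`), so it
is `0`, and `τ_ζ = ∑_m τ_ζ(· e_m) = 0`.  So `τ = τ_1`.
(Alternatively, without projections: the transpose of `φ` on the finite dimensional space of all
traces is diagonalizable, because `φ` is; an eigenvector of eigenvalue `ζ ≠ 1` is `0`.) -/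
def S_ALLI : Prop :=
  ∀ (N l : ℕ) [NeZero l] (q : ℂ) (hl : l ≠ 0) (s : ℕ → ℂˣ) (D : Dl N l q)
    (C : Core (A N l q) (Fin (N + 1)) l), Sett N l q hl s D C →
    (∀ (ζ : ℂ) (m : ZMod l → ℤ), ζ ≠ 1 → TrZero C ζ m) →
    ∀ τ : A N l q →ₗ[ℂ] ℂ, (∀ x y, τ (x * y) = τ (y * x)) → τ ∈ Tinv C.toCore0

/-- **DIMZ** (packet DIMZ): `dim Z(A) ≤ dim` of the space of traces, also for every block.
Hypotheses allowed: S_TF, S_FDIM.
PROOF.  With the form `t` of TF: `z ↦ (x ↦ t(z x))` is injective on the center and its values are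
traces: `t(z x y) = t(y z x) = t(z y x)`; they are in `Tinv` by the hypothesis.  If `z e_m = z` then
`t(z x e_m) = t(z e_m x) = t(z x)`.  (3) `Tinv = ⨁ Tm` (over `C.types`): `τ = ∑_m τ(· e_m)`; only `≤` is
needed: `Tinv ≤ ⨆_(m ∈ types) Tm`, and the dimension of a sum is at most the sum. -/
def S_DIMZ : Prop :=
  ∀ (N l : ℕ) [NeZero l] (q : ℂ) (hl : l ≠ 0) (s : ℕ → ℂˣ) (D : Dl N l q)
    (C : Core (A N l q) (Fin (N + 1)) l), Sett N l q hl s D C →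
    (∀ τ : A N l q →ₗ[ℂ] ℂ, (∀ x y, τ (x * y) = τ (y * x)) → τ ∈ Tinv C.toCore0) →
    Module.finrank ℂ (Subalgebra.center ℂ (A N l q)) ≤ Module.finrank ℂ (Tinv C.toCore0) ∧
    (∀ m, Module.finrank ℂ (Zm C m) ≤ Module.finrank ℂ (Tm C m)) ∧
    Module.finrank ℂ (Tinv C.toCore0) ≤ ∑ m ∈ C.types, Module.finrank ℂ (Tm C m)

/-- **ZUL** (packet ZUL): `l dim Z(u_q(sl_n)) ≤ dim Z(u_q(gl_n))` for `gcd(n, l) = 1`.  Hypotheses
allowed: S_IOTA, S_PI, S_FDIM; and see the proof of `S_TRA` (`Pool/Agent/Helper6/SQ/TRA.lean`), which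
contains: `iota : Usl → A` injective, `iota(z)` is central in `A` for central `z`,
`c = K_0 ... K_N` is central.
PROOF.  For `ζ` with `ζ^l = 1` the family `ext0 E, ext0 F, ζ κ_j` (`κ_j = kap N l q n' j` for `j ≤ N`, `1` for
`j > N`) satisfies `GlRel N l q` (PI; the scalar cancels in `K_i K_{i+1}^{l-1}`), so there is an
algebra map `π_ζ : A → Usl` with `π_ζ(iota z) = z` (generators: PI (2)) and `π_ζ(c) = ζ^{N+1} κ_0 ... κ_N`,
and `κ_0 ... κ_N = 1`: the exponent of `K_i` is `∑_(j ≤ N) ([j ≤ i] - n' (i+1)) = (i+1) - (N+1) n' (i+1) = 0`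
modulo `l`.  If `∑_(i<l) iota(z_i) c^i = 0` with central `z_i`, apply `π_ζ`: `∑_i ζ^{(N+1) i} z_i = 0`
for all `l` values of `ζ`; `ζ^{N+1}` runs over all `l`-th roots of unity (`gcd(N+1, l) = 1`), so by
Vandermonde all `z_i = 0`.  So `(z_i) ↦ ∑ iota(z_i) c^i` is an injective linear map
`(Fin l → Z(Usl)) → Z(A)`. -/
def S_ZUL : Prop :=
  ∀ (N l : ℕ) [NeZero l] (q : ℂ), Par N l q → Nat.Coprime (N + 1) l →
    FiniteDimensional ℂ (A N l q) →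
    l * Module.finrank ℂ (Subalgebra.center ℂ (Usl N l q))
      ≤ Module.finrank ℂ (Subalgebra.center ℂ (A N l q))

end

end Pool.Agent.Helper4.SQ
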