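import Pool.Agent.Helper4.SQ.GoalsR

/-!
Project SQ (MP_bb32d1_al), stage B: the structure Core with the properties of the polynomials.
(Adapted from Pool/Agent/Helper41/SQ/CORE.lean of helper41.)
-/

set_option autoImplicit false

namespace Pool.Agent.Helper4.SQ

open Matrix Pool.Agent.Helper19.SQ Pool.Agent.Helper34.SQ Pool.Agent.Helper41.SQ

theorem sCORE2 (h0 : S_CORE0) (hEV : S_EVAL) (hBE : S_BEVAL) (hID : S_IDEM) (hNP : S_NILP)
    (hXN : S_XNIL) (hPC : S_PC) (hB1 : S_BL1) (hB2 : S_BL2) (hDL : S_DL) : S_CORE2 := by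
  intro N l _ q D hl s C0 P hs hC
  obtain ⟨-, -, -, -, -, -, hbc, -, -, -, -, hpc, hpf⟩ := h0 _ _ C0
  have hX : ∀ a, Xm N l q * D.dl a = D.dl a * Xm N l q := by
    intro a
    have := C0.Xδ a
    rwa [hC.X, hC.δ] at this
  obtain ⟨e, he⟩ := hID N l q hl s P C0.pi hpc
    (fun k => by rw [← hC.φ]; exact hpf k)
    (fun k M _ _ _ _ lam v hv => hEV N l q D hl s C0 P hs hC k M lam v hv)
  obtain ⟨K, hK⟩ := hXN N l q D P hX
  have hnil : ∀ (m : ZMod l → ℤ) (k : ℕ),
      IsNilpotent ((C0.b k - algebraMap ℂ (A N l q) (Bco q m k)) * e m) :=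
    hNP N l q hl s P e he C0.b hbc
      (fun k M _ _ _ _ lam v hv => hBE N l q D hl s C0 P hs hC k M lam v hv)
  choose K' hK' using fun m : ZMod l → ℤ =>
    hDL N l q D hl s C0 P hC e he K hK m (hnil m)
  obtain ⟨p, hp1, hp2, hp3⟩ := hPC l q P.prim P.odd (max K ((typs N l).sup K'))
  have hd : ∀ {a b : ℕ}, a ≤ b → ∀ {r : Polynomial ℂ},
      (Polynomial.X ^ l - 1) ^ b ∣ r → (Polynomial.X ^ l - 1) ^ a ∣ r :=
    fun hab _ h => (pow_dvd_pow _ hab).trans h
  have hBL1 : ∀ (c : ZMod l) (m : ZMod l → ℤ),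
      pev (p c) (Xm N l q) * Matrix.diagonal (fun _ => e m)
      = D.dl (e (m - al c)) * Matrix.diagonal (fun _ => e m) :=
    hB1 N l q D hl s P hX e he K hK p hp1 (fun c => hd (le_max_left _ _) (hp2 c))
  have hBL2 := hB2 N l q D hl s P e he
  refine ⟨{ C0 with
    e := e
    e_cen := he.cen
    e_idem := he.idem
    e_orth := he.orth
    types := typs N l
    e_types := he.out
    types_nonneg := fun m hm => (mem_typs.1 hm).1
    e_sum := he.sum
    φe := fun m => by rw [hC.φ]; exact he.fix m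
    pc := p
    BL1 := fun c m => by
      rw [hC.X, hC.δ]; exact hBL1 c m
    BL2 := fun m m' h => by
      rw [hC.ε] at h; exact hBL2 m m' h
    DL := fun c m => ?_ }, max K ((typs N l).sup K'), rfl, rfl, he, ?_, hp1, hp2, hp3⟩
  · by_cases hm : m ∈ typs N l
    · have h1 := hK' m (p c) (hd ((Finset.le_sup hm).trans (le_max_right _ _)) (hp3 c))
      have h2 : (∑ c' : ZMod l, ((m (c' + 1) - m c' : ℤ) : ℂ) * (p c).eval (qz q (2 * c')))
          = ((m (c + 1) - m c : ℤ) : ℂ) := by
        simp only [hp1]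
        rw [Finset.sum_eq_single c]
        · rw [if_pos rfl, mul_one]
        · intro c' _ hc'
          rw [if_neg (fun h => hc' h.symm), mul_zero]
        · intro h; exact absurd (Finset.mem_univ _) h
      rw [h2] at h1
      exact h1
    · rw [he.out m hm, mul_zero, smul_zero]
  · change (C0.X ^ l - 1) ^ max K ((typs N l).sup K') = 0
    rw [hC.X]
    exact pow_eq_zero_of_le (le_max_left _ _) hK

/-- evaluation of `g` at an element with `(X^l - 1)^K = 0`. -/
theorem sXINV : S_XINV := by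
  intro B _ _ l K X hl h
  refine ⟨1 - (1 - Polynomial.X ^ l) ^ K, ?_, ?_⟩
  · rw [Polynomial.coeff_zero_eq_eval_zero, Polynomial.eval_sub, Polynomial.eval_pow,
      Polynomial.eval_sub, Polynomial.eval_pow, Polynomial.eval_X, Polynomial.eval_one,
      zero_pow (by omega), sub_zero, one_pow, sub_self]
  · rw [map_sub, map_pow, map_sub, map_pow, Polynomial.aeval_X, map_one]
    have : (1 - X ^ l) ^ K = 0 := by
      have e : (1 - X ^ l) = -(X ^ l - 1) := by abel
      rw [e, neg_pow, h, mul_zero]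
    rw [this, sub_zero]

/-- assembly of `CoreQ`. -/
theorem sCOREP (hQ : S_SCQ) (hB : S_SCB) (hX : S_SCX) (hD : S_SCD) (hXI : S_XINV)
    (hXN : S_XNIL) : S_COREP := by
  intro N l _ q D hl s C P hC
  have hq : q ≠ 0 := P.prim.ne_zero hl
  have h3 := P.h3
  have hX' : ∀ a, Xm N l q * D.dl a = D.dl a * Xm N l q := by
    intro a
    have := C.Xδ a
    rwa [hC.X, hC.δ] at this
  obtain ⟨K, hK⟩ := hXN N l q D P hX'
  obtain ⟨g, hg0, hg⟩ := hXI (Mat N (A N l q)) l K (Xm N l q) (by omega) hK
  obtain ⟨q1, q2, q3, q4, q5⟩ := hQ N q hq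
  have hω : q - q⁻¹ ≠ 0 := by
    intro h0
    have h1 : q ^ 2 = 1 := by
      have : q = q⁻¹ := sub_eq_zero.1 h0
      rw [pow_two]
      nth_rewrite 2 [this]
      exact mul_inv_cancel₀ hq
    have h2 := (P.prim.pow_eq_one_iff_dvd 2).1 h1
    have := Nat.le_of_dvd (by norm_num) h2
    omega
  exact ⟨{ Sc := Scm N q
           ω := q - q⁻¹
           κ1 := -(q - q⁻¹)
           κ2 := -(q - q⁻¹) * q⁻¹
           ω_ne := hω
           κ1_ne := neg_ne_zero.2 hω
           u_eq := fun x => by rw [hC.u, hC.w]; exact q4 l x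
           Tu := fun x => by rw [hC.T, hC.u]; exact q5 l x
           ScSc := q1
           ScD := fun a => by rw [hC.δ]; exact hD N l q P D a
           ScX := by rw [hC.δ, hC.X]; exact hX N l q P D
           br := hB N q hq
           TSc := fun a b c d => by rw [hC.T]; exact q2 a b c d
           SSc := fun a x k y => by rw [hC.S, hC.w, hC.w]; exact q3 a x k y
           inv := ⟨g, hg0, by rw [hC.X]; exact hg⟩
           q_ne := hq
           ωq := rfl
           κ1q := rfl
           κ2q := rfl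
           v_eq := by
             rw [hC.v, hC.X, hC.T, vvec]
             congr 1
             funext x
             rw [hC.w]
             rfl }⟩

end Pool.Agent.Helper4.SQ
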