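import Pool.Agent.Helper19.SQ.GoalsQ2
import Pool.Agent.Helper19.SQ.GoalsS
import Pool.Agent.Helper4.SQ.CT

/-!
Project SQ (MP_bb32d1_al), packet GAM, part 1: spaces of words, heights.
-/

set_option autoImplicit false

namespace Pool.Agent.Helper4.SQ

open Pool.Agent.Helper19.SQ

section words

variable {B : Type} [Ring B] [Algebra ℂ B]

/-- combinations of words of length `h`. -/
def G (E : ℕ → B) (h : ℕ) : Submodule ℂ B :=
  Submodule.span ℂ {x | ∃ w : List ℕ, w.length = h ∧ x = (w.map E).prod}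

theorem G_one (E : ℕ → B) : (1 : B) ∈ G E 0 :=
  Submodule.subset_span ⟨[], rfl, by simp⟩

theorem G_gen (E : ℕ → B) (i : ℕ) : E i ∈ G E 1 :=
  Submodule.subset_span ⟨[i], rfl, by simp⟩

theorem G_mul {E : ℕ → B} {a b : ℕ} {x y : B} (hx : x ∈ G E a) (hy : y ∈ G E b) :
    x * y ∈ G E (a + b) := by
  have h := Submodule.mul_mem_mul hx hy
  unfold G at h
  rw [Submodule.span_mul_span] at h
  refine Submodule.span_mono ?_ h
  rintro _ ⟨_, ⟨w, hw, rfl⟩, _, ⟨w', hw', rfl⟩, rfl⟩
  exact ⟨w ++ w', by simp [hw, hw'], by simp⟩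

theorem G_pow {E : ℕ → B} {a : ℕ} {x : B} (hx : x ∈ G E a) (n : ℕ) : x ^ n ∈ G E (n * a) := by
  induction n with
  | zero => simpa using G_one E
  | succ n ih =>
    rw [pow_succ, Nat.succ_mul]
    exact G_mul ih hx

theorem G_rvA (q : ℂ) (E : ℕ → B) (d i : ℕ) : rvA q E d i ∈ G E (d + 1) := by
  induction d generalizing i with
  | zero => exact G_gen E i
  | succ d ih =>
    rw [rvA]
    refine Submodule.sub_mem _ ?_ (Submodule.smul_mem _ _ ?_)
    · have := G_mul (G_gen E i) (ih (i + 1))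
      rwa [show 1 + (d + 1) = d + 1 + 1 by ring] at this
    · exact G_mul (ih (i + 1)) (G_gen E i)

theorem rvA_shift (q : ℂ) (F : ℕ → B) (s d i : ℕ) :
    rvA q (fun k => F (s + k)) d i = rvA q F d (s + i) := by
  induction d generalizing i with
  | zero => rfl
  | succ d ih => rw [rvA, rvA, ih, show s + (i + 1) = s + i + 1 by ring]

theorem serre_shift {q : ℂ} {F : ℕ → B} (h : SerreRel q F) (s : ℕ) :
    SerreRel q (fun k => F (s + k)) := by
  refine ⟨fun i j hij => h.far _ _ (by omega), fun i => ?_, fun i => ?_⟩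
  · exact h.s1 (s + i)
  · exact h.s2 (s + i)

/-- the assumptions on one family. -/
structure Good (N l : ℕ) (q : ℂ) (E : ℕ → B) : Prop where
  hl : 0 < l
  q0 : q ≠ 0
  q1 : q ^ 2 ≠ 1
  q2 : q ^ 2 ≠ -1
  ser : SerreRel q E
  out : ∀ i, N ≤ i → E i = 0
  pw : ∀ d i, rvA q E d i ^ l = 0

theorem Good.shift {N l : ℕ} {q : ℂ} {F : ℕ → B} (h : Good N l q F) (n : ℕ) (hn : n ≤ N) :
    Good n l q (fun k => F (N - n + k)) where
  hl := h.hl
  q0 := h.q0
  q1 := h.q1
  q2 := h.q2
  ser := serre_shift h.ser _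
  out i hi := h.out _ (by omega)
  pw d i := by rw [rvA_shift]; exact h.pw _ _

theorem G_gt (hS : S_SPAN) (hH : S_HTOP) {N l : ℕ} {q : ℂ} {E : ℕ → B} (hg : Good N l q E)
    {h : ℕ} (hh : ht N (topE N l) < h) {x : B} (hx : x ∈ G E h) : x = 0 := by
  have h0 : G E h ≤ ⊥ := by
    refine Submodule.span_le.2 ?_
    rintro _ ⟨w, hw, rfl⟩
    have h1 := hS B N l q E hg.hl hg.q0 hg.q1 hg.q2 hg.ser hg.out hg.pw w
    have h2 : {x | ∃ b, IsEx N l b ∧ ht N b = w.length ∧ x = mon N q E b} = (∅ : Set B) := by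
      ext y
      constructor
      · rintro ⟨b, hb, hb2, -⟩
        have := (hH N l b hb).1
        omega
      · intro hy
        exact hy.elim
    rw [h2, Submodule.span_empty] at h1
    exact h1
  exact (Submodule.mem_bot ℂ).1 (h0 hx)

theorem G_eq (hS : S_SPAN) (hH : S_HTOP) {N l : ℕ} {q : ℂ} {E : ℕ → B} (hg : Good N l q E)
    {x : B} (hx : x ∈ G E (ht N (topE N l))) : ∃ c : ℂ, x = c • mon N q E (topE N l) := by
  have h0 : G E (ht N (topE N l)) ≤ Submodule.span ℂ {mon N q E (topE N l)} := by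
    refine Submodule.span_le.2 ?_
    rintro _ ⟨w, hw, rfl⟩
    have h1 := hS B N l q E hg.hl hg.q0 hg.q1 hg.q2 hg.ser hg.out hg.pw w
    refine Submodule.span_mono ?_ h1
    rintro _ ⟨b, hb, hb2, rfl⟩
    have := (hH N l b hb).2 (by omega)
    rw [this]
    rfl
  obtain ⟨c, hc⟩ := Submodule.mem_span_singleton.1 (h0 hx)
  exact ⟨c, hc.symm⟩

end words

/-- the height of the first row of the top exponent. -/
def rowH (l n : ℕ) : ℕ := ∑ d ∈ Finset.range n, (l - 1) * (d + 1)

theorem ht_succ (n l : ℕ) :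
    ht (n + 1) (topE (n + 1) l) = rowH l (n + 1) + ht n (topE n l) := by
  have h1 : ∀ i j, topE (n + 1) l (i + 1) (j + 1) = topE n l i j := by
    intro i j
    unfold topE
    congr 1
    simp
  unfold ht rowH
  rw [Finset.sum_range_succ' _ (n + 1), add_comm]
  congr 1
  · rw [Finset.sum_range_succ']
    have h2 : topE (n + 1) l 0 0 = 0 := by simp [topE]
    rw [h2, zero_mul, add_zero]
    refine Finset.sum_congr rfl fun d hd => ?_
    have hd' := Finset.mem_range.1 hd
    have h3 : topE (n + 1) l 0 (d + 1) = l - 1 := by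
      unfold topE
      rw [if_pos ⟨by omega, by omega⟩]
    rw [h3]
    simp
  · refine Finset.sum_congr rfl fun i _ => ?_
    rw [Finset.sum_range_succ']
    have h2 : topE (n + 1) l (i + 1) 0 = 0 := by simp [topE]
    rw [h2, zero_mul, add_zero]
    refine Finset.sum_congr rfl fun j _ => ?_
    rw [h1, Nat.add_sub_add_right]

theorem ht_zero (l : ℕ) : ht 0 (topE 0 l) = 0 := by
  simp [ht, topE]

/-- `∏_{d<n} F_{a,a+1+d}^{l-1}`. -/
noncomputable def Ur {B : Type} [Ring B] [Algebra ℂ B] (l : ℕ) (q : ℂ) (F : ℕ → B) (a : ℕ) : ℕ → B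
  | 0 => 1
  | n + 1 => Ur l q F a n * rvA q F n a ^ (l - 1)

/-- `E_{a,a+n}^{l-1} ... E_{a,a+1}^{l-1}`. -/
noncomputable def Vr {B : Type} [Ring B] [Algebra ℂ B] (l : ℕ) (q : ℂ) (E : ℕ → B) (a : ℕ) : ℕ → B
  | 0 => 1
  | n + 1 => rvA q E n a ^ (l - 1) * Vr l q E a n

/-- rows `N-n, ..., N-1` of `F`. -/
noncomputable def Tr {B : Type} [Ring B] [Algebra ℂ B] (N l : ℕ) (q : ℂ) (F : ℕ → B) : ℕ → B
  | 0 => 1
  | n + 1 => Ur l q F (N - (n + 1)) (n + 1) * Tr N l q F n

/-- the corresponding product of rows of `E`. -/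
noncomputable def Wr {B : Type} [Ring B] [Algebra ℂ B] (N l : ℕ) (q : ℂ) (E : ℕ → B) : ℕ → B
  | 0 => 1
  | n + 1 => Wr N l q E n * Vr l q E (N - (n + 1)) (n + 1)

section

variable {B : Type} [Ring B] [Algebra ℂ B]

theorem row_eq (N l : ℕ) (q : ℂ) (F : ℕ → B) (a : ℕ) (ha : a ≤ N) :
    rowM N q F (topE N l) a = Ur l q F a (N - a) := by
  unfold rowM
  have h : ∀ n, n ≤ N - a → ((List.range n).map fun d =>
      rv q F a (a + 1 + d) ^ topE N l a (a + 1 + d)).prod = Ur l q F a n := by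
    intro n
    induction n with
    | zero => intro _; simp [Ur]
    | succ n ih =>
      intro hn
      rw [List.range_succ, List.map_append, List.prod_append, ih (by omega), Ur]
      congr 1
      simp only [List.map_cons, List.map_nil, List.prod_cons, List.prod_nil, mul_one]
      have h1 : topE N l a (a + 1 + n) = l - 1 := by
        unfold topE
        rw [if_pos ⟨by omega, by omega⟩]
      rw [h1, rv, show a + 1 + n - a - 1 = n by omega]
  exact h _ le_rfl

theorem mon_eq (N l : ℕ) (q : ℂ) (F : ℕ → B) : mon N q F (topE N l) = Tr N l q F N := by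
  have h : ∀ n, n ≤ N → ((List.range n).map fun i => rowM N q F (topE N l) (N - n + i)).prod
      = Tr N l q F n := by
    intro n
    induction n with
    | zero => intro _; simp [Tr]
    | succ n ih =>
      intro hn
      rw [List.range_succ_eq_map, List.map_cons, List.prod_cons, Tr, List.map_map, ← ih (by omega)]
      congr 1
      · rw [add_zero, row_eq _ _ _ _ _ (by omega)]
        congr 1
        omega
      · congr 1
        refine List.map_congr_left fun i _ => ?_
        simp only [Function.comp]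
        congr 1
        omega
  have h1 := h N le_rfl
  rw [← h1]
  unfold mon
  congr 1
  refine List.map_congr_left fun i _ => ?_
  congr 1
  omega

theorem Vr_mem (l : ℕ) (q : ℂ) (E : ℕ → B) (a n : ℕ) : Vr l q E a n ∈ G E (rowH l n) := by
  induction n with
  | zero => exact G_one E
  | succ n ih =>
    rw [Vr, rowH, Finset.sum_range_succ, add_comm]
    exact G_mul (G_pow (G_rvA q E n a) _) ih

theorem Wr_mem (N l : ℕ) (q : ℂ) (E : ℕ → B) (n : ℕ) :
    Wr N l q E n ∈ G E (ht n (topE n l)) := by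
  induction n with
  | zero => rw [ht_zero]; exact G_one E
  | succ n ih =>
    rw [Wr, ht_succ, add_comm]
    exact G_mul ih (Vr_mem l q E _ _)

theorem Ur_mem (l : ℕ) (q : ℂ) (F : ℕ → B) (s a n : ℕ) :
    Ur l q F (s + a) n ∈ G (fun k => F (s + k)) (rowH l n) := by
  induction n with
  | zero => exact G_one _
  | succ n ih =>
    rw [Ur, rowH, Finset.sum_range_succ, ← rvA_shift]
    exact G_mul ih (G_pow (G_rvA q _ n a) _)

theorem G_mono_shift (F : ℕ → B) (s t : ℕ) (h : ℕ) {x : B} (hst : s ≤ t)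
    (hx : x ∈ G (fun k => F (t + k)) h) : x ∈ G (fun k => F (s + k)) h := by
  unfold G at hx ⊢
  refine Submodule.span_mono ?_ hx
  rintro _ ⟨w, hw, rfl⟩
  refine ⟨w.map fun k => t - s + k, by simp [hw], ?_⟩
  rw [List.map_map]
  congr 1
  refine List.map_congr_left fun i _ => ?_
  simp only [Function.comp]
  congr 1
  omega

theorem Tr_mem (N l : ℕ) (q : ℂ) (F : ℕ → B) (n : ℕ) (hn : n ≤ N) :
    Tr N l q F n ∈ G (fun k => F (N - n + k)) (ht n (topE n l)) := by
  induction n with
  | zero => rw [ht_zero]; exact G_one _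
  | succ n ih =>
    rw [Tr, ht_succ]
    refine G_mul ?_ (G_mono_shift F _ _ _ (by omega) (ih (by omega)))
    have := Ur_mem l q F (N - (n + 1)) 0 (n + 1)
    simpa using this

end

end Pool.Agent.Helper4.SQ
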