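import Pool.Agent.Helper4.SQ.GAM0

/-!
Project SQ (MP_bb32d1_al), packet GAM, part 2: the Steinberg scalar.
-/

set_option autoImplicit false

namespace Pool.Agent.Helper4.SQ

open Pool.Agent.Helper19.SQ

section

variable {N l : ℕ} {q : ℂ} {M : Type} [AddCommGroup M] [Module ℂ M] [Module (A N l q) M]
  [IsScalarTower ℂ (A N l q) M]

theorem smul_c (a : A N l q) (c : ℂ) (x : M) : a • (c • x) = c • (a • x) := (lsm a).map_smul c x

/-- `x` is a weight vector of weight `z`. -/
def Wt (N l : ℕ) (q : ℂ) {M : Type} [AddCommGroup M] [Module ℂ M] [Module (A N l q) M]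
    (z : ℕ → ℤ) (x : M) : Prop := ∀ p, p ≤ N → gK N l q p • x = q ^ z p • x

theorem ki_wt (hKI : S_KI) (hP : Par N l q) {z : ℕ → ℤ} {x : M} (h : Wt N l q z x) {p : ℕ}
    (hp : p ≤ N) : ki l (gK N l q) p • x = q ^ (-z p) • x := by
  have h3 := hP.h3
  have hq := qne hP
  obtain ⟨-, g2, -, -, -, -⟩ := hKI _ l (gK N l q) (by omega) (glA N l q).K_comm (glA N l q).K_pow
  have e1 : ki l (gK N l q) p • (gK N l q p • x) = x := by
    rw [← mul_smul, g2, one_smul]
  rw [h p hp, smul_c] at e1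
  have e2 : q ^ (-z p) • (q ^ z p • (ki l (gK N l q) p • x)) = q ^ (-z p) • x := by rw [e1]
  rw [smul_smul, ← zpow_add₀ hq, neg_add_cancel, zpow_zero, one_smul] at e2
  exact e2

theorem kk_wt (hKI : S_KI) (hP : Par N l q) {z : ℕ → ℤ} {x : M} (h : Wt N l q z x) {a b : ℕ}
    (ha : a ≤ N) (hb : b ≤ N) : kk l (gK N l q) a b • x = q ^ (z a - z b) • x := by
  have hq := qne hP
  rw [kk, mul_smul, ki_wt hKI hP h hb, smul_c, h a ha, smul_smul, ← zpow_add₀ hq]
  congr 2
  ring

theorem wt_f (hKG : S_KG) (hP : Par N l q) {z : ℕ → ℤ} {x : M} (h : Wt N l q z x) {a j : ℕ}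
    (haj : a < j) : Wt N l q (fun p => z p - ew p a j) (rv q (gF N l q) a j • x) := by
  intro p hp
  have h3 := hP.h3
  have hq := qne hP
  have e := (hKG _ N l q _ _ _ (by omega) hq (glA N l q) p a j haj).2.1.1
  rw [← mul_smul, e, smul_assoc, mul_smul, h p hp, smul_c, smul_smul, ← zpow_add₀ hq]
  congr 2
  ring

theorem wt_fpow (hKG : S_KG) (hP : Par N l q) {z : ℕ → ℤ} {x : M} (h : Wt N l q z x) {a j : ℕ}
    (haj : a < j) (n : ℕ) :
    Wt N l q (fun p => z p - n * ew p a j) (rv q (gF N l q) a j ^ n • x) := by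
  induction n with
  | zero => simpa using h
  | succ n ih =>
    intro p hp
    rw [pow_succ', mul_smul]
    rw [wt_f hKG hP ih haj p hp]
    congr 2
    push_cast
    ring

theorem q_zl (hP : Par N l q) (e : ℤ) : q ^ ((l : ℤ) * e) = 1 := by
  rw [zpow_mul, zpow_natCast, hP.prim.pow_eq_one, one_zpow]

theorem wt_ftop (hKG : S_KG) (hP : Par N l q) {z : ℕ → ℤ} {x : M} (h : Wt N l q z x) {a j : ℕ}
    (haj : a < j) :
    Wt N l q (fun p => z p + ew p a j) (rv q (gF N l q) a j ^ (l - 1) • x) := by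
  intro p hp
  have h3 := hP.h3
  rw [wt_fpow hKG hP h haj (l - 1) p hp]
  congr 1
  have hq := qne hP
  have e : z p - ((l - 1 : ℕ) : ℤ) * ew p a j = z p + ew p a j + (l : ℤ) * (-ew p a j) := by
    rw [Nat.cast_sub (by omega)]
    push_cast
    ring
  change q ^ (z p - ((l - 1 : ℕ) : ℤ) * ew p a j) = q ^ (z p + ew p a j)
  rw [e, zpow_add₀ hq, q_zl hP, mul_one]

/-- the condition on the vector before the last `n` factors of row `a` are applied. -/
structure Cond (a n : ℕ) (z : ℕ → ℤ) (w : M) : Prop where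
  wt : Wt N l q z w
  c1 : ∀ j, a < j → j ≤ a + n → z a - z j = j - ((a : ℤ) + n) - 1
  c2 : ∀ j k, a < j → j < k → k ≤ a + n → rv q (gF N l q) j k • w = 0
  c3 : ∀ j, a < j → j ≤ a + n → rv q (gE N l q) a j • w = 0

theorem good_gF (hP : Par N l q) : Good N l q (gF N l q) := by
  have h3 := hP.h3
  have hodd := hP.odd
  have hprim := hP.prim
  refine ⟨by omega, qne hP, ?_, ?_, (glA N l q).sF, (glA N l q).F_out, (glA N l q).pF⟩
  · intro h
    have := hprim.dvd_of_pow_eq_one 2 h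
    have := Nat.le_of_dvd (by norm_num) this
    omega
  · intro h
    have h4 : q ^ 4 = 1 := by
      calc q ^ 4 = (q ^ 2) ^ 2 := by ring
        _ = 1 := by rw [h]; norm_num
    have h5 := hprim.dvd_of_pow_eq_one 4 h4
    have h6 := Nat.le_of_dvd (by norm_num) h5
    have h7 : l = 3 := by
      obtain ⟨k, hk⟩ := hodd
      omega
    rw [h7] at h5
    omega

theorem good_gE (hP : Par N l q) : Good N l q (gE N l q) := by
  have h := good_gF hP
  exact ⟨h.hl, h.q0, h.q1, h.q2, (glA N l q).sE, (glA N l q).E_out, (glA N l q).pE⟩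

theorem Cond.step (hROOT : S_ROOT) (hCN : S_CN) (hKG : S_KG) (hKI : S_KI) (hP : Par N l q)
    {a n : ℕ} {z : ℕ → ℤ} {w : M} (hn : a + (n + 1) ≤ N)
    (h : Cond (N := N) (l := l) (q := q) a (n + 1) z w) :
    Cond (N := N) (l := l) (q := q) a n (fun p => z p + ew p a (a + (n + 1)))
      (rv q (gF N l q) a (a + (n + 1)) ^ (l - 1) • w) := by
  have hg := good_gF hP
  have hR := hROOT _ q (gF N l q) hg.q0 hg.q2 hg.ser
  have hC := (hCN _ N l q _ _ _ hP (glA N l q)).2.1
  set k := a + (n + 1) with hk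
  -- `F_jk` kills all `F_ak^s w`
  have z2 : ∀ j, a < j → j < k → ∀ s, rv q (gF N l q) j k • (rv q (gF N l q) a k ^ s • w) = 0 := by
    intro j h1 h2 s
    induction s with
    | zero => simpa using h.c2 j k h1 h2 le_rfl
    | succ s ih =>
      have e := hR.R11 a j k h1 h2
      have e2 : rv q (gF N l q) j k * rv q (gF N l q) a k
          = q⁻¹ • (rv q (gF N l q) a k * rv q (gF N l q) j k) := by
        rw [e, smul_smul, inv_mul_cancel₀ hg.q0, one_smul]
      rw [pow_succ', mul_smul, ← mul_smul, e2, smul_assoc, mul_smul, ih, smul_zero, smul_zero]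
  refine ⟨wt_ftop hKG hP h.wt (by omega), ?_, ?_, ?_⟩
  · intro j h1 h2
    have e := h.c1 j h1 (by omega)
    have e1 : ew a a k = 1 := by
      unfold ew
      rw [if_pos rfl, if_neg (by omega)]
      norm_num
    have e2 : ew j a k = 0 := by
      unfold ew
      rw [if_neg (by omega), if_neg (by omega)]
      norm_num
    change z a + ew a a k - (z j + ew j a k) = _
    rw [e1, e2]
    push_cast at e ⊢
    linarith
  · intro j k' h1 h2 h3
    have e : Commute (rv q (gF N l q) j k') (rv q (gF N l q) a k) :=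
      (hR.R8 a k j k' h1 h2 (by omega)).symm
    rw [← mul_smul, (e.pow_right (l - 1)).eq, mul_smul, h.c2 j k' h1 h2 (by omega), smul_zero]
  · intro j h1 h2
    have e : ∀ s, rv q (gE N l q) a j • (rv q (gF N l q) a k ^ s • w) = 0 := by
      intro s
      induction s with
      | zero => simpa using h.c3 j h1 (by omega)
      | succ s ih =>
        have e1 := hC a j k h1 (by omega) hn
        have e2 : rv q (gE N l q) a j * rv q (gF N l q) a k
            = rv q (gF N l q) a k * rv q (gE N l q) a j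
              + (-q)⁻¹ ^ (j - a - 1) • (rv q (gF N l q) j k * kk l (gK N l q) a j) := by
          rw [← e1]; abel
        have e3 := kk_wt hKI hP (wt_fpow hKG hP h.wt (show a < k by omega) s)
          (show a ≤ N by omega) (show j ≤ N by omega)
        rw [pow_succ', mul_smul, ← mul_smul, e2, add_smul, mul_smul, ih, smul_zero, zero_add,
          smul_assoc, mul_smul, e3, smul_c, z2 j h1 (by omega) s, smul_zero, smul_zero]
    exact e (l - 1)

/-- the scalars. -/
noncomputable def hv (q : ℂ) (m s : ℕ) : ℂ :=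
  -((-q)⁻¹ ^ m * (q - q⁻¹)⁻¹) * ((q ^ s - q⁻¹ ^ s) ^ 2 / (q - q⁻¹))

theorem hv_ne (hP : Par N l q) (m s : ℕ) (h1 : 1 ≤ s) (h2 : s < l) : hv q m s ≠ 0 := by
  have hg := good_gF hP
  have hq := hg.q0
  have hqq : q - q⁻¹ ≠ 0 := by
    intro h
    apply hg.q1
    field_simp at h
    linear_combination h
  have hs : q ^ s - q⁻¹ ^ s ≠ 0 := by
    intro h
    have e : q ^ (2 * s) = 1 := by
      have e1 : q ^ s = (q ^ s)⁻¹ := by rw [← inv_pow]; exact sub_eq_zero.1 h
      have e2 : q ^ s * q ^ s = 1 := by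
        nth_rewrite 1 [e1]
        exact inv_mul_cancel₀ (pow_ne_zero _ hq)
      rw [two_mul, pow_add, e2]
    have e3 := hP.prim.dvd_of_pow_eq_one _ e
    have e4 : Nat.Coprime l 2 := hP.odd.coprime_two_right
    have e5 := e4.dvd_of_dvd_mul_left e3
    have := Nat.le_of_dvd (by omega) e5
    omega
  unfold hv
  refine mul_ne_zero (neg_ne_zero.2 (mul_ne_zero (pow_ne_zero _ (inv_ne_zero (neg_ne_zero.2 hq)))
    (inv_ne_zero hqq))) (div_ne_zero (pow_ne_zero _ hs) hqq)

theorem hv_zero (q : ℂ) (m : ℕ) : hv q m 0 = 0 := by simp [hv]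

theorem hv_succ (hq : q ≠ 0) (hqq : q - q⁻¹ ≠ 0) (m s : ℕ) :
    hv q m (s + 1) = hv q m s + ((-q)⁻¹ ^ m * (q - q⁻¹)⁻¹)
      * (q ^ (-1 - 2 * (s : ℤ)) - q ^ (1 + 2 * (s : ℤ))) := by
  have e1 : q ^ (-1 - 2 * (s : ℤ)) = q⁻¹ * q⁻¹ ^ s * q⁻¹ ^ s := by
    rw [show (-1 - 2 * (s : ℤ)) = -(1 + (s : ℤ) + (s : ℤ)) by ring, zpow_neg, zpow_add₀ hq,
      zpow_add₀ hq, zpow_one, zpow_natCast, mul_inv, mul_inv, inv_pow]
  have e2 : q ^ (1 + 2 * (s : ℤ)) = q * q ^ s * q ^ s := by
    rw [show (1 + 2 * (s : ℤ)) = 1 + (s : ℤ) + (s : ℤ) by ring, zpow_add₀ hq,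
      zpow_add₀ hq, zpow_one, zpow_natCast]
  have e3 : q ^ s * q⁻¹ ^ s = 1 := by
    rw [← mul_pow, mul_inv_cancel₀ hq, one_pow]
  have e4 : q * q⁻¹ = 1 := mul_inv_cancel₀ hq
  unfold hv
  rw [e1, e2, pow_succ q s, pow_succ q⁻¹ s]
  generalize q ^ s = X at *
  generalize q⁻¹ ^ s = Y at *
  generalize (-q)⁻¹ ^ m = c at *
  generalize q⁻¹ = r at *
  field_simp
  have e5 : X * Y = 1 := e3
  linear_combination (-c * (X - Y) ^ 2) * e4

end

end Pool.Agent.Helper4.SQ
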