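import Pool.Agent.Helper4.SQ.GoalsR2

/-!
Project SQ (MP_bb32d1_al), stage B, part L (the Lie algebra part), written by helper4: from the
currents `E_c^r`, `F_c^r` to operators `e_ab(z^r t^s)`.

Every goal is a `def S_XX : Prop` with its complete proof in the doc-string.  `⁅X, Y⁆` is the Lie
bracket; for `L = Module.End ℂ V` it is `X * Y - Y * X` (`Ring.lie_def`,
`LieRing.of_associative_ring_bracket`; the instance is `instLieEnd` below).  Jacobi: `leibniz_lie : ⁅x, ⁅y, z⁆⁆ = ⁅⁅x, y⁆, z⁆ + ⁅y, ⁅x, z⁆⁆`,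
`lie_skew`.
-/

set_option autoImplicit false
set_option linter.unusedSectionVars false

namespace Pool.Agent.Helper4.SQ

noncomputable section

open Pool.Agent.Helper19.SQ

/-- the commutator bracket of operators. -/
instance instLieEnd {V : Type} [AddCommGroup V] [Module ℂ V] : LieRing (Module.End ℂ V) :=
  LieRing.ofAssociativeRing

/-! ### definitions -/

section defs

variable {I : Type} {V : Type} [AddCommGroup V] [Module ℂ V]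

/-- the joint weight space. -/
def wsp (h : I → Module.End ℂ V) (m : I → ℤ) : Submodule ℂ V where
  carrier := {v | ∀ x, h x v = ((m x : ℤ) : ℂ) • v}
  add_mem' := by
    intro a b ha hb x
    rw [map_add, ha x, hb x, smul_add]
  zero_mem' := by
    intro x
    rw [map_zero, smul_zero]
  smul_mem' := by
    intro c a ha x
    rw [map_smul, ha x, smul_comm]

theorem mem_wsp {h : I → Module.End ℂ V} {m : I → ℤ} {v : V} :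
    v ∈ wsp h m ↔ ∀ x, h x v = ((m x : ℤ) : ℂ) • v := Iff.rfl

end defs

/-- The currents on `V`. -/
structure Cur (l : ℕ) [NeZero l] (V : Type) [AddCommGroup V] [Module ℂ V] where
  h : ZMod l → Module.End ℂ V
  E : ZMod l → ℕ → Module.End ℂ V
  F : ZMod l → ℕ → Module.End ℂ V
  H : ZMod l → ℕ → Module.End ℂ V
  types : Finset (ZMod l → ℤ)
  span : ⨆ m ∈ types, wsp h m = ⊤
  hh : ∀ x y, ⁅h x, h y⁆ = 0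
  hE : ∀ x c r, ⁅h x, E c r⁆ = ((al c x : ℤ) : ℂ) • E c r
  hF : ∀ x c r, ⁅h x, F c r⁆ = (-((al c x : ℤ) : ℂ)) • F c r
  H0 : ∀ c, H c 0 = h c - h (c + 1)
  EF : ∀ c c' r s, ⁅E c r, F c' s⁆ = if c = c' then H c (r + s) else 0
  HF : ∀ c c' r s, ⁅H c r, F c' s⁆ = (-ac c c') • F c' (r + s)
  HE : ∀ c c' r s, ⁅H c r, E c' s⁆ = ac c c' • E c' (r + s)

/-- elements with the relations of `gl_I`, and the vanishing principle `up`. -/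
structure GLd (I : Type) [DecidableEq I] (L : Type) [LieRing L] [LieAlgebra ℂ L] where
  e : I → I → L
  gl : ∀ a b c d, ⁅e a b, e c d⁆ = (if b = c then e a d else 0) - (if a = d then e c b else 0)
  up : ∀ (x y : I) (β : I → ℤ) (X : L), x ≠ y →
    (∀ z, ⁅e z z, X⁆ = ((β z : ℤ) : ℂ) • X) → 0 < β x - β y → ⁅e y x, X⁆ = 0 → X = 0

section fam

variable {I : Type} [DecidableEq I] {L : Type} [LieRing L] [LieAlgebra ℂ L]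

/-- A family: a copy of the adjoint representation (off-diagonal entries). -/
structure IsFam (G : GLd I L) (U : I → I → L) : Prop where
  rel : ∀ x y c d, x ≠ y → c ≠ d → ¬ (y = c ∧ x = d) →
    ⁅G.e x y, U c d⁆ = (if y = c then U x d else 0) - (if x = d then U c y else 0)
  wt : ∀ z c d, c ≠ d →
    ⁅G.e z z, U c d⁆ = (((if z = c then 1 else 0) - (if z = d then 1 else 0) : ℤ) : ℂ) • U c d
  diag : ∀ a, U a a = 0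

/-- the entries of `U` and `W` commute (except `U_ab`, `W_bc` and `U_ab`, `W_ca`). -/
def ZRel (U W : I → I → L) : Prop :=
  ∀ a b c d, a ≠ b → c ≠ d → b ≠ c → a ≠ d → ⁅U a b, W c d⁆ = 0

end fam

/-! ### the vanishing principle and the relations of the currents -/

/-- **UP0** (packet UP0).  The vanishing principle.
PROOF.  Put `X_0 = X`, `X_{k+1} = ⁅e, X_k⁆`, `λ = β x - β y > 0`.  `⁅h z, X_k⁆ = (β z + k (δ_zx - δ_zy)) X_k`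
(Jacobi), so `⁅h x - h y, X_k⁆ = (λ + 2k) X_k`.  `⁅f, X_k⁆ = -k (λ + k - 1) X_{k-1}` (`k ≥ 1`), by
induction: `⁅f, ⁅e, X_{k-1}⁆⁆ = ⁅⁅f, e⁆, X_{k-1}⁆ + ⁅e, ⁅f, X_{k-1}⁆⁆ = -(λ + 2(k-1)) X_{k-1} -
(k-1)(λ + k - 2) X_{k-1}`.  So if `X_k = 0`, `k ≥ 1`, then `X_{k-1} = 0`, as `k (λ + k - 1) ≠ 0`.  It
remains to see that `X_k = 0` for large `k`.  Let `v ∈ wsp h m`, `m ∈ types`: `h x (X_k v) =
(m x + β x + k) X_k v`.  `h x` has only the eigenvalues `m' x`, `m' ∈ types` (the product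
`P = ∏_{m' ∈ types} (h x - m' x)` is zero, because it is zero on every `wsp h m'` and these span; the
factors commute; if `h x w = μ w` then `0 = P w = ∏ (μ - m' x) w`).  So for `k` larger than all
`m' x - m x - β x` (`m, m' ∈ types`), `X_k v = 0` for all such `v`, and they span `V`. -/
def S_UP0 : Prop :=
  ∀ (I : Type) [DecidableEq I] (V : Type) [AddCommGroup V] [Module ℂ V]
    (h : I → Module.End ℂ V) (types : Finset (I → ℤ)) (_ : ⨆ m ∈ types, wsp h m = ⊤)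
    (x y : I) (_ : x ≠ y) (e f : Module.End ℂ V),
    (∀ z, ⁅h z, e⁆ = (((if z = x then 1 else 0) - (if z = y then 1 else 0) : ℤ) : ℂ) • e) →
    (∀ z, ⁅h z, f⁆ = (((if z = y then 1 else 0) - (if z = x then 1 else 0) : ℤ) : ℂ) • f) →
    ⁅e, f⁆ = h x - h y →
    ∀ (β : I → ℤ) (X : Module.End ℂ V), (∀ z, ⁅h z, X⁆ = ((β z : ℤ) : ℂ) • X) →
      0 < β x - β y → ⁅f, X⁆ = 0 → X = 0

/-- **UPC** (packet MRY): the principle for the currents.  Hypothesis allowed: S_UP0.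
PROOF.  (1) UP0 with `x = c`, `y = c + 1`, `e = E c 0`, `f = F c 0` (`al c z = [z=c] - [z=c+1]`, `EF`, `H0`;
`c ≠ c + 1`).  (2) UP0 with `x = c + 1`, `y = c`, `e = F c 0`, `f = E c 0`. -/
def S_UPC : Prop :=
  ∀ (l : ℕ) [NeZero l] (V : Type) [AddCommGroup V] [Module ℂ V] (T : Cur l V), 2 ≤ l →
    ∀ (c : ZMod l) (β : ZMod l → ℤ) (X : Module.End ℂ V),
    (∀ z, ⁅T.h z, X⁆ = ((β z : ℤ) : ℂ) • X) →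
      (0 < β c - β (c + 1) → ⁅T.F c 0, X⁆ = 0 → X = 0) ∧
      (β c - β (c + 1) < 0 → ⁅T.E c 0, X⁆ = 0 → X = 0)

/-- **MRY** (packet MRY).  Hypothesis allowed: S_UPC.
PROOF.  `F`: all by UPC (2) for the index `c`; `β` is the weight (`⁅h z, ·⁆` is a derivation),
`λ = β c - β (c+1)`; note `al c' c - al c' (c+1) = a_cc'` (`l ≥ 3`).
(3) `X = ⁅F_c^r, F_c^s⁆`, `λ = -4`, `⁅E_c^0, X⁆ = ⁅H_c^r, F_c^s⁆ + ⁅F_c^r, H_c^s⁆ = (-2 + 2) F_c^{r+s} = 0`.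
(4) `X = ⁅F_c^r, F_c'^s⁆`, `λ = -2`, `⁅E_c^0, X⁆ = ⁅H_c^r, F_c'^s⁆ = 0` (`a_cc' = 0`).
(5) `X = ⁅F_c^r, F_c'^s⁆ - ⁅F_c^0, F_c'^{r+s}⁆`, `λ = -1`, `⁅E_c^0, X⁆ = F_c'^{r+s} - F_c'^{r+s} = 0`
(`a_cc' = -1`).
(6) `X = ⁅F_c^r, ⁅F_c^s, F_c'^t⁆⁆`, `λ = -3`, `⁅E_c^0, X⁆ = ⁅H_c^r, ⁅F_c^s, F_c'^t⁆⁆ + ⁅F_c^r, ⁅H_c^s, F_c'^t⁆⁆ =
-2 ⁅F_c^{r+s}, F_c'^t⁆ + ⁅F_c^s, F_c'^{r+t}⁆ + ⁅F_c^r, F_c'^{s+t}⁆`, and all three brackets are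
`⁅F_c^0, F_c'^{r+s+t}⁆` by (5): `0`.
`E`: the same with UPC (1) and `F_c^0`: `⁅F_c^0, E_c^r⁆ = -H_c^r`. -/
def S_MRY : Prop :=
  ∀ (l : ℕ) [NeZero l] (V : Type) [AddCommGroup V] [Module ℂ V] (T : Cur l V), 3 ≤ l →
    ((∀ c r s, ⁅T.F c r, T.F c s⁆ = 0) ∧
    (∀ c c' r s, c' ≠ c → c' ≠ c + 1 → c' ≠ c - 1 → ⁅T.F c r, T.F c' s⁆ = 0) ∧
    (∀ c c' r s, (c' = c + 1 ∨ c' = c - 1) → ⁅T.F c r, T.F c' s⁆ = ⁅T.F c 0, T.F c' (r + s)⁆) ∧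
    (∀ c c' r s t, (c' = c + 1 ∨ c' = c - 1) → ⁅T.F c r, ⁅T.F c s, T.F c' t⁆⁆ = 0)) ∧
    ((∀ c r s, ⁅T.E c r, T.E c s⁆ = 0) ∧
    (∀ c c' r s, c' ≠ c → c' ≠ c + 1 → c' ≠ c - 1 → ⁅T.E c r, T.E c' s⁆ = 0) ∧
    (∀ c c' r s, (c' = c + 1 ∨ c' = c - 1) → ⁅T.E c r, T.E c' s⁆ = ⁅T.E c 0, T.E c' (r + s)⁆) ∧
    (∀ c c' r s t, (c' = c + 1 ∨ c' = c - 1) → ⁅T.E c r, ⁅T.E c s, T.E c' t⁆⁆ = 0))

/-! ### matrix units -/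

/-- **MUA** (packet MUA).  Matrix units from Chevalley generators.  Hypotheses allowed: S_ROOT
(with `q = 1`).
PROOF.  For `q = 1`: `rv 1 E i j = ⁅E i, rv 1 E (i+1) j⁆` (`i + 1 < j`), `rvo 1 F i j = ⁅rvo 1 F (i+1) j, F i⁆`.
Put `e i j = rv 1 E i j`, `e j i = rvo 1 F i j` for `i < j`, `e i i = h i`.  Call `(a,b)` (`a, b ≤ N`) good
if `⁅e a b, e c d⁆ = [b=c] e a d - [a=d] e c b` for all `c, d ≤ N`.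
(1) If `(a,b)`, `(b,c)` are good, `a ≠ c`, then `(a,c)` is good: `e a c = ⁅e a b, e b c⁆`, and Jacobi:
`⁅e a c, e x y⁆ = ⁅e a b, ⁅e b c, e x y⁆⁆ - ⁅e b c, ⁅e a b, e x y⁆⁆ = [c=x] ⁅e a b, e b y⁆ - [b=y] ⁅e a b, e x c⁆
- [b=x] ⁅e b c, e a y⁆ + [a=y] ⁅e b c, e x b⁆`; insert goodness and compare
(`[c=x][b=y]`-terms etc. cancel): `[c=x] e a y - [a=y] e x c`.
(2) `(x,x)` is good: `⁅h x, e c d⁆ = ([x=c] - [x=d]) e c d` by induction on `|c - d|` from `hE`, `hF`,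
`hh`.
(3) `(c, c+1)` is good, `c < N`, i.e. for `P_xy = rv 1 E x y`, `Q_xy = rvo 1 F x y` (`x < y`):
`⁅E c, P_xy⁆ = [c+1=x] P_cy - [c=y] P_{x,c+1}`: `c + 1 = x`: definition; `c = y`: R3; `c = x`, `x+1 < y`: R4;
`c = x`, `y = x + 1`: `0`; `c + 1 = y`, `x < c`: R5; `x < c`, `c + 1 < y`: R6; else R2 (RootRel 1 E from
S_ROOT).
`⁅E c, Q_xy⁆`: by induction on `y - x`, `Q_xy = ⁅Q_{x+1,y}, F x⁆`, `⁅E c, Q_xy⁆ = ⁅⁅E c, Q_{x+1,y}⁆, F x⁆ +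
⁅Q_{x+1,y}, ⁅E c, F x⁆⁆`: it is `h_c - h_{c+1}` for `x = c`, `y = c+1`; `-Q_{c+1,y}` for `x = c`, `y > c+1`
(`⁅Q_{x+1,y}, h x - h (x+1)⁆ = -Q_{x+1,y}` by (2)); `Q_{x,c}` for `y = c + 1`, `x < c` (for `x + 1 = c`:
`⁅h c - h (c+1), F x⁆ = F x`); `0` otherwise (for `c = x + 1`, `y > x+2`: `⁅-Q_{x+2,y}, F x⁆ = 0`, as `F x`
commutes with `F k`, `k ≥ x + 2`).  This is `[c+1=y] e c x - [c=x] e y (c+1)` (`e y x = Q_xy`).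
`⁅E c, h x⁆ = ([c+1=x] - [c=x]) E c`.
(4) `(c+1, c)` is good: apply (3) in the opposite algebra `Bᵐᵒᵖ` to `E' = op F`, `F' = op E`, `h' = op h`
(`⁅op a, op b⁆ = - op ⁅a, b⁆`; all the relations hold again; `rv 1 (op F) i j = op (rvo 1 F i j)`,
`rvo 1 (op E) i j = op (rv 1 E i j)`), or repeat the computation.
(5) By (1) and induction all `(a,b)` with `a ≠ b` are good: `e a b = ⁅e a (a+1), e (a+1) b⁆` for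
`a + 1 < b`, `e b a = ⁅e b (a+1), e (a+1) a⁆`. -/
def S_MUA : Prop :=
  ∀ (B : Type) [Ring B] [Algebra ℂ B] (N : ℕ) (E F h : ℕ → B),
    SerreRel (1 : ℂ) E → SerreRel (1 : ℂ) F →
    (∀ i, N ≤ i → E i = 0 ∧ F i = 0) →
    (∀ i j, i < N → j < N → ⁅E i, F j⁆ = if i = j then h i - h (i + 1) else 0) →
    (∀ x i, i < N → ⁅h x, E i⁆ = (((if x = i then 1 else 0) - (if x = i + 1 then 1 else 0) : ℤ) : ℂ)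
      • E i) →
    (∀ x i, i < N → ⁅h x, F i⁆ = (((if x = i + 1 then 1 else 0) - (if x = i then 1 else 0) : ℤ) : ℂ)
      • F i) →
    (∀ x y, ⁅h x, h y⁆ = 0) →
    ∃ e : ℕ → ℕ → B, (∀ a, e a a = h a) ∧
      (∀ i, i < N → e i (i + 1) = E i ∧ e (i + 1) i = F i) ∧
      ∀ a b c d, a ≤ N → b ≤ N → c ≤ N → d ≤ N →
        ⁅e a b, e c d⁆ = (if b = c then e a d else 0) - (if a = d then e c b else 0)

/-- **MU** (packet MU).  Hypotheses allowed: S_MUA, S_MRY, S_UP0.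
PROOF.  MUA with `N = l - 1`, `E i = T.E i 0`, `F i = T.F i 0` for `i < N` (`(i : ZMod l)`), `0` for `i ≥ N`, and
`h i = T.h i` for `i ≤ N` (`0` for `i > N`).  `SerreRel 1`: far: MRY (4) for `i + 1 < j < N` (then
`(j : ZMod l) ≠ i, i ± 1`, as `2 ≤ j - i ≤ l - 2`); `s1`, `s2`: `E_i² E_{i+1} - 2 E_i E_{i+1} E_i + E_{i+1} E_i² =
⁅E_i, ⁅E_i, E_{i+1}⁆⁆` (MRY (6)).  `G.e a b = e a.val b.val` (`a.val < l`, `(a.val : ZMod l) = a`).  For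
`c ≠ -1`: `c.val + 1 < l`, `(c + 1).val = c.val + 1`.  `up`: UP0 for `x ≠ y` with `e = G.e x y`,
`f = G.e y x`, all hypotheses are cases of `gl`. -/
def S_MU : Prop :=
  ∀ (l : ℕ) [NeZero l] (V : Type) [AddCommGroup V] [Module ℂ V] (T : Cur l V), 4 ≤ l →
    ∃ G : GLd (ZMod l) (Module.End ℂ V), (∀ a, G.e a a = T.h a) ∧
      ∀ c, c ≠ -1 → G.e c (c + 1) = T.E c 0 ∧ G.e (c + 1) c = T.F c 0

/-- **GEN** (packet GEN).  No hypotheses.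
PROOF.  (1) Induction on `b.val - a.val`: `b = a + 1`: `G.e a b = T.E a 0` (`a ≠ -1` as `a.val < b.val`).
Otherwise `G.e a b = ⁅G.e a (a+1), G.e (a+1) b⁆` (`gl`, `a ≠ b`), and both commute with `X` (Jacobi);
`(a+1).val = a.val + 1`.  (2) `G.e a b = ⁅G.e a (b+1), G.e (b+1) b⁆` for `b + 1 ≠ a`. -/
def S_GEN : Prop :=
  ∀ (l : ℕ) [NeZero l] (V : Type) [AddCommGroup V] [Module ℂ V] (T : Cur l V), 2 ≤ l →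
    ∀ G : GLd (ZMod l) (Module.End ℂ V),
    (∀ c, c ≠ -1 → G.e c (c + 1) = T.E c 0 ∧ G.e (c + 1) c = T.F c 0) →
    ∀ (X : Module.End ℂ V) (a b : ZMod l),
      (a.val < b.val → (∀ c : ZMod l, a.val ≤ c.val → c.val < b.val → ⁅T.E c 0, X⁆ = 0) →
        ⁅G.e a b, X⁆ = 0) ∧
      (b.val < a.val → (∀ c : ZMod l, b.val ≤ c.val → c.val < a.val → ⁅T.F c 0, X⁆ = 0) →
        ⁅G.e a b, X⁆ = 0)

/-! ### families -/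

/-- **FAM** (packet FAM).  No hypotheses.
PROOF.  Notation `e_ab = G.e a b`, `(*)` is the hypothesis.
(0) `⁅e_ai, ⁅e_bi, u⁆⁆ = 0` for `a, b ∉ {i,j}` (also `a = b`): let `X` be the left side, it has the
weight `β = δ_a + δ_b - δ_i - δ_j`.  `up` for `x = a`, `y = i`: `β a - β i ≥ 2`.  `⁅e_ia, X⁆ =
⁅e_ii - e_aa, ⁅e_bi, u⁆⁆ + ⁅e_ai, ⁅e_ia, ⁅e_bi, u⁆⁆⁆` and `⁅e_ia, ⁅e_bi, u⁆⁆ = ⁅⁅e_ia, e_bi⁆, u⁆ + ⁅e_bi, ⁅e_ia, u⁆⁆`,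
`⁅e_ia, u⁆ = 0` by `(*)`.  `a ≠ b`: `⁅e_ia, e_bi⁆ = -e_ba`, `⁅e_ba, u⁆ = 0` by `(*)`, and the weight
`δ_b - δ_j` of `⁅e_bi, u⁆` gives `0` for `e_ii - e_aa`.  `a = b`: `⁅e_ia, e_ai⁆ = e_ii - e_aa`, which acts on
`u` by `1`, so the second term is `⁅e_ai, u⁆`; the first is `-⁅e_ai, u⁆`.  So `⁅e_ia, X⁆ = 0`, `X = 0`.
Put `c_i = u`, `c_a = ⁅e_ai, u⁆` for `a ∉ {i,j}`.
(1) for `a, x ≠ j`, `x ≠ y`: `⁅e_xy, c_a⁆ = [y=a] c_x`.  `a = i`: `y ≠ i`: `(*)`; `y = i`: definition.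
`a ≠ i`: `⁅e_xy, ⁅e_ai, u⁆⁆ = ⁅[y=a] e_xi - [x=i] e_ay, u⁆ + ⁅e_ai, ⁅e_xy, u⁆⁆`.  `y = a`, `x ≠ i`: `c_x + 0`
(`⁅e_xa, u⁆ = 0`).  `y = a`, `x = i`: `⁅e_ii - e_aa, u⁆ + 0 = u = c_i`.  `y ≠ a`, `x = i`: `-⁅e_ay, u⁆ +
⁅e_ai, ⁅e_iy, u⁆⁆ = 0` (`y ≠ i`).  `y ≠ a`, `x ≠ i`: `⁅e_ai, ⁅e_xy, u⁆⁆`, `0` by `(*)` if `y ≠ i`, by (0) if
`y = i`.
(2) weight of `c_a` (`a ≠ j`): `δ_a - δ_j`.
Put `U_aj = c_a`, `U_ab = ⁅c_a, e_jb⁆` for `a, b ≠ j`, `a ≠ b`.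
(3) `x ≠ j`, `x ≠ y`, `a, b ≠ j`, `a ≠ b`: `⁅e_xy, U_ab⁆ = ⁅⁅e_xy, c_a⁆, e_jb⁆ + ⁅c_a, ⁅e_xy, e_jb⁆⁆`.
`y ≠ j`: `= [y=a] ⁅c_x, e_jb⁆ - [x=b] ⁅c_a, e_jy⁆`, so `[y=a] U_xb - [x=b] U_ay` if not both `y = a`,
`x = b`.  `y = j`: `⁅e_xj, c_a⁆ = 0` by (1), and `⁅c_a, e_xb - [x=b] e_jj⁆`: for `x ≠ b` it is
`-⁅e_xb, c_a⁆ = 0` (`a ≠ b`), for `x = b` it is `-⁅e_bb - e_jj, c_a⁆ = -c_a = -U_aj`.
(4) for `a ≠ j`, `a', b ∉ {j, a}` (`a' = b` allowed): `X = ⁅U_aa', e_jb⁆ = ⁅⁅c_a, e_ja'⁆, e_jb⁆ = 0`.  Weight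
`β = δ_a + δ_j - δ_a' - δ_b`, `up` for `x = j`, `y = a'`: `β j - β a' ≥ 2`.  `⁅e_a'j, X⁆`: `⁅e_a'j, c_a⁆ = 0` by
(1); `⁅e_a'j, e_ja'⁆ = e_a'a' - e_jj`, `⁅c_a, e_a'a' - e_jj⁆ = -c_a`, contribution `-⁅c_a, e_jb⁆`; if `b ≠ a'`:
`⁅e_a'j, e_jb⁆ = e_a'b`, contribution `⁅⁅c_a, e_ja'⁆, e_a'b⁆ = ⁅c_a, ⁅e_ja', e_a'b⁆⁆ + ⁅⁅c_a, e_a'b⁆, e_ja'⁆ =
⁅c_a, e_jb⁆ + 0`; if `b = a'`: contribution `⁅U_aa', e_a'a' - e_jj⁆ = U_aa' = ⁅c_a, e_ja'⁆` (weight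
`δ_a - δ_a'`).  Sum `0`.
(5) for `b ≠ j` and `a ∉ {j,b}` put `U_jb = ⁅e_ja, U_ab⁆`; it does not depend on `a`: with
`d_a = ⁅e_ja, c_a⁆`, `⁅e_ja, U_ab⁆ = ⁅d_a, e_jb⁆` (`⁅e_ja, e_jb⁆ = 0`), and `d_a' - d_a = ⁅e_a'a, ⁅e_ja', c_a⁆⁆ =
-⁅e_a'a, U_aa'⁆` (`c_a' = ⁅e_a'a, c_a⁆`, `⁅e_ja', e_a'a⁆ = e_ja`), `⁅⁅e_a'a, U_aa'⁆, e_jb⁆ = ⁅e_a'a, ⁅U_aa', e_jb⁆⁆ +
⁅⁅e_a'a, e_jb⁆, U_aa'⁆ = 0` by (4) (`⁅e_a'a, e_jb⁆ = 0`; `b ∉ {a, a', j}`).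
Put `U_aa = 0`.  The relations `rel` for `⁅e_xy, U_cd⁆`:
`c, d ≠ j`, `x ≠ j`: (3).  `c, d ≠ j`, `x = j` (`y ≠ j`): `y = c`: definition of `U_jd`; `y ≠ c`: `0` by (4).
`d = j`, `x ≠ j`: (1) (for `y = j`: `0`; the term `[x=d]` is `0`).  `d = j`, `x = j`: `⁅e_jy, c_c⁆ = -U_cy`
(definition, `y ≠ c`).
`c = j`: `U_jd = ⁅e_ja, U_ad⁆` with `a ∉ {j, d, x, y}` (five elements).  `x, y ≠ j`: `⁅e_xy, e_ja⁆ = 0`,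
`⁅e_xy, U_ad⁆ = -[x=d] U_ay`: `-[x=d] U_jy`.  `y = j`, `x ≠ d`: `⁅e_xa, U_ad⁆ + ⁅e_ja, ⁅e_xj, U_ad⁆⁆ =
U_xd + 0`.  `x = j`: `⁅e_ja, ⁅e_jy, U_ad⁆⁆ = 0` (`y ≠ a`).
`wt`: weights add.  `U_ij = c_i = u`. -/
def S_FAM : Prop :=
  ∀ (I : Type) [Fintype I] [DecidableEq I] (L : Type) [LieRing L] [LieAlgebra ℂ L]
    (G : GLd I L), 5 ≤ Fintype.card I → ∀ (i j : I) (u : L), i ≠ j →
    (∀ z, ⁅G.e z z, u⁆ = (((if z = i then 1 else 0) - (if z = j then 1 else 0) : ℤ) : ℂ) • u) →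
    (∀ a b, a ≠ b → b ≠ i → a ≠ j → ⁅G.e a b, u⁆ = 0) →
    ∃ U : I → I → L, IsFam G U ∧ U i j = u

/-- **FEQ** (packet FEQ).  No hypotheses.
PROOF.  (1) `U_xb = ⁅e_xa, U_ab⁆` for `x ∉ {a,b}`; then `U_xy = ⁅U_xb, e_by⁆ = -⁅e_by, U_xb⁆` for
`x ≠ b`, `y ∉ {x, b}`; and `U_by = ⁅e_bx, U_xy⁆` for `y ≠ b`, `x ∉ {b,y}`.  So `U` is determined by `U_ab`;
`diag`.
(2) `D_ab = ⁅e_ab, U_ba⁆`.  For `x ∉ {a,b}`, `U_ba = ⁅e_bx, U_xa⁆`, `D_ab = ⁅⁅e_ab, e_bx⁆, U_xa⁆ +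
⁅e_bx, ⁅e_ab, U_xa⁆⁆ = ⁅e_ax, U_xa⁆ - ⁅e_bx, U_xb⁆ = D_ax - D_bx`.  With `a, b` exchanged: `D_ba = -D_ab`,
i.e. `⁅e_ba, U_ab⁆ = -⁅e_ab, U_ba⁆`, which is the claim. -/
def S_FEQ : Prop :=
  ∀ (I : Type) [Fintype I] [DecidableEq I] (L : Type) [LieRing L] [LieAlgebra ℂ L]
    (G : GLd I L), 3 ≤ Fintype.card I → ∀ U : I → I → L, IsFam G U →
    (∀ U' : I → I → L, IsFam G U' → ∀ a b, a ≠ b → U a b = U' a b → U = U') ∧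
    ∀ a b, a ≠ b → ⁅G.e a b, U b a⁆ = ⁅U a b, G.e b a⁆

/-- **QUAD** (packet ZL).  Combinatorics of quadruples; no hypotheses.
PROOF.  If `(a,b,c,d)` is a distinct quadruple with `P` and `f` a fifth element, then the entry at any
place may be replaced by `f`.  Two entries may be exchanged: `(a,b,c,d) → (f,b,c,d) → (f,a,c,d) →
(b,a,c,d)`, similarly for other places.  To reach `(a',b',c',d')`: make the first entry `a'` (if `a'` is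
not in the quadruple, replace; if it is at another place, exchange), then the second entry `b'`
(`b' ≠ a'`; not touching the first), then the third, then the fourth. -/
def S_QUAD : Prop :=
  ∀ (I : Type) [Fintype I] [DecidableEq I] (P : I → I → I → I → Prop), 5 ≤ Fintype.card I →
    (∀ a b c d f, [a, b, c, d, f].Nodup → P a b c d →
      P f b c d ∧ P a f c d ∧ P a b f d ∧ P a b c f) →
    ∀ a b c d, [a, b, c, d].Nodup → P a b c d →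
    ∀ a' b' c' d', [a', b', c', d'].Nodup → P a' b' c' d'

/-- **ZL** (packet ZL).  Hypothesis allowed: S_QUAD.
PROOF.  `P a b c d := ⁅U a b, W c d⁆ = 0` for distinct quadruples.  Replacing an entry by a fifth element
`f`: `⁅e_fa, ⁅U_ab, W_cd⁆⁆ = ⁅U_fb, W_cd⁆ + 0`; `⁅e_bf, ⁅U_ab, W_cd⁆⁆ = -⁅U_af, W_cd⁆`; the same for `c`, `d`.
So (QUAD) it is `0` for all distinct quadruples.  Let `a ≠ b`, `c ≠ d`, `b ≠ c`, `a ≠ d`, not distinct: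
then `a = c` or `b = d`.
`b = d`, `a ≠ c`: `x ∉ {a,b,c}`, `W_cb = ⁅W_cx, e_xb⁆`, `⁅U_ab, ⁅W_cx, e_xb⁆⁆ = ⁅⁅U_ab, W_cx⁆, e_xb⁆ +
⁅W_cx, ⁅U_ab, e_xb⁆⁆ = 0 + 0`.  `a = c` (`b = d` or not): `x ∉ {a,b,d}`, `W_ad = ⁅e_ax, W_xd⁆`,
`⁅U_ab, ⁅e_ax, W_xd⁆⁆ = ⁅⁅U_ab, e_ax⁆, W_xd⁆ + ⁅e_ax, ⁅U_ab, W_xd⁆⁆ = 0`, the second by the cases already
done (`x ≠ a`). -/
def S_ZL : Prop :=
  ∀ (I : Type) [Fintype I] [DecidableEq I] (L : Type) [LieRing L] [LieAlgebra ℂ L]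
    (G : GLd I L), 5 ≤ Fintype.card I → ∀ U W : I → I → L, IsFam G U → IsFam G W →
    ∀ a b c d, [a, b, c, d].Nodup → ⁅U a b, W c d⁆ = 0 → ZRel U W

/-- **PR** (packet PR): products of families.  No hypotheses.
PROOF.  (1) independence of `b`: let `b, b' ∉ {a,c}`, `b ≠ b'`, `a ≠ c`.  `0 = ⁅U_ab, W_b'c⁆`; apply
`⁅e_bb', ·⁆`: `0 = -⁅U_ab', W_b'c⁆ + ⁅U_ab, W_bc⁆`.  So `P_ac = ⁅U_ab, W_bc⁆` (`a ≠ c`), `P_aa = 0`, is well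
defined.  `rel`: for `⁅e_xy, P_cd⁆` choose `b ∉ {c,d,x,y}`: `P_cd = ⁅U_cb, W_bd⁆`, `⁅e_xy, U_cb⁆ = [y=c] U_xb`,
`⁅e_xy, W_bd⁆ = -[x=d] W_by`, so `⁅e_xy, P_cd⁆ = [y=c] P_xd - [x=d] P_cy`.  `wt`: clear.
(2) `ZRel P X`: by S_ZL it would be enough to have one quadruple, but directly: `⁅P_ab, X_cd⁆` with
`a ≠ b`, `c ≠ d`, `b ≠ c`, `a ≠ d`; choose `y ∉ {a,b,c,d}`: `P_ab = ⁅U_ay, W_yb⁆`, and `⁅U_ay, X_cd⁆ = 0`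
(`y ≠ c`, `a ≠ d`), `⁅W_yb, X_cd⁆ = 0` (`b ≠ c`, `y ≠ d`).
(3) `ZRel` is symmetric (`lie_skew`).
(4) associativity: with distinct `a, b, c, d`: `⁅P_ac, X_cd⁆ = ⁅⁅U_ab, W_bc⁆, X_cd⁆ = ⁅U_ab, ⁅W_bc, X_cd⁆⁆ -
⁅W_bc, ⁅U_ab, X_cd⁆⁆ = ⁅U_ab, R_bd⁆ - 0` (`U_ab`, `X_cd`: `b ≠ c`, `a ≠ d`).  Both sides of the claim are
independent of the middle index ((1) for `P`, `X` and for `U`, `R`, which are in `ZRel` by (2)). -/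
def S_PR : Prop :=
  ∀ (I : Type) [Fintype I] [DecidableEq I] (L : Type) [LieRing L] [LieAlgebra ℂ L]
    (G : GLd I L), 5 ≤ Fintype.card I → ∀ U W : I → I → L, IsFam G U → IsFam G W →
    ZRel U W →
    (∃ P : I → I → L, IsFam G P ∧
      ∀ a b c, a ≠ b → b ≠ c → a ≠ c → ⁅U a b, W b c⁆ = P a c) ∧
    ZRel W U ∧
    (∀ P X : I → I → L, (∀ a b c, a ≠ b → b ≠ c → a ≠ c → ⁅U a b, W b c⁆ = P a c) →
      ZRel U X → ZRel W X → ZRel P X) ∧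
    (∀ P X R Q Q' : I → I → L, IsFam G X → ZRel U X → ZRel W X →
      (∀ a b c, a ≠ b → b ≠ c → a ≠ c → ⁅U a b, W b c⁆ = P a c) →
      (∀ a b c, a ≠ b → b ≠ c → a ≠ c → ⁅W a b, X b c⁆ = R a c) →
      (∀ a b c, a ≠ b → b ≠ c → a ≠ c → ⁅P a b, X b c⁆ = Q a c) →
      (∀ a b c, a ≠ b → b ≠ c → a ≠ c → ⁅U a b, R b c⁆ = Q' a c) →
      ∀ a c, a ≠ c → Q a c = Q' a c)

/-- **KK** (packet KK): the commutative monoid generated by a set of families.  Hypotheses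
allowed: S_PR, S_FEQ.
PROOF.  Let `1 = ` the family `e` (off-diagonal entries of `G.e`, `0` on the diagonal): `IsFam` by
`gl`, `ZRel 1 X` for every family `X` (this is the zero case of `rel`).  Let `K` be the smallest set of
functions containing `1`, `S`, and with `U, W ∈ K` every family `P` with `⁅U a b, W b c⁆ = P a c` for
distinct `a, b, c` (an inductive predicate).  By induction all members are families and pairwise in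
`ZRel` (PR (2), (3)).  The product of `U, W ∈ K` exists (PR (1)), is unique (its off-diagonal entries
are given), is in `K`; it is associative (PR (4)), `1` is a unit: `⁅e_ab, U_bc⁆ = U_ac = ⁅U_ab, e_bc⁆`.
Commutativity: first `U ∈ S`, `W ∈ K` by induction on `W` (`S`: hypothesis; `1`; product:
`U (W W') = (U W) W' = (W U) W' = W (U W') = W (W' U) = (W W') U`), then `U ∈ K` by induction on `U` in the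
same way.  `M = {U // U ∈ K}`, `f` = the inclusion. -/
def S_KK : Prop :=
  ∀ (I : Type) [Fintype I] [DecidableEq I] (L : Type) [LieRing L] [LieAlgebra ℂ L]
    (G : GLd I L), 5 ≤ Fintype.card I → ∀ S : Set (I → I → L), (∀ X ∈ S, IsFam G X) →
    (∀ X ∈ S, ∀ Y ∈ S, ZRel X Y) →
    (∀ X ∈ S, ∀ Y ∈ S, ∀ a b c, a ≠ b → b ≠ c → a ≠ c → ⁅X a b, Y b c⁆ = ⁅Y a b, X b c⁆) →
    ∃ (M : Type) (_ : CommMonoid M) (f : M → I → I → L), Function.Injective f ∧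
      (∀ m, IsFam G (f m)) ∧ (∀ m m', ZRel (f m) (f m')) ∧
      (∀ m m' a b c, a ≠ b → b ≠ c → a ≠ c → ⁅f m a b, f m' b c⁆ = f (m * m') a c) ∧
      (∀ a b, a ≠ b → f 1 a b = G.e a b) ∧ ∀ X ∈ S, ∃ m, f m = X

/-! ### the families of the currents -/

/-- **LF1** (packet LF1): the families.  Hypotheses allowed: S_FAM, S_GEN, S_MRY.
PROOF.  `z = -1`, `z.val = l - 1`.  `G` is given by S_MU.  Apply FAM with `G`.  We check `(*)`: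
`⁅e_ab, u⁆ = 0` for `a ≠ b`, `b ≠ i`, `a ≠ j`; GEN reduces `e_ab` to the `E_c^0`, `a.val ≤ c.val < b.val`
(`a.val < b.val`), resp. the `F_c^0`, `b.val ≤ c.val < a.val`; in both cases `c ≠ z`.
(1) `u = F_z^r`, `(i,j) = (0,z)`.  `a < b`: `⁅E_c^0, F_z^r⁆ = 0`.  `a > b`: `b ≠ 0`, `a ≠ z`, so
`1 ≤ c.val ≤ l - 3` and `c` is not `z`, `z ± 1`: MRY (4).
(2) `u = E_z^r`, `(i,j) = (z,0)`.  `a > b`: `⁅F_c^0, E_z^r⁆ = 0`.  `a < b`: `a ≠ 0`, `b ≠ z`,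
`1 ≤ c.val ≤ l - 3`: MRY (4).
(3) `u = E_0^r`, `(i,j) = (0,1)`.  `a > b`: `b ≠ 0`, so `c ≠ 0`, `⁅F_c^0, E_0^r⁆ = 0`.  `a < b`, `a ≠ 0`: as
`a ≠ 1`, `2 ≤ c.val ≤ l - 2`: MRY (4).  `a = 0`, `b = 1`: MRY (3).  `a = 0`, `b = 2`: `e_02 = ⁅E_0^0, E_1^0⁆`,
`⁅⁅E_0^0, E_1^0⁆, E_0^r⁆ = ⁅E_0^0, ⁅E_1^0, E_0^r⁆⁆ - ⁅E_1^0, ⁅E_0^0, E_0^r⁆⁆ = 0` (MRY (6), (3)).  `a = 0`,
`b.val ≥ 3`: `e_0b = ⁅e_02, e_2b⁆`, and `e_2b` commutes with `E_0^r`.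
The weights: `hE`, `hF`. -/
def S_LF1 : Prop :=
  ∀ (l : ℕ) [NeZero l] (V : Type) [AddCommGroup V] [Module ℂ V] (T : Cur l V), 5 ≤ l →
    ∀ G : GLd (ZMod l) (Module.End ℂ V), (∀ a, G.e a a = T.h a) →
    (∀ c, c ≠ -1 → G.e c (c + 1) = T.E c 0 ∧ G.e (c + 1) c = T.F c 0) →
    ∀ r : ℕ, (∃ U, IsFam G U ∧ U 0 (-1) = T.F (-1) r) ∧ (∃ U, IsFam G U ∧ U (-1) 0 = T.E (-1) r) ∧
      (∃ U, IsFam G U ∧ U 0 1 = T.E 0 r)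

/-- **LF2** (packet LF2): the entries of the families `Z^r`.  Hypotheses allowed: S_FEQ, S_MRY,
S_UPC.
PROOF.  (1) `Z_{c,c+1} = E_c^r` for `c ≠ -1`, by induction on `c.val`: `c = 0` is the hypothesis.  Step
`c → c + 1` (`c + 1 ≠ -1`): `X = Z_{c+1,c+2} - E_{c+1}^r` has the weight `δ_{c+1} - δ_{c+2}`, so
`β c - β (c+1) = -1 < 0`, and `⁅E_c^0, X⁆ = ⁅e_{c,c+1}, Z_{c+1,c+2}⁆ - ⁅E_c^0, E_{c+1}^r⁆ = Z_{c,c+2} -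
⁅E_c^r, E_{c+1}^0⁆` (MRY (5), twice) `= Z_{c,c+2} - ⁅Z_{c,c+1}, e_{c+1,c+2}⁆ = 0`.  UPC (2): `X = 0`.
(2) `Z_{c+1,c} = F_c^r`: `X = Z_{c+1,c} - F_c^r`, weight `δ_{c+1} - δ_c`, `β c - β (c+1) = -2`;
`⁅E_c^0, Z_{c+1,c}⁆ = ⁅Z_{c,c+1}, e_{c+1,c}⁆` (FEQ (2)) `= ⁅E_c^r, F_c^0⁆ = H_c^r = ⁅E_c^0, F_c^r⁆`.  UPC (2). -/
def S_LF2 : Prop :=
  ∀ (l : ℕ) [NeZero l] (V : Type) [AddCommGroup V] [Module ℂ V] (T : Cur l V), 5 ≤ l →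
    ∀ G : GLd (ZMod l) (Module.End ℂ V), (∀ a, G.e a a = T.h a) →
    (∀ c, c ≠ -1 → G.e c (c + 1) = T.E c 0 ∧ G.e (c + 1) c = T.F c 0) →
    ∀ (r : ℕ) (Z : ZMod l → ZMod l → Module.End ℂ V), IsFam G Z → Z 0 1 = T.E 0 r →
      ∀ c, c ≠ -1 → Z c (c + 1) = T.E c r ∧ Z (c + 1) c = T.F c r

/-- **LF3** (packet LF3): the relations between the families.  Hypotheses allowed: S_ZL, S_GEN,
S_MRY, S_FEQ, S_LF2.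
PROOF.  `z = -1`; `0, 1, 2, z` and `z - 1` (`≥ 3` in `val`) are distinct.  By ZL one quadruple is
enough.
(1) `ZRel Z^r Z^s`: `⁅Z^r_01, Z^s_23⁆ = ⁅E_0^r, E_2^s⁆ = 0` (LF2, MRY (4); `l ≥ 5`).
(2) `ZRel Z^r U`: `⁅Z^r_12, U_0z⁆ = ⁅E_1^r, F_z^0⁆ = 0`.  (3) `ZRel Z^r W`: `⁅Z^r_21, W_z0⁆ = ⁅F_1^r, E_z^0⁆ = 0`.
(4) `ZRel U U`: `U_0z = F_z^0`, `U_1z = ⁅e_10, U_0z⁆ = ⁅F_0^0, F_z^0⁆`, `U_{0,z-1} = ⁅U_0z, e_{z,z-1}⁆ =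
⁅F_z^0, F_{z-1}^0⁆`; by MRY (6) `⁅U_0z, U_1z⁆ = 0` and `⁅U_0z, U_{0,z-1}⁆ = 0`.  Apply `⁅e_{z,z-1}, ·⁆` to the
first: `-⁅U_{0,z-1}, U_1z⁆ - ⁅U_0z, U_{1,z-1}⁆ = 0`; `⁅e_10, ·⁆` to the second: `⁅U_1z, U_{0,z-1}⁆ +
⁅U_0z, U_{1,z-1}⁆ = 0`.  With `A = ⁅U_0z, U_{1,z-1}⁆`, `B = ⁅U_{0,z-1}, U_1z⁆`: `B + A = 0` and
`-B + A = 0`, so `A = 0`.
(5) `ZRel W W`: in the same way (`W_z0 = E_z^0`, `W_z1 = ⁅W_z0, e_01⁆ = ⁅E_z^0, E_0^0⁆`, `W_{z-1,0} =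
⁅e_{z-1,z}, W_z0⁆ = ⁅E_{z-1}^0, E_z^0⁆`).
(6) `ZRel U W`: for distinct `c, d ∉ {0,z}` `W_cd = ⁅⁅e_cz, W_z0⁆, e_0d⁆`; `F = F_z^0` commutes with `e_cz`, `e_0d`
(GEN: `⁅E_k^0, F_z^0⁆ = 0`), `⁅F, E_z^0⁆ = -(h z - h 0)`, so `⁅F, W_cd⁆ = -⁅⁅e_cz, h z - h 0⁆, e_0d⁆ =
-⁅e_cz, e_0d⁆ = 0`.
(7) products (by FEQ (1) a product is determined by one entry; PR gives that it is a family, but here
only the following entries are needed): `⁅U_0z, W_zd⁆ = e_0d`: `W_zd = ⁅E_z^0, e_0d⁆`, `⁅F, ⁅E_z^0, e_0d⁆⁆ =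
⁅-(h z - h 0), e_0d⁆ = e_0d` (`d ∉ {0,z}`).  `⁅W_z0, U_0d⁆ = e_zd`: `U_0d = ⁅F, e_zd⁆`, `⁅E_z^0, ⁅F, e_zd⁆⁆ =
⁅h z - h 0, e_zd⁆ + ⁅F, ⁅E_z^0, e_zd⁆⁆ = e_zd + 0` (GEN).
(8) `⁅Z^r_01, Z^s_12⁆ = ⁅E_0^r, E_1^s⁆ = ⁅E_0^{r+s}, E_1^0⁆ = Z^{r+s}_02`.
(9) Let `P` be a family with `P_0z = F_z^r`: `P_1z = ⁅e_10, P_0z⁆ = ⁅F_0^0, F_z^r⁆ = ⁅F_0^r, F_z^0⁆ =
⁅Z^r_10, U_0z⁆`, `P_{0,z-1} = ⁅P_0z, e_{z,z-1}⁆ = ⁅F_z^r, F_{z-1}^0⁆ = ⁅F_z^0, F_{z-1}^r⁆ = ⁅U_0z, Z^r_{z,z-1}⁆`.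
(10) Let `Q` be a family with `Q_z0 = E_z^r`: `Q_{z-1,0} = ⁅e_{z-1,z}, Q_z0⁆ = ⁅E_{z-1}^0, E_z^r⁆ =
⁅E_{z-1}^r, E_z^0⁆ = ⁅Z^r_{z-1,z}, W_z0⁆`, `Q_z1 = ⁅Q_z0, e_01⁆ = ⁅E_z^r, E_0^0⁆ = ⁅E_z^0, E_0^r⁆ =
⁅W_z0, Z^r_01⁆`. -/
def S_LF3 : Prop :=
  ∀ (l : ℕ) [NeZero l] (V : Type) [AddCommGroup V] [Module ℂ V] (T : Cur l V), 5 ≤ l →
    ∀ G : GLd (ZMod l) (Module.End ℂ V), (∀ a, G.e a a = T.h a) →
    (∀ c, c ≠ -1 → G.e c (c + 1) = T.E c 0 ∧ G.e (c + 1) c = T.F c 0) →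
    ∀ (U W : ZMod l → ZMod l → Module.End ℂ V), IsFam G U → IsFam G W →
    U 0 (-1) = T.F (-1) 0 → W (-1) 0 = T.E (-1) 0 →
    ∀ Z : ℕ → ZMod l → ZMod l → Module.End ℂ V, (∀ r, IsFam G (Z r)) →
    (∀ r, Z r 0 1 = T.E 0 r) →
      ((∀ r s, ZRel (Z r) (Z s)) ∧ (∀ r, ZRel (Z r) U) ∧ (∀ r, ZRel (Z r) W) ∧ ZRel U U ∧
        ZRel W W ∧ ZRel U W) ∧
      ((⁅U 0 (-1), W (-1) 1⁆ = G.e 0 1 ∧ ⁅W (-1) 0, U 0 1⁆ = G.e (-1) 1) ∧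
      (∀ r s, ⁅Z r 0 1, Z s 1 2⁆ = Z (r + s) 0 2) ∧
      (∀ r P, IsFam G P → P 0 (-1) = T.F (-1) r →
        P 1 (-1) = ⁅Z r 1 0, U 0 (-1)⁆ ∧ P 0 (-1 - 1) = ⁅U 0 (-1), Z r (-1) (-1 - 1)⁆) ∧
      (∀ r Q, IsFam G Q → Q (-1) 0 = T.E (-1) r →
        Q (-1 - 1) 0 = ⁅Z r (-1 - 1) (-1), W (-1) 0⁆ ∧ Q (-1) 1 = ⁅W (-1) 0, Z r 0 1⁆))

/-- The loop operators `e_ab(z^r t^s)`. -/
structure Loop {l : ℕ} [NeZero l] {V : Type} [AddCommGroup V] [Module ℂ V] (T : Cur l V) where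
  e : ZMod l → ZMod l → ℕ → ℤ → Module.End ℂ V
  mul : ∀ a b c r s r' s', a ≠ b → b ≠ c → a ≠ c →
    ⁅e a b r s, e b c r' s'⁆ = e a c (r + r') (s + s')
  com : ∀ a b c d r s r' s', a ≠ b → c ≠ d → b ≠ c → a ≠ d → ⁅e a b r s, e c d r' s'⁆ = 0
  wt : ∀ x a b r s, a ≠ b →
    ⁅T.h x, e a b r s⁆ = (((if x = a then 1 else 0) - (if x = b then 1 else 0) : ℤ) : ℂ) • e a b r s
  sl : ∀ a b, a ≠ b → ⁅e a b 0 0, e b a 0 0⁆ = T.h a - T.h b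
  E_eq : ∀ c r, c ≠ -1 → e c (c + 1) r 0 = T.E c r
  F_eq : ∀ c r, c ≠ -1 → e (c + 1) c r 0 = T.F c r
  Ez_eq : ∀ r, e (-1) 0 r (-1) = T.E (-1) r
  Fz_eq : ∀ r, e 0 (-1) r 1 = T.F (-1) r
  nil : ∀ K, (∀ r, K ≤ r → T.E 0 r = 0) → ∀ a b r s, a ≠ b → K ≤ r → e a b r s = 0

/-- **LOOP** (packet LOOP).  Hypotheses allowed: S_MU, S_LF1, S_LF2, S_LF3, S_PR, S_FEQ, S_KK.
PROOF.  `G` from MU; families `Z^r` (`Z^r_01 = E_0^r`), `U` (`U_0z = F_z^0`), `W` (`W_z0 = E_z^0`), `P^r`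
(`P^r_0z = F_z^r`), `Q^r` (`Q^r_z0 = E_z^r`) from LF1.  All products below exist (PR) and are determined by
one entry (FEQ (1)).  By LF3: `Z^r Z^s = Z^{r+s}` (so they commute), `U W = 1 = W U`, `Z^r U = P^r = U Z^r`,
`Z^r W = Q^r = W Z^r`, `Z^0 = 1` (`Z^0_01 = E_0^0 = e_01`).  So KK applies to
`S = {Z^r} ∪ {U, W}`: a commutative monoid `M`, elements `ζ_r` with `f ζ_r = Z^r`, `ζ_r ζ_s = ζ_{r+s}`,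
`ζ_0 = 1` (injectivity of `f`, FEQ), `υ, ω` with `υ ω = 1`; let `t : Mˣ` be the unit `υ` with inverse `ω`.
`e a b r s = f (ζ_r * t^s) a b`.  `mul`, `com`: KK.  `wt`: `IsFam.wt`.  `sl`: `e a b 0 0 = G.e a b` and `gl`.
`E_eq`, `F_eq`: LF2.  `Fz_eq`: `ζ_r υ` is `P^r`; `Ez_eq`: `ζ_r ω` is `Q^r`.  `nil`: for `r ≥ K`, `Z^r_01 = 0`, so
`Z^r = 0` (FEQ (1) with the family `0`), and a product with it is `0` (its off-diagonal entries are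
brackets with `0`). -/
def S_LOOP : Prop :=
  ∀ (l : ℕ) [NeZero l] (V : Type) [AddCommGroup V] [Module ℂ V] (T : Cur l V), 5 ≤ l →
    Nonempty (Loop T)

end

end Pool.Agent.Helper4.SQ
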