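import Pool.Agent.Helper41.SQ.NBasic
import Pool.Agent.Helper19.SQ.GoalsQ2
import Pool.Agent.Helper19.SQ.GoalsB

/-!
Project SQ (MP_bb32d1_al), stage B, part Q (captain helper4): the crossing `Sc` of `V (x) V`,
the structure `CoreP` for `u_q(gl_n)`, the relation `(D)`:
`delta(pi_k) = pi_k - (q^k - q^{-k})^2 X^k`, the operators on traces.

Every goal is a `def S_XX : Prop` with its complete proof in the doc-string.  Deliver
`Pool/Agent/<YourSeat>/SQ/XX.lean`, importing this file, with a theorem `sXX : S_XX` (as hypotheses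
you may take other goals `(h : S_YY)` that are named as allowed).
All the identities with numbers were checked by computer for `n = 2, 3`, `l = 5`.
`ω` is `q - q⁻¹`; `w_i = q^{-2i}` is `q⁻¹ ^ (2 * i)`.
-/

set_option autoImplicit false
set_option linter.unusedSectionVars false

namespace Pool.Agent.Helper4.SQ

noncomputable section

open Matrix Pool.Agent.Helper19.SQ Pool.Agent.Helper34.SQ Pool.Agent.Helper41.SQ

/-! ### matrices of numbers -/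

/-- The crossing on `V (x) V`: `v_i v_i ↦ q v_i v_i`, `v_i v_j ↦ v_j v_i + [i < j] ω v_i v_j`
(`y` = column = the argument). -/
def Scm (N : ℕ) (q : ℂ) :
    Matrix (Fin (N + 1) × Fin (N + 1)) (Fin (N + 1) × Fin (N + 1)) ℂ := Matrix.of fun x y =>
  (if x.1 = y.2 ∧ x.2 = y.1 then (if y.1 = y.2 then q else 1) else 0)
    + (if x = y ∧ y.1 < y.2 then (q - q⁻¹) else 0)

/-- rows `(p,r)`, columns `(b,s)`: the number `rho(L_pb)_rs`, `rho = V`: `diag(q^{[s=p]})` for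
`p = b`, `ω e_bp` for `b < p`. -/
def VLm (N : ℕ) (q : ℂ) :
    Matrix (Fin (N + 1) × Fin (N + 1)) (Fin (N + 1) × Fin (N + 1)) ℂ := Matrix.of fun x y =>
  if x.1 = y.1 then (if x.2 = y.2 then (if y.2 = y.1 then q else 1) else 0)
  else if y.1 < x.1 then (if x.2 = y.1 ∧ y.2 = x.1 then (q - q⁻¹) else 0) else 0

/-- rows `(p,r)`, columns `(b,s)`: the number `rho(Y_pb)_rs`, `rho = V`: `diag(q^{[s=p]})` for
`p = b`, `ω e_bp` for `p < b`. -/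
def VYm (N : ℕ) (q : ℂ) :
    Matrix (Fin (N + 1) × Fin (N + 1)) (Fin (N + 1) × Fin (N + 1)) ℂ := Matrix.of fun x y =>
  if x.1 = y.1 then (if x.2 = y.2 then (if y.2 = y.1 then q else 1) else 0)
  else if x.1 < y.1 then (if x.2 = y.1 ∧ y.2 = x.1 then (q - q⁻¹) else 0) else 0

/-- **SCQ** (packet SCQ).  Identities between matrices of numbers; no hypotheses.
PROOF.  Entries.  (1) As an operator on functions, `(Sc f)(i,j) = g(i,j) f(j,i) + [i<j] ω f(i,j)`,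
`g(i,j) = q` if `i = j`, else `1` (row `x = (i,j)`: the columns `y = (j,i)` and `y = (i,j)`).  So
`Sc² f (i,i) = q² f(i,i) = (1 + ω q) f(i,i)`; `i < j`: `Sc² f (i,j) = (Sc f)(j,i) + ω (Sc f)(i,j) =
f(i,j) + ω (Sc f)(i,j)`; `i > j`: `(Sc f)(j,i) = f(i,j) + ω f(j,i) = f(i,j) + ω (Sc f)(i,j)`.
(2) `T (b,d) (a,c)`: `a = c`: `[b=d] ([b=a] q⁻¹ - [a<b] ω)`, and `(Sc - ω) (d,a) (b,a) = [d=a=b] q +
[d=b,b<a] ω - [d=b] ω`; equal (`q - ω = q⁻¹`).  `a ≠ c`: `[b=c,d=a]` and `(Sc - ω) (d,c) (b,a) =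
[d=a,c=b]` (then `b ≠ a`; the other terms need `c = a`).
(3) `a = k`: `S (x,y) (a,a) = [x=y] ([x=a] q + [a<x] ω q^{2(x-a)})`, `Sc (a,x) (a,y) = [a=x=y] q +
[x=y,a<y] ω`; and `q^{-2y} q^{2(y-a)} = q^{-2a}`.  `a ≠ k`: `S = [x=k,y=a]`, `Sc (a,x) (k,y) =
[a=y,x=k]` (`k ≠ y`).
(4) `(q⁻¹ ^ (2 i))⁻¹ = q ^ (2 i)`.
(5) `(T u) (i,k) = ∑_p T (i,k) (p,p) (-ω q^{2p}) = [i=k] (q⁻¹ (-ω q^{2i}) + ∑_{p<i} ω ω q^{2p})` and
`ω ∑_{p<i} q^{2p} = q^{2i-1} - q^{-1}` (induction), so it is `[i=k] (-ω q⁻¹)`. -/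
def S_SCQ : Prop := ∀ (N : ℕ) (q : ℂ), q ≠ 0 →
  Scm N q * Scm N q = 1 + (q - q⁻¹) • Scm N q ∧
  (∀ a b c d : Fin (N + 1), Tmat N q (b, d) (a, c)
    = (Scm N q - (q - q⁻¹) • (1 : Matrix (Fin (N + 1) × Fin (N + 1))
        (Fin (N + 1) × Fin (N + 1)) ℂ)) (d, c) (b, a)) ∧
  (∀ a x k y : Fin (N + 1), q⁻¹ ^ (2 * (y : ℕ)) * Smat N q (x, y) (a, k)
    = q⁻¹ ^ (2 * (a : ℕ)) * Scm N q (a, x) (k, y)) ∧
  (∀ (l : ℕ) (x : Fin (N + 1) × Fin (N + 1)), uvec N l q x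
    = if x.1 = x.2 then (-(q - q⁻¹) * (q⁻¹ ^ (2 * (x.1 : ℕ)))⁻¹) • (1 : A N l q) else 0) ∧
  (∀ (l : ℕ) (x : Fin (N + 1) × Fin (N + 1)), (sc (A N l q) (Tmat N q) *ᵥ uvec N l q) x
    = if x.1 = x.2 then (-(q - q⁻¹) * q⁻¹) • (1 : A N l q) else 0)

/-- **SCB** (packet SCB).  The braid relation; no hypotheses.
PROOF.  Two matrices `M, M'` are equal if `M *ᵥ f = M' *ᵥ f` for all `f`.  With
`g(a,b) = if a = b then q else 1`:
`(r12 Sc *ᵥ f) (a,b,c) = g(a,b) f(b,a,c) + [a<b] ω f(a,b,c)`,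
`(r23 Sc *ᵥ f) (a,b,c) = g(b,c) f(a,c,b) + [b<c] ω f(a,b,c)` (sums over `Fin × (Fin × Fin)`,
`Fintype.sum_prod_type`, `Finset.sum_eq_single`; two columns contribute).  Expand both triple products
at `(a,b,c)`; then distinguish the order of `a, b, c` (`lt_trichotomy` for the three pairs, 13
consistent cases; substitute equalities) and compare: an identity between numbers, `ring` after
`ω = q - q⁻¹` (and `q * q⁻¹ = 1`). -/
def S_SCB : Prop := ∀ (N : ℕ) (q : ℂ), q ≠ 0 →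
  r12 (Scm N q) * r23 (Scm N q) * r12 (Scm N q) = r23 (Scm N q) * r12 (Scm N q) * r23 (Scm N q)

/-! ### `delta` of `L`, `Y`, `X` -/

/-- **DLL** (packet DLL).  Entries of `delta(L)`.  Model: `Pool/Agent/Helper81/SQ/EL.lean` (the same for
`eps`); hypotheses allowed: S_CR, S_VRV, S_VREP, S_KI, S_HF, S_KG (all proved, see
`Pool/Agent/Helper4/SQ/QMain.lean`).
PROOF.  In `Mat N (A N l q)` take `E1 = sc (vE N ·)`, `K1 = sc (vK N q ·)`, `E2 = diagonal (gE ·)`,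
`K2 = diagonal (gK ·)`; `D.dl (gE i) = cE l E1 K1 E2 i`, `D.dl (gK j) = K1 j * K2 j` (entries).  CR with
`b < a`, times `D.dl (gK a) = K'_a K''_a`, `η = 1 - q⁻²`:
`δ(L_ab) = (η E'_ba K'_a) K''_a + ∑_{b<p<a} (η E'_bp K'_p)(η E''_pa K''_a) + K'_b (η E''_ba K''_a)`
(`k'_pa K'_a = K'_p`), i.e. `∑_p ρ(L_pb) L_ap` with `ρ(L_pb) = η E'_bp K'_p = η q e_bp = ω e_bp` (`b < p`;
VRV: `E'_bp = e_bp`, and `K'_p v_p = q v_p`), `ρ(L_bb) = K'_b`.  `a = b`: clear; `a < b`: both sides `0`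
(`p ≥ b > a`). -/
def S_DLL : Prop := ∀ (N l : ℕ) (q : ℂ), Par N l q → ∀ (D : Dl N l q) (a b r s : Fin (N + 1)),
  D.dl (Lent q (gE N l q) (gK N l q) a b) r s
    = ∑ p : Fin (N + 1), VLm N q (p, r) (b, s) • Lent q (gE N l q) (gK N l q) a p

/-- **DLY** (packet DLY).  Entries of `delta(Y)`.  Model: `Pool/Agent/Helper50/SQ/EY.lean` (the same
for `eps`); hypotheses allowed: S_CO, S_VRV, S_VREP, S_KI, S_KG.
PROOF.  As DLL, with CO: `D.dl (gF i) = cF l F1 K2 F2 i`, `F1 = sc (vF N ·)`, `F2 = diagonal (gF ·)`.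
`a < b`, `η = 1 - q⁻²`: `δ(Y_ab) = ω K'_a K''_a F°_ab = K'_a (ω K''_a F''°_ab) + ∑_{a<p<b} ω η K'_a F'°_ap
K''_a F''°_pb K''_a⁻¹ K''_p + ω K'_a F'°_ab K''_b`, and `K''_a F''°_pb K''_a⁻¹ K''_p = F''°_pb K''_p =
q K''_p F''°_pb`, `η q = ω`: the middle terms are `(ω K'_a F'°_ap)(ω K''_p F''°_pb)`.  So
`δ(Y_ab) = ∑_p ρ(Y_ap) Y_pb`, `ρ(Y_ap) = ω K'_a F'°_ap = ω e_pa` (`a < p`; VRV: `F'°_ap = e_pa`, `K'_a v_p = v_p`),
`ρ(Y_aa) = K'_a`. -/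
def S_DLY : Prop := ∀ (N l : ℕ) (q : ℂ), Par N l q → ∀ (D : Dl N l q) (a b r s : Fin (N + 1)),
  D.dl (Yent q (gF N l q) (gK N l q) a b) r s
    = ∑ p : Fin (N + 1), VYm N q (a, r) (p, s) • Yent q (gF N l q) (gK N l q) p b

/-- **SCX** (packet SCX).  Hypotheses allowed: S_DLL, S_DLY.
PROOF.  `Phi D.dl X` has the entry `δ(X_ab)_rs` at `((a,r),(b,s))`.  `δ(X_ab)_rs = ∑_c δ(Y_ac L_cb)_rs =
∑_{c,t} δ(Y_ac)_rt δ(L_cb)_ts = ∑_{t,p,p'} ρ(Y_ap)_rt (∑_c Y_pc L_cp') ρ(L_p'b)_ts`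
(numbers commute with everything), and `∑_c Y_pc L_cp' = X_pp'`.  Further
`VYm (a,r) (p,t) = Scm (a,r) (t,p)` and `VLm (p',t) (b,s) = Scm (t,p') (b,s)` (cases; for the second:
`p' = b`: `[t=s] (q if s = b)`; `b < p'`: `t = b`, `s = p'`, `b < s`).  The right side has the entry
`∑_{(t,p),(t',p')} Scm (a,r) (t,p) [t = t'] X_pp' Scm (t',p') (b,s)`. -/
def S_SCX : Prop := ∀ (N l : ℕ) (q : ℂ), Par N l q → ∀ (D : Dl N l q),
  Phi D.dl (Xm N l q) = sc (A N l q) (Scm N q) * X1 (Xm N l q) * sc (A N l q) (Scm N q)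

/-- **SCD** (packet SCD).  Model: `Pool/Agent/Helper64/SQ/SD.lean` and SE, SF of helpers 35, 60; no
hypotheses needed.
PROOF.  Both sides are compatible with products and sums in `a` (`Phi D.dl` and `D.dl` are algebra
maps), so it is enough to check generators (`A_induction`).  Write `(i,j)` for `v_i v_j`.
`Phi δ (δ E_k) = sc M + diagonal (q^{pr(a,k) + pr(r,k)} E_k)` (index `(a,r)`), where
`M (v_i v_j) = [j=k+1] q^{pr(i,k)} v_i v_k + [i=k+1] v_k v_j` (`M` is `0` if `k ≥ N`).  `Sc` commutes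
with the diagonal matrix: `Sc x y ≠ 0` only if `y = x` or `y = swap x`, and the entry is symmetric.
`Sc M = M Sc` on `v_i v_j` (`Sc v_i v_i = q v_i v_i`, `Sc v_i v_j = v_j v_i + [i<j] ω v_i v_j`):
`i = j = k+1`: `Sc (q⁻¹ v_{k+1} v_k + v_k v_{k+1}) = (q⁻¹ + ω) v_k v_{k+1} + v_{k+1} v_k = q (..)`.
`i = k, j = k+1`: `Sc M = q² v_k v_k`, `M Sc = M (v_{k+1} v_k + ω v_k v_{k+1}) = (1 + ω q) v_k v_k`.
`i = k+1, j = k`: `q v_k v_k` and `M (v_k v_{k+1}) = q v_k v_k`.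
`i ∉ {k,k+1}, j = k+1`: `v_k v_i + [i<k] ω v_i v_k` and `v_k v_i + [i<k+1] ω v_i v_k`.
`i = k+1, j ∉ {k,k+1}`: `v_j v_k + [k<j] ω v_k v_j` and `v_j v_k + [k+1<j] ω v_k v_j`.
Otherwise both are `0` (also after the swap).
`Phi δ (δ F_k) = diagonal (F_k) + sc M' * diagonal (K_{k+1} K_k⁻¹)`, because
`δ(K_{k+1} K_k⁻¹) = diag(q^{-pr(r,k)}) K_{k+1} K_k⁻¹` (`q^(l-1) = q⁻¹`), where
`M' (v_i v_j) = [j=k] v_i v_{k+1} + [i=k] q^{-pr(j,k)} v_{k+1} v_j`.  `Sc M' = M' Sc`: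
`i = j = k`: `Sc (v_k v_{k+1} + q⁻¹ v_{k+1} v_k) = v_{k+1} v_k + (ω + q⁻¹) v_k v_{k+1} = q (..)`.
`i = k, j = k+1`: `Sc (q v_{k+1} v_{k+1}) = q² ..`, `M' (v_{k+1} v_k + ω v_k v_{k+1}) = (1 + ω q) ..`.
`i = k+1, j = k`: `q v_{k+1} v_{k+1}` and `M' (v_k v_{k+1}) = q v_{k+1} v_{k+1}`.  `j = k, i ∉ {k,k+1}`:
`v_{k+1} v_i + [i<k+1] ω v_i v_{k+1}` and `v_{k+1} v_i + [i<k] ω v_i v_{k+1}`.  `i = k, j ∉ {k,k+1}`:
`v_j v_{k+1} + [k+1<j] ω v_{k+1} v_j` and `v_j v_{k+1} + [k<j] ω v_{k+1} v_j`.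
`Phi δ (δ K_m) = diagonal (q^{[a=m]+[r=m]} K_m)`: symmetric in `(a,r)`. -/
def S_SCD : Prop := ∀ (N l : ℕ) (q : ℂ), Par N l q → ∀ (D : Dl N l q) (a : A N l q),
  sc (A N l q) (Scm N q) * Phi D.dl (D.dl a) = Phi D.dl (D.dl a) * sc (A N l q) (Scm N q)

/-- **XINV** (packet SCQ or by helper4).  No hypotheses.
PROOF.  `g = 1 - (1 - u^l)^K`: `g(0) = 0` (`l ≥ 1`), and `g(X) = 1 - (-1)^K (X^l - 1)^K = 1`. -/
def S_XINV : Prop := ∀ (B : Type) [Ring B] [Algebra ℂ B] (l K : ℕ) (X : B), 1 ≤ l →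
  (X ^ l - 1) ^ K = 0 → ∃ g : Polynomial ℂ, g.coeff 0 = 0 ∧ Polynomial.aeval X g = 1

/-! ### the structure `CoreQ` and the relation `(D)` -/

/-- `CoreP` together with the values of the constants and the formula `v = cap X1 T`. -/
structure CoreQ {A : Type} [Ring A] [Algebra ℂ A] {ι : Type} [Fintype ι] [DecidableEq ι]
    (C : Core0 A ι) (q : ℂ) extends CoreP C where
  q_ne : q ≠ 0
  ωq : ω = q - q⁻¹
  κ1q : κ1 = -(q - q⁻¹)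
  κ2q : κ2 = -(q - q⁻¹) * q⁻¹
  v_eq : C.v = Matrix.vecMul (fun x : ι × ι => if x.1 = x.2 then C.w x.1 • (1 : A) else 0)
    (X1 C.X * sc A C.T)

/-- **COREP** (assembly; helper4). -/
def S_COREP : Prop := ∀ (N l : ℕ) [NeZero l] (q : ℂ) (D : Dl N l q) (hl : l ≠ 0) (s : ℕ → ℂˣ)
  (C : Core0 (A N l q) (Fin (N + 1))), Par N l q → IsC0 D hl s C → Nonempty (CoreQ C q)

/-- **CORE2** (helper4): CORE with the properties of the polynomials `p_c`. -/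
def S_CORE2 : Prop :=
  ∀ (N l : ℕ) [NeZero l] (q : ℂ) (D : Dl N l q) (hl : l ≠ 0) (s : ℕ → ℂˣ)
    (C0 : Core0 (A N l q) (Fin (N + 1))), Par N l q → Function.Injective (tw N s) →
    IsC0 D hl s C0 →
    ∃ (C : Core (A N l q) (Fin (N + 1)) l) (K : ℕ), C.toCore0 = C0 ∧ C.types = typs N l ∧
      IsBl N l q hl s C.e ∧ (C.X ^ l - 1) ^ K = 0 ∧
      (∀ c c', (C.pc c).eval (qz q (2 * c')) = if c = c' then 1 else 0) ∧
      (∀ c, (Polynomial.X ^ l - 1) ^ K ∣ C.pc c ^ 2 - C.pc c) ∧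
      (∀ c, (Polynomial.X ^ l - 1) ^ K ∣ Polynomial.derivative (C.pc c))

/-- **PCX** (packet PCX).  Further properties of the polynomials `p_c`.  No hypotheses.
PROOF.  `ω_c = qz q (2 c)`, `ω_{c+1} = q² ω_c` (`qz_add`; `qz q 2 = q^2` by `qz_nat`), the `ω_c` are the
`l` different roots of `u^l - 1` (`qz2_inj`, `qz_pow_l`), `u^l - 1 = ∏_c (u - ω_c)` (see the proof of
S_PC in `Pool/Agent/*/SQ`), the factors are pairwise coprime.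
(a) If a polynomial `f` is divisible by `(u - ω_c)^K` for all `c`, it is divisible by `(u^l - 1)^K`
(`Finset.prod_dvd_of_coprime`).
(b) `(u - ω_d)^K` divides `p_c - [c = d]`: it divides `p_c (p_c - 1)`, and the factor that does not
vanish at `ω_d` is coprime to `(u - ω_d)^K`.
(1) modulo `(u - ω_d)^K`: `p_c p_c' ≡ [c=d][c'=d] = [c=c'][c=d] ≡ [c=c'] p_c`.
(2) `∑_c p_c ≡ ∑_c [c=d] = 1`.
(3) `(u - ω_c)^K p_c`: modulo `(u - ω_d)^K`, `d = c`: `0`; `d ≠ c`: `p_c ≡ 0`.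
(4) `p_c(q² u) - p_{c-1}(u)`: put `u ↦ q² u` in (b) for `d + 1`: `(q² u - ω_{d+1})^K = q^{2K} (u - ω_d)^K`
divides `p_c(q² u) - [c = d+1]`, and `p_{c-1}(u) ≡ [c-1 = d]`.
(5) the same with `q⁻² u - ω_{d-1} = q⁻² (u - ω_d)`. -/
def S_PCX : Prop :=
  ∀ (l : ℕ) [NeZero l] (q : ℂ), IsPrimitiveRoot q l → Odd l → ∀ (K : ℕ)
    (p : ZMod l → Polynomial ℂ),
    (∀ c c', (p c).eval (qz q (2 * c')) = if c = c' then 1 else 0) →
    (∀ c, (Polynomial.X ^ l - 1) ^ K ∣ p c ^ 2 - p c) →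
      (∀ c c', (Polynomial.X ^ l - 1 : Polynomial ℂ) ^ K
        ∣ p c * p c' - if c = c' then p c else 0) ∧
      ((Polynomial.X ^ l - 1 : Polynomial ℂ) ^ K ∣ (∑ c, p c) - 1) ∧
      (∀ c, (Polynomial.X ^ l - 1 : Polynomial ℂ) ^ K
        ∣ (Polynomial.X - Polynomial.C (qz q (2 * c))) ^ K * p c) ∧
      (∀ c, (Polynomial.X ^ l - 1 : Polynomial ℂ) ^ K
        ∣ (p c).comp (Polynomial.C (q ^ 2) * Polynomial.X) - p (c - 1)) ∧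
      (∀ c, (Polynomial.X ^ l - 1 : Polynomial ℂ) ^ K
        ∣ (p c).comp (Polynomial.C (q⁻¹ ^ 2) * Polynomial.X) - p (c + 1))

/-- **RPOW** (packet RPOW).  No hypotheses.
PROOF.  (1) `r b^k = a^k r + ω ∑_{i ≥ 1, i+j=k} b^i a^j` by induction on `k`: `r b = (1 + ω r) a r =
a r + ω b`; `r b^{k+1} = (a^k r + ω ∑ b^i a^j) b = a^k (a r + ω b) + ω ∑ b^{i+1} a^j` (`a b = b a`).
(2) for `k ≥ 1`: `b^k = r a (r b^{k-1}) = r a^k r + ω ∑_{i,j ≥ 1, i+j=k} r b^i a^j`, and insert (1) for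
`r b^i`: `= r a^k r + ω ∑_{i,j≥1} a^i r a^j + ω² ∑_{i' ≥ 1, j' ≥ 0, j ≥ 1, i'+j'+j = k} b^{i'} a^{j'+j}`; for
`j'+j = t` there are `t` pairs. -/
def S_RPOW : Prop := ∀ (B : Type) [Ring B] [Algebra ℂ B] (r a : B) (w : ℂ),
  r * r = 1 + w • r → a * (r * a * r) = (r * a * r) * a → ∀ k : ℕ, 1 ≤ k →
    (r * a * r) ^ k = r * a ^ k * r
      + w • ∑ i ∈ Finset.Ico 1 k, a ^ i * r * a ^ (k - i)
      + (w ^ 2) • ∑ i ∈ Finset.Ico 1 k, ((k - i : ℕ) : ℂ) • ((r * a * r) ^ i * a ^ (k - i))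

/-- the partial quantum trace over the outer (first) index. -/
def qt {A : Type} [Ring A] [Algebra ℂ A] {ι : Type} [Fintype ι] (w : ι → ℂ)
    (M : Matrix (ι × ι) (ι × ι) A) : Matrix ι ι A :=
  Matrix.of fun a b => ∑ p, w p • M (p, a) (p, b)

/-- `c_k = ∑_s w_s (X^k)_ss`. -/
def cq {A : Type} [Ring A] [Algebra ℂ A] {ι : Type} [Fintype ι] [DecidableEq ι]
    (C : Core0 A ι) (k : ℕ) : A := ∑ s, C.w s • (C.X ^ k) s s

/-- **QTR** (packet QTR).  The partial quantum trace.  No hypotheses.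
PROOF.  (1)-(4): expand (`Matrix.mul_apply`, `Fintype.sum_prod_type`; `bd Y` has the entry
`[x.1 = y.1] Y x.2 y.2`).  (5) `∑_p w_p Sc (p,a) (p,b) = w_b ∑_p S (a,b) (p,p)` (`SSc`), and
`u = (S T) u = S (T u)`, `(T u) = κ2 ∑_p e_(p,p)`, so `u_(a,b) = κ2 ∑_p S (a,b) (p,p)`, and `u_(a,b) =
[a=b] κ1 w_a⁻¹`; `κ1 = q κ2`.  (6) entry `(a,b)`: `∑_{p,z,c,c'} w_p Sc (p,a) (z,c) (Sc - ω) (z,c') (p,b) y_cc'`;
`w_p Sc (p,a) (z,c) = w_c S (a,c) (p,z)` (`SSc`), `(Sc - ω) (z,c') (p,b) = T (p,z) (b,c')` (`TSc`), and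
`∑_{p,z} S (a,c) (p,z) T (p,z) (b,c') = [a=b][c=c']` (`ST`). -/
def S_QTR : Prop := ∀ (A : Type) [Ring A] [Algebra ℂ A] (ι : Type) [Fintype ι] [DecidableEq ι]
  (C : Core0 A ι) (q : ℂ) (P : CoreQ C q),
    (∀ M M' : Matrix (ι × ι) (ι × ι) A, qt C.w (M + M') = qt C.w M + qt C.w M') ∧
    (∀ (t : ℂ) (M : Matrix (ι × ι) (ι × ι) A), qt C.w (t • M) = t • qt C.w M) ∧
    (∀ (M : Matrix (ι × ι) (ι × ι) A) (Y : Matrix ι ι A), qt C.w (M * bd Y) = qt C.w M * Y) ∧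
    (∀ (M : Matrix (ι × ι) (ι × ι) A) (Y : Matrix ι ι A), qt C.w (bd Y * M) = Y * qt C.w M) ∧
    qt C.w (sc A P.Sc) = q • (1 : Matrix ι ι A) ∧
    (∀ Y : Matrix ι ι A, qt C.w (sc A P.Sc * bd Y * (sc A P.Sc - P.ω • 1))
      = Matrix.diagonal fun _ => ∑ s, C.w s • Y s s)

/-- **BETA** (packet BETA).  Hypothesis allowed: S_CORE0.
PROOF.  (1) `β_k = v (S X1 T)^k u`, `(S X1 T)^k = S X1^k T` (CORE0 (5) for `p = X^k`, or induction with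
`TS`), `v = cap X1 T` (`v_eq`), `T S = 1`: `β_k = cap X1^{k+1} (T u)`, `X1^{k+1} = X1 (X^{k+1})`, `T u` by
`Tu`: `∑_i w_i (X^{k+1})_ii κ2`.
(2) `β_k` is central (CORE0) and `κ2 ≠ 0` (`ω ≠ 0`, `q ≠ 0`), so `c_{k+1}` is central; `c_0` is a
number. -/
def S_BETA : Prop := ∀ (A : Type) [Ring A] [Algebra ℂ A] (ι : Type) [Fintype ι] [DecidableEq ι]
  (C : Core0 A ι) (q : ℂ) (P : CoreQ C q),
    (∀ k, C.β k = P.κ2 • cq C (k + 1)) ∧ (∀ k a, cq C k * a = a * cq C k)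

/-- **CREC** (packet CREC).  Hypotheses allowed: S_RPOW, S_QTR.
PROOF.  `δ(c_k) = ∑_s w_s δ((X^k)_ss) = qt (Phi δ (X^k))`, and `Phi δ (X^k) = b^k`, `b = Phi δ X = r a r` with
`r = sc Sc`, `a = bd X` (`ScX`), `r² = 1 + ω r` (`ScSc`), `a b = b a` (entries: `X` commutes with
`δ(X_ij)`).  By RPOW and QTR: `qt(r a^k r) = qt(r a^k (r - ω)) + ω qt(r a^k) = c_k + ω q X^k`,
`qt(a^i r a^j) = q X^{i+j}` (`k - 1` terms), `qt(b^i a^j) = δ(c_i) X^j`. -/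
def S_CREC : Prop := ∀ (A : Type) [Ring A] [Algebra ℂ A] (ι : Type) [Fintype ι] [DecidableEq ι]
  (C : Core0 A ι) (q : ℂ) (P : CoreQ C q) (k : ℕ), 1 ≤ k →
    C.δ (cq C k) = Matrix.diagonal (fun _ => cq C k) + (P.ω * q * k) • C.X ^ k
      + (P.ω ^ 2) • ∑ i ∈ Finset.Ico 1 k, ((k - i : ℕ) : ℂ) • (C.δ (cq C i) * C.X ^ (k - i))

/-- **PSER** (packet PSER).  Power series in a commutative ring.  Hypothesis allowed: S_GDER (of
helper41, `Pool/Agent/Helper19/SQ/GoalsB.lean`, proved).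
PROOF.  Put `B = 1 - ∑ β_k z^{k+1}`, `B' = 1 - ∑ β'_k z^{k+1}`, `G = Gser b`, `Π = mk (piv b β)`,
`Π' = mk (piv b' β')`, `S = ∑_{j≥1} j X^j z^j`, `g = 1 - ω² S`.
(1) `hb` says `B G = 1`; GDER: `z G' = Π G`; hence `z B' = - Π B` (differentiate `B G = 1`, multiply by
`z B`): `z dB = - Π B`, and the same for the primed ones.
(2) the recursion `hC`, as power series: `Ĉ = ĉ + ω q S + ω² Ĉ S` (`Ĉ = ∑_{k≥1} C_k z^k`, ...), so
`g Ĉ = ĉ + ω q S`, and `B = 1 - κ2 ĉ`, `B' = 1 - κ2 Ĉ`, `κ2 = -ω q⁻¹`: `g B' = g - κ2 ĉ - κ2 ω q S = B`.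
(3) `x = X z`.  `P = (1 - q² x)(1 - q⁻² x)`, `Q = (1 - x)²`, `S Q = x`, `g Q = Q - ω² x = P` (`2 + ω² =
q² + q⁻²`).  `ρ = ∑_{k≥0} (q^k - q^{-k})² x^k = 1/(1-q² x) + 1/(1-q⁻² x) - 2/(1-x)`, so
`ρ P Q = - (z dP) Q + (z dQ) P` (identity of polynomials in `x` after multiplying the geometric
series), and with `g Q = P`: `ρ g Q² = - (z dg) Q²`; `Q` is a unit (constant coefficient 1):
`g ρ = - z dg`.
(4) from `g B' = B`: `z dB = (z dg) B' + g (z dB')`, i.e. `- Π g B' = - g ρ B' - g Π' B'`; `g B'` is a unit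
(`= B`): `Π = ρ + Π'`.  Compare coefficients. -/
def S_PSER : Prop := ∀ (R : Type) [CommRing R] [Algebra ℂ R] (X : R) (q : ℂ)
  (c C b β b' β' : ℕ → R), q ≠ 0 →
  (∀ k, 1 ≤ k → C k = c k + ((q - q⁻¹) * q * k) • X ^ k
    + ((q - q⁻¹) ^ 2) • ∑ i ∈ Finset.Ico 1 k, ((k - i : ℕ) : ℂ) • (C i * X ^ (k - i))) →
  (∀ k, β k = (-(q - q⁻¹) * q⁻¹) • c (k + 1)) →
  (∀ k, β' k = (-(q - q⁻¹) * q⁻¹) • C (k + 1)) →
  (∀ k, b k = β k + ∑ r ∈ Finset.range k, β r * b (k - 1 - r)) →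
  (∀ k, b' k = β' k + ∑ r ∈ Finset.range k, β' r * b' (k - 1 - r)) →
    ∀ k, piv b' β' k = piv b β k - ((q ^ k - q⁻¹ ^ k) ^ 2) • X ^ k

/-- **DPI** (packet DPI): the relation `(D)`.  Hypotheses allowed: S_CORE0, S_BETA, S_CREC, S_PSER.
PROOF.  Let `R ⊆ Matrix ι ι A` be the algebra generated by `X`, the `δ(z)` and the `diagonal (fun _ => z)`,
`z` central in `A`.  The generators commute: `X δ(z) = δ(z) X` (`Xδ`), `diagonal z` commutes with every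
matrix (`diag_comm`), `δ(z) δ(z') = δ(z') δ(z)`.  So `R` is commutative
(`Algebra.adjoinCommRingOfComm`).  Apply PSER in `R` with `X`, `c_k = diagonal (cq k)`, `C_k = δ(cq k)`
(CREC), `b_k`, `β_k` = `diagonal` of `C.b k`, `C.β k` and `b'_k`, `β'_k` = `δ` of them (BETA; REL from
CORE0 (11)); the `cq k`, `C.b k`, `C.β k` are central.  `piv` is compatible with algebra maps (`δ`, and
`z ↦ diagonal z`), so the conclusion is (1).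
(2) apply `Z ↦ (∑_p ε(Z_pk)_pi)_(k,i) = vv ε Z` to (1): by `cap0` `∑_p ε(δ(a)_pk)_pi = [i=k] a`, and
`∑_p ε((diagonal a)_pk)_pi = ε(a)_ki`. -/
def S_DPI : Prop := ∀ (A : Type) [Ring A] [Algebra ℂ A] (ι : Type) [Fintype ι] [DecidableEq ι]
  (C : Core0 A ι) (q : ℂ), CoreQ C q → ∀ k,
    C.δ (C.pi k) = Matrix.diagonal (fun _ => C.pi k) - ((q ^ k - q⁻¹ ^ k) ^ 2) • C.X ^ k ∧
    C.ε (C.pi k) = Matrix.diagonal (fun _ => C.pi k)
      + ((q ^ k - q⁻¹ ^ k) ^ 2) • vv C.ε (C.X ^ k)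

end

end Pool.Agent.Helper4.SQ
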