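import Pool.Agent.Helper4.SQ.QAsm

/-!
Project SQ (MP_bb32d1_al), stage B, helper4: the abstract data `AbsData` for the space of
invariant traces.
-/

set_option autoImplicit false
set_option linter.unusedSectionVars false

namespace Pool.Agent.Helper4.SQ

noncomputable section

open Pool.Agent.Helper19.SQ Pool.Agent.Helper34.SQ Pool.Agent.Helper41.SQ

variable {N l : ℕ} [NeZero l] {q : ℂ} {hl : l ≠ 0} {s : ℕ → ℂˣ} {D : Dl N l q}
  {C : Core (A N l q) (Fin (N + 1)) l} {K : ℕ}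

/-- the standing situation. -/
structure Sett2 (N l : ℕ) [NeZero l] (q : ℂ) (hl : l ≠ 0) (s : ℕ → ℂˣ) (D : Dl N l q)
    (C : Core (A N l q) (Fin (N + 1)) l) (K : ℕ) : Prop where
  sett : Sett N l q hl s D C
  cq : Nonempty (CoreQ C.toCore0 q)
  types : C.types = typs N l
  nil : (C.X ^ l - 1) ^ K = 0
  pc1 : ∀ c c', (C.pc c).eval (qz q (2 * c')) = if c = c' then 1 else 0
  pc2 : ∀ c, (Polynomial.X ^ l - 1) ^ K ∣ C.pc c ^ 2 - C.pc c

theorem sett2' (N l : ℕ) [NeZero l] (q : ℂ) (hl : l ≠ 0) (s : ℕ → ℂˣ) (hP : Par N l q)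
    (hs : Function.Injective (tw N s)) :
    ∃ (D : Dl N l q) (C : Core (A N l q) (Fin (N + 1)) l) (K : ℕ), Sett2 N l q hl s D C K := by
  obtain ⟨D, C, K, h1, h2, h3, h4, h5, h6⟩ := sett2 N l q hl s hP hs
  exact ⟨D, C, K, h1, h2, h3, h4, h5, h6⟩

section types

theorem sum_typ {m : ZMod l → ℤ} (hm : m ∈ typs N l) : ∑ c, m c = ((N + 1 : ℕ) : ℤ) := by
  rw [(Finset.mem_filter.1 hm).2]
  push_cast
  rfl

theorem isTy_of_mem (h : Sett2 N l q hl s D C K) {m : ZMod l → ℤ} (hm : m ∈ C.types) :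
    IsTy (N + 1) m :=
  ⟨C.types_nonneg m hm, sum_typ (by rw [← h.types]; exact hm)⟩

theorem acar_eq (h3 : 3 ≤ l) (c c' : ZMod l) : ((acar c c' : ℤ) : ℂ) = ac c c' := by
  have h1 : (1 : ZMod l) ≠ 0 := by
    have : Fact (1 < l) := ⟨by omega⟩
    exact one_ne_zero
  have h2 : (2 : ZMod l) ≠ 0 := by
    intro h
    have h' : ((2 : ℕ) : ZMod l) = 0 := by exact_mod_cast h
    have h'' := (ZMod.natCast_eq_zero_iff 2 l).1 h'
    exact absurd (Nat.le_of_dvd (by norm_num) h'') (by omega)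
  have n1 : c ≠ c + 1 := by
    intro h
    apply h1
    have := congrArg (fun z => z - c) h
    simpa using this.symm
  have n2 : c ≠ c - 1 := by
    intro h
    apply h1
    have := congrArg (fun z => c - z) h
    simpa using this.symm
  have n3 : c - 1 ≠ c + 1 := by
    intro h
    apply h2
    have := congrArg (fun z => z - c + 1) h
    ring_nf at this
    exact this.symm
  unfold acar ac
  by_cases e1 : c = c'
  · subst e1
    rw [if_pos rfl, if_pos rfl, if_neg n1, if_neg n2]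
    norm_num
  · rw [if_neg e1, if_neg e1]
    by_cases e2 : c' = c + 1
    · have e3 : ¬ c' = c - 1 := by rw [e2]; exact Ne.symm n3
      rw [if_pos (Or.inl e2), if_pos e2, if_neg e3]
      norm_num
    · by_cases e3 : c' = c - 1
      · have e4 : c = c' + 1 := by rw [e3]; ring
        rw [if_pos (Or.inr e4), if_neg e2, if_pos e3]
        norm_num
      · have e4 : ¬ (c' = c + 1 ∨ c = c' + 1) := by
          rintro (h | h)
          · exact e2 h
          · apply e3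
            rw [h]; ring
        rw [if_neg e4, if_neg e2, if_neg e3]
        norm_num

end types

section ops

/-- the space `T`. -/
abbrev TT (C : Core (A N l q) (Fin (N + 1)) l) : Type := ↥(Tinv C.toCore0)

theorem cur_of (h : Sett2 N l q hl s D C K) : ∀ τ ∈ Tinv C.toCore0,
    (∀ c c' r s, Ecr C q c r (Fcr C q c' s τ) - Fcr C q c' s (Ecr C q c r τ)
      = if c = c' then Hcr C q c (r + s) τ else 0) ∧
    (∀ c c' r s, Hcr C q c r (Fcr C q c' s τ) - Fcr C q c' s (Hcr C q c r τ)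
      = (-ac c c') • Fcr C q c' (r + s) τ) ∧
    (∀ c c' r s, Hcr C q c r (Ecr C q c' s τ) - Ecr C q c' s (Hcr C q c r τ)
      = ac c c' • Ecr C q c' (r + s) τ) ∧
    (∀ c c' r s, Hcr C q c r (Hcr C q c' s τ) = Hcr C q c' s (Hcr C q c r τ)) ∧
    (∀ c r, K ≤ r → Ecr C q c r τ = 0 ∧ Fcr C q c r τ = 0 ∧ Hcr C q c r τ = 0) ∧
    (∀ c r, Ecr C q c r τ ∈ Tinv C.toCore0 ∧ Fcr C q c r τ ∈ Tinv C.toCore0 ∧
      Hcr C q c r τ ∈ Tinv C.toCore0) :=
  yCUR (A N l q) (Fin (N + 1)) l C q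
    h.cq.some h.sett.par.prim h.sett.par.odd h.sett.par.h3 K h.nil h.pc1 h.pc2

/-- `E_c^r` on `T`. -/
def tE (C : Core (A N l q) (Fin (N + 1)) l) (c : ZMod l) (r : ℕ) : Module.End ℂ (TT C) :=
  (Ecr C q c r).restrict (fun τ hτ => (yOPT (A N l q) (Fin (N + 1)) C.toCore0).2.1 _ τ hτ)

/-- `F_c^r` on `T`. -/
def tF (C : Core (A N l q) (Fin (N + 1)) l) (c : ZMod l) (r : ℕ) : Module.End ℂ (TT C) :=
  (Fcr C q c r).restrict (fun τ hτ => (yOPT (A N l q) (Fin (N + 1)) C.toCore0).1 _ τ hτ)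

/-- `H_c^r` on `T`. -/
def tH (h : Sett2 N l q hl s D C K) (c : ZMod l) (r : ℕ) : Module.End ℂ (TT C) :=
  (Hcr C q c r).restrict (fun τ hτ => ((cur_of h τ hτ).2.2.2.2.2 c r).2.2)

theorem tE_val (c : ZMod l) (r : ℕ) (x : TT C) : (tE C c r x : A N l q →ₗ[ℂ] ℂ) = Ecr C q c r x.1 :=
  rfl

theorem tF_val (c : ZMod l) (r : ℕ) (x : TT C) : (tF C c r x : A N l q →ₗ[ℂ] ℂ) = Fcr C q c r x.1 :=
  rfl

theorem tH_val (h : Sett2 N l q hl s D C K) (c : ZMod l) (r : ℕ) (x : TT C) :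
    (tH h c r x : A N l q →ₗ[ℂ] ℂ) = Hcr C q c r x.1 := rfl

/-- `T_m`. -/
def tgr (C : Core (A N l q) (Fin (N + 1)) l) (m : ZMod l → ℤ) : Submodule ℂ (TT C) :=
  (Tm C m).comap (Tinv C.toCore0).subtype

theorem mem_tgr {m : ZMod l → ℤ} {x : TT C} : x ∈ tgr C m ↔ IsTrz C 1 m x.1 := Iff.rfl

theorem Tm_le (m : ZMod l → ℤ) : Tm C m ≤ Tinv C.toCore0 := by
  intro τ hτ
  exact ⟨hτ.tr, fun x => by rw [hτ.eq, one_mul]⟩

theorem Ecr_trz {c : ZMod l} {r : ℕ} {m : ZMod l → ℤ} {τ : A N l q →ₗ[ℂ] ℂ}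
    (h : IsTrz C 1 m τ) : IsTrz C 1 (m + al c) (Ecr C q c r τ) :=
  (yOPB (A N l q) (Fin (N + 1)) l C c m τ h).2.1 _

theorem Fcr_trz {c : ZMod l} {r : ℕ} {m : ZMod l → ℤ} {τ : A N l q →ₗ[ℂ] ℂ}
    (h : IsTrz C 1 m τ) : IsTrz C 1 (m - al c) (Fcr C q c r τ) :=
  (yOPB (A N l q) (Fin (N + 1)) l C c m τ h).1 _

theorem not_types {m : ZMod l → ℤ} (hm : m ∉ C.types) {τ : A N l q →ₗ[ℂ] ℂ}
    (h : IsTrz C 1 m τ) : τ = 0 := by
  ext x
  have h1 := h.blk x
  rw [C.e_types m hm, mul_zero, map_zero] at h1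
  rw [← h1]; rfl

/-- the part of `τ` in the block `m`. -/
def tpr (C : Core (A N l q) (Fin (N + 1)) l) (m : ZMod l → ℤ) (τ : A N l q →ₗ[ℂ] ℂ) :
    A N l q →ₗ[ℂ] ℂ := τ ∘ₗ LinearMap.mulRight ℂ (C.e m)

theorem tpr_trz {m : ZMod l → ℤ} {τ : A N l q →ₗ[ℂ] ℂ} (h : τ ∈ Tinv C.toCore0) :
    IsTrz C 1 m (tpr C m τ) where
  tr x y := by
    change τ (x * y * C.e m) = τ (y * x * C.e m)
    rw [mul_assoc, ← C.e_cen m y, ← mul_assoc, h.1, ← mul_assoc]
  eq x := by
    change τ (C.φ x * C.e m) = 1 * τ (x * C.e m)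
    have h1 := h.2 (x * C.e m)
    rw [map_mul C.φ, C.φe] at h1
    rw [one_mul, h1]
  blk x := by
    change τ (x * C.e m * C.e m) = τ (x * C.e m)
    rw [mul_assoc, C.e_idem]

theorem sum_tpr (τ : A N l q →ₗ[ℂ] ℂ) : ∑ m ∈ C.types, tpr C m τ = τ := by
  ext x
  rw [LinearMap.sum_apply]
  change ∑ m ∈ C.types, τ (x * C.e m) = τ x
  rw [← map_sum, ← Finset.mul_sum, C.e_sum, mul_one]

theorem tgr_top : ⨆ m, tgr C m = ⊤ := by
  rw [eq_top_iff]
  rintro ⟨τ, hτ⟩ -
  have h1 : (⟨τ, hτ⟩ : TT C)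
      = ∑ m ∈ C.types, (⟨tpr C m τ, Tm_le m (tpr_trz hτ)⟩ : TT C) := by
    apply Subtype.ext
    rw [← Submodule.subtype_apply, ← Submodule.subtype_apply, map_sum]
    exact (sum_tpr τ).symm
  rw [h1]
  exact Submodule.sum_mem _ fun m _ => Submodule.mem_iSup_of_mem m (mem_tgr.2 (tpr_trz hτ))

end ops

section nondeg

theorem wdWt_append (w : List (Lt l)) (a : Lt l) :
    wdWt (w ++ [a]) = wdWt w + ltWt a := by
  simp [wdWt]

theorem wdOp_append {T : Type} [AddCommGroup T] [Module ℂ T] (E F : ZMod l → ℕ → Module.End ℂ T)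
    (w : List (Lt l)) (a : Lt l) : wdOp E F (w ++ [a]) = wdOp E F w * ltOp E F a := by
  simp [wdOp]

/-- the elements of `T_m` killed by all words ending in the `n δ_c`. -/
def tK (C : Core (A N l q) (Fin (N + 1)) l) (m : ZMod l → ℤ) : Submodule ℂ (TT C) where
  carrier := {x | x ∈ tgr C m ∧ ∀ (w : List (Lt l)) (c : ZMod l),
    m + wdWt w = nd (N + 1) c → wdOp (tE C) (tF C) w x = 0}
  add_mem' := by
    rintro a b ⟨ha, ha'⟩ ⟨hb, hb'⟩
    exact ⟨Submodule.add_mem _ ha hb, fun w c h => by rw [map_add, ha' w c h, hb' w c h, add_zero]⟩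
  zero_mem' := ⟨Submodule.zero_mem _, fun w c h => map_zero _⟩
  smul_mem' := by
    rintro t a ⟨ha, ha'⟩
    exact ⟨Submodule.smul_mem _ _ ha, fun w c h => by rw [map_smul, ha' w c h, smul_zero]⟩

theorem tK_bot (h : Sett2 N l q hl s D C K) (m : ZMod l → ℤ) : tK C m = ⊥ := by
  have key := yCOG N l q hl s D C h.sett h.cq.some
    (fun m => (tK C m).map (Tinv C.toCore0).subtype) ?_ ?_ ?_ ?_ m
  · rw [eq_bot_iff] at key ⊢
    intro x hx
    have h1 : (x : A N l q →ₗ[ℂ] ℂ) = 0 := by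
      have h2 := key (Submodule.mem_map_of_mem hx)
      exact (Submodule.mem_bot ℂ).1 h2
    exact Subtype.ext h1
  · rintro m τ ⟨x, hx, rfl⟩
    exact hx.1
  · rintro m c r τ ⟨x, hx, rfl⟩
    refine ⟨tF C c r x, ⟨Fcr_trz hx.1, fun w c' hw => ?_⟩, rfl⟩
    have h1 := hx.2 (w ++ [(false, c, r)]) c' (by
      rw [wdWt_append, ← hw]
      simp only [ltWt, Bool.false_eq_true, if_false]
      abel)
    rw [wdOp_append] at h1
    exact h1
  · rintro m c r τ ⟨x, hx, rfl⟩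
    refine ⟨tE C c r x, ⟨Ecr_trz hx.1, fun w c' hw => ?_⟩, rfl⟩
    have h1 := hx.2 (w ++ [(true, c, r)]) c' (by
      rw [wdWt_append, ← hw]
      simp only [ltWt, if_true]
      abel)
    rw [wdOp_append] at h1
    exact h1
  · intro c
    have e : (fun x : ZMod l => if x = c then ((N : ℤ) + 1) else 0) = nd (N + 1) c := by
      funext x
      simp only [nd]
      push_cast
      rfl
    rw [e, eq_bot_iff]
    rintro τ ⟨x, hx, rfl⟩
    have h1 := hx.2 [] c (by simp [wdWt])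
    have h2 : x = 0 := by simpa [wdOp] using h1
    rw [h2, map_zero]
    exact Submodule.zero_mem _

end nondeg

section main

theorem nd_eq (c : ZMod l) : nd (N + 1) c = fun x : ZMod l => if x = c then ((N : ℤ) + 1) else 0 := by
  funext x
  simp only [nd]
  push_cast
  rfl

theorem tone (h : Sett2 N l q hl s D C K) (c : ZMod l) :
    Module.finrank ℂ (tgr C (nd (N + 1) c)) ≤ 1 := by
  by_cases hz : ∀ x : TT C, x ∈ tgr C (nd (N + 1) c) → x = 0
  · have : tgr C (nd (N + 1) c) = ⊥ := by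
      rw [eq_bot_iff]
      intro x hx
      rw [hz x hx]
      exact Submodule.zero_mem _
    rw [this, finrank_bot]
    exact zero_le_one
  · push Not at hz
    obtain ⟨x, hx, hx0⟩ := hz
    have hx' := mem_tgr.1 hx
    refine finrank_le_one (⟨x, hx⟩ : tgr C (nd (N + 1) c)) ?_
    rintro ⟨y, hy⟩
    have hy' := mem_tgr.1 hy
    have hst : ∃ t : ℂ, y.1 = t • x.1 := by
      refine yST1 N l q hl h.sett.par s c (C.e (nd (N + 1) c)) (C.e_cen _)
        (C.e_idem _) ?_ x.1 y.1 hx'.tr hy'.tr hx'.blk hy'.blk ?_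
      · intro M _ _ _ _ _ lam v hv
        have hev := h.sett.ev M lam (nd (N + 1) c) v hv
        constructor
        · intro h'
          rw [hev, if_pos]
          rw [nd_eq]; exact (ty_eq_iff c lam).2 h'
        · intro h'
          rw [hev, if_neg]
          rw [nd_eq]; exact fun h'' => h' ((ty_eq_iff c lam).1 h'')
      · intro h'
        exact hx0 (Subtype.ext h')
    obtain ⟨t, ht⟩ := hst
    exact ⟨t, Subtype.ext (Subtype.ext ht.symm)⟩

/-- **the abstract data** for the space of invariant traces. -/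
def absData (h : Sett2 N l q hl s D C K) : AbsData l (N + 1) (TT C) where
  gr := tgr C
  E := tE C
  F := tF C
  H := tH h
  ch m := ⟨chm N l q m, Tm_le m
    ((yCHM N l q hl s D C h.sett K h.nil h.pc1 h.pc2).2.2.2.2 m)⟩
  fd := by
    have := h.sett.fd
    infer_instance
  top := tgr_top
  bot m hm := by
    rw [eq_bot_iff]
    intro x hx
    have h1 := not_types (fun h' => hm (isTy_of_mem h h')) (mem_tgr.1 hx)
    exact Subtype.ext h1
  EF c c' r s := by
    ext1 x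
    apply Subtype.ext
    have h1 := (cur_of h x.1 x.2).1 c c' r s
    rw [Ring.lie_def, LinearMap.sub_apply, Module.End.mul_apply, Module.End.mul_apply]
    by_cases hc : c = c'
    · rw [if_pos hc] at h1 ⊢
      exact h1
    · rw [if_neg hc] at h1 ⊢
      exact h1
  HF c c' r s := by
    ext1 x
    apply Subtype.ext
    have h1 := (cur_of h x.1 x.2).2.1 c c' r s
    rw [Ring.lie_def, LinearMap.sub_apply, Module.End.mul_apply, Module.End.mul_apply,
      LinearMap.smul_apply, acar_eq h.sett.par.h3]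
    exact h1
  HE c c' r s := by
    ext1 x
    apply Subtype.ext
    have h1 := (cur_of h x.1 x.2).2.2.1 c c' r s
    rw [Ring.lie_def, LinearMap.sub_apply, Module.End.mul_apply, Module.End.mul_apply,
      LinearMap.smul_apply, acar_eq h.sett.par.h3]
    exact h1
  HH c c' r s := by
    ext1 x
    apply Subtype.ext
    have h1 := (cur_of h x.1 x.2).2.2.2.1 c c' r s
    rw [Ring.lie_def, LinearMap.sub_apply, Module.End.mul_apply, Module.End.mul_apply]
    exact sub_eq_zero.2 h1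
  E_gr c r m x hx := Ecr_trz hx
  F_gr c r m x hx := Fcr_trz hx
  nondeg m x hx hw := by
    have h1 : x ∈ tK C m := ⟨hx, hw⟩
    rw [tK_bot h m] at h1
    exact (Submodule.mem_bot ℂ).1 h1
  one c := tone h c
  ch_mem m _ := (yCHM N l q hl s D C h.sett K h.nil h.pc1 h.pc2).2.2.2.2 m
  ch_ne c h' := by
    have h1 := (yCHM N l q hl s D C h.sett K h.nil h.pc1 h.pc2).2.2.2.1 c
    apply h1
    rw [← nd_eq]
    exact congrArg Subtype.val h'
  ch_E c m _ _ := by
    apply Subtype.ext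
    have h1 := (yCHM N l q hl s D C h.sett K h.nil h.pc1 h.pc2).2.1 m c
    push_cast at h1
    exact h1
  ch_F c m _ _ := by
    apply Subtype.ext
    have h1 := (yCHM N l q hl s D C h.sett K h.nil h.pc1 h.pc2).2.2.1 m c
    push_cast at h1
    exact h1
  ch_E0 c r m _ hr := by
    apply Subtype.ext
    exact ((yCHM N l q hl s D C h.sett K h.nil h.pc1 h.pc2).1 m c r (Nat.pos_of_ne_zero hr)).1
  ch_F0 c r m _ hr := by
    apply Subtype.ext
    exact ((yCHM N l q hl s D C h.sett K h.nil h.pc1 h.pc2).1 m c r (Nat.pos_of_ne_zero hr)).2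

theorem absData_gr (h : Sett2 N l q hl s D C K) (m : ZMod l → ℤ) :
    (absData h).gr m = (Tm C m).comap (Tinv C.toCore0).subtype := rfl

/-- all traces are invariant. -/
theorem all_inv (h : Sett2 N l q hl s D C K) (τ : A N l q →ₗ[ℂ] ℂ)
    (hτ : ∀ x y, τ (x * y) = τ (y * x)) : τ ∈ Tinv C.toCore0 :=
  yALLI N l q hl s D C h.sett
    (fun ζ m hζ => trz_of (m_main12 ySTF) zSTT hl s D C h.sett ζ hζ m) τ hτ

/-- the dimensions. -/
theorem dims (h : Sett2 N l q hl s D C K) :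
    Module.finrank ℂ (Subalgebra.center ℂ (A N l q)) ≤ Module.finrank ℂ (Tinv C.toCore0) ∧
    (∀ m, Module.finrank ℂ (Zm C m) ≤ Module.finrank ℂ (Tm C m)) ∧
    Module.finrank ℂ (Tinv C.toCore0) ≤ ∑ m ∈ C.types, Module.finrank ℂ (Tm C m) :=
  yDIMZ N l q hl s D C h.sett (all_inv h)

theorem finrank_gr (m : ZMod l → ℤ) :
    Module.finrank ℂ (tgr C m) = Module.finrank ℂ (Tm C m) :=
  (Submodule.comapSubtypeEquivOfLe (Tm_le (C := C) m)).finrank_eq

/-- **part Q**: the data exist, and bound the dimension of the centers. -/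
theorem part_q (N l : ℕ) [NeZero l] (q : ℂ) (hP : Par N l q) :
    ∃ (hl : l ≠ 0) (s : ℕ → ℂˣ) (D : Dl N l q) (C : Core (A N l q) (Fin (N + 1)) l) (K : ℕ),
      Sett2 N l q hl s D C K ∧
      (∀ τ : A N l q →ₗ[ℂ] ℂ, (∀ x y, τ (x * y) = τ (y * x)) → τ ∈ Tinv C.toCore0) ∧
      (∃ d : AbsData l (N + 1) (Tinv C.toCore0),
        (∀ m, d.gr m = (Tm C m).comap (Tinv C.toCore0).subtype) ∧
        (∀ m, Module.finrank ℂ (d.gr m) = Module.finrank ℂ (Tm C m))) ∧
      (∀ m, Module.finrank ℂ (Zm C m) ≤ Module.finrank ℂ (Tm C m)) ∧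
      Module.finrank ℂ (Tinv C.toCore0) ≤ ∑ m ∈ C.types, Module.finrank ℂ (Tm C m) ∧
      Module.finrank ℂ (Subalgebra.center ℂ (A N l q)) ≤ Module.finrank ℂ (Tinv C.toCore0) ∧
      (Nat.Coprime (N + 1) l → l * Module.finrank ℂ (Subalgebra.center ℂ (Usl N l q))
        ≤ Module.finrank ℂ (Tinv C.toCore0)) := by
  have hl : l ≠ 0 := NeZero.ne l
  obtain ⟨s, hs⟩ := Helper18.SQ.s_twi N
  obtain ⟨D, C, K, h⟩ := sett2' N l q hl s hP hs
  obtain ⟨h1, h2, h3⟩ := dims h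
  refine ⟨hl, s, D, C, K, h, all_inv h, ⟨absData h, fun m => rfl, finrank_gr⟩, h2, h3, h1, ?_⟩
  intro hco
  exact (yZUL N l q hP hco h.sett.fd).trans h1

end main

end

end Pool.Agent.Helper4.SQ
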