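import Pool.Agent.Helper19.SQ.Main
import Pool.Agent.Helper19.SQ.AbsData
import Pool.Agent.Helper14.SQ.N_TOWS_TOW
import Pool.Agent.Helper32.SQ.N_SGF
import Pool.Agent.Helper32.SQ.N_SDE
import Pool.Agent.Helper79.SQ.N_CLF
import Pool.Agent.Helper12.SQ.N_WT
import Pool.Agent.Helper86.SQ.N_POL
import Pool.Agent.Helper82.SQ.N_SGE
import Pool.Agent.Helper48.SQ.N_SIDE
import Pool.Agent.Helper62.SQ.N_DPV
import Pool.Agent.Helper90.SQ.N_DP2
import Pool.Agent.Helper54.SQ.N_REL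
import Pool.Agent.Helper49.SQ.N_SDF
import Pool.Agent.Helper77.SQ.N_BLK
import Pool.Agent.Helper83.SQ.N_STFP
import Pool.Agent.Helper59.SQ.N_STP
import Pool.Agent.Helper87.SQ.N_CT
import Pool.Agent.Helper89.SQ.N_OMF_SG1
import Pool.Agent.Helper64.SQ.N_VANE
import Pool.Agent.Helper50.SQ.N_VANF
import Pool.Agent.Helper34.SQ.Coc
import Pool.Agent.Helper34.SQ.STF
import Pool.Agent.Helper34.SQ.BLE
import Pool.Agent.Helper87.SQ.SCQ
import Pool.Agent.Helper57.SQ.SCB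
import Pool.Agent.Helper25.SQ.DLL
import Pool.Agent.Helper22.SQ.DLY
import Pool.Agent.Helper97.SQ.SCX
import Pool.Agent.Helper97.SQ.OPPF
import Pool.Agent.Helper62.SQ.SCD
import Pool.Agent.Helper89.SQ.PCX
import Pool.Agent.Helper54.SQ.RPOW
import Pool.Agent.Helper36.SQ.QTR
import Pool.Agent.Helper59.SQ.BETA
import Pool.Agent.Helper59.SQ.CH3
import Pool.Agent.Helper49.SQ.CREC
import Pool.Agent.Helper77.SQ.PSER
import Pool.Agent.Helper37.SQ.DPI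
import Pool.Agent.Helper31.SQ.OPT
import Pool.Agent.Helper18.SQ.OPEF
import Pool.Agent.Helper80.SQ.OPG
import Pool.Agent.Helper80.SQ.COG
import Pool.Agent.Helper80.SQ.ALLI
import Pool.Agent.Helper29.SQ.OPB
import Pool.Agent.Helper44.SQ.CUR
import Pool.Agent.Helper95.SQ.CHI
import Pool.Agent.Helper48.SQ.CHM
import Pool.Agent.Helper46.SQ.ST1
import Pool.Agent.Helper14.SQ.DIMZ
import Pool.Agent.Helper39.SQ.ZUL
import Pool.Agent.Helper4.SQ.CORE2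

/-!
Project SQ (MP_bb32d1_al), stage B, helper4: all goals of the parts N and Q, assembled.
-/

set_option autoImplicit false

namespace Pool.Agent.Helper4.SQ

open Pool.Agent.Helper19.SQ Pool.Agent.Helper34.SQ Pool.Agent.Helper41.SQ

theorem yCORE1 : S_CORE1 := core1_of_core0 Helper57.SQ.t_core0
theorem ySTF : S_STF := Helper34.SQ.t_stf yCORE1

/-! ### part N -/

theorem yDPV : S_DPV := Helper62.SQN.n_dpv
theorem yDP2 : S_DP2 := Helper90.SQN.n_dp2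
theorem ySTP : S_STP := Helper59.SQN.n_stp yCORE1 m_blx Helper83.SQN.n_stfp
theorem ySIDE : S_SIDE :=
  Helper48.SQN.n_side Helper34.SQ.t_coc Helper14.SQN.n_tow
    (Helper79.SQN.n_clf Helper14.SQN.n_tow Helper32.SQN.n_sgf)
    (Helper86.SQN.n_pol Helper14.SQN.n_tow Helper12.SQN.n_wt)
    (Helper82.SQN.n_sge Helper32.SQN.n_sgf Helper12.SQN.n_wt)
theorem yVANE : S_VANE :=
  Helper64.SQN.n_vane ySIDE (Helper32.SQN.n_sde yDPV yDP2 Helper54.SQN.n_rel) Helper77.SQN.n_blk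
    ySTP Helper87.SQN.n_ct Helper89.SQN.n_omf Helper89.SQN.n_sg1
theorem yVANF : S_VANF :=
  Helper50.SQN.n_vanf ySIDE Helper49.SQN.n_sdf Helper77.SQN.n_blk ySTP Helper89.SQN.n_omf
    Helper89.SQN.n_sg1

/-! ### part Q -/

theorem yPCX : S_PCX := Helper89.SQ.sPCX
theorem yOPT : S_OPT := Helper31.SQ.sOPT yDPV yDP2
theorem yOPEF : S_OPEF := Helper18.SQ.sOPEF Helper57.SQ.t_core0 m_tr yDPV yDP2
theorem yBETA : S_BETA := Helper59.SQ.sBETA Helper57.SQ.t_core0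
theorem yCREC : S_CREC := Helper49.SQ.sCREC Helper54.SQ.sRPOW Helper36.SQ.sQTR
theorem yDPI : S_DPI :=
  Helper37.SQ.sDPI Helper57.SQ.t_core0 yBETA yCREC (Helper77.SQ.sPSER Helper28.SQ.b_gder)
theorem yOPPF : S_OPPF := Helper97.SQ.sOPPF yDPI yDPV yDP2
theorem yOPG : S_OPG := Helper80.SQ.sOPG yOPT yOPEF yOPPF Helper57.SQ.t_core0
theorem yOPB : S_OPB := Helper29.SQ.sOPB yOPT Helper34.SQ.sBLE yDPV yDP2
theorem yCUR : S_CUR := Helper44.SQ.sCUR yOPT yOPG yOPPF yOPEF Helper57.SQ.t_core0 yPCX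
theorem yCOG : S_COG := Helper80.SQ.sCOG yVANE yVANF yOPB
theorem yCHX : S_CHX := Helper34.SQ.sCHX Helper69.SQ.b_charv
theorem yCH3 : S_CH3 :=
  Helper59.SQ.sCH3 Helper47.SQ.s_fl Helper35.SQ.s_laya zHARM Helper35.SQ.s_zuniv
    Helper35.SQ.s_genv qCUP0 zFDIM Helper69.SQ.b_charv
theorem yCHI : S_CHI := Helper95.SQ.sCHI Helper35.SQ.s_zuniv sTOI
theorem yCH2 : S_CH2 :=
  Helper53.SQ.b_ch2 Helper47.SQ.s_fl Helper24.SQ.s_lays zHARM Helper35.SQ.s_zuniv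
    Helper79.SQ.s_genvs qCUP1 zFDIM Helper69.SQ.b_charv
theorem yCHM : S_CHM :=
  Helper48.SQ.sCHM yCHI yCHX yCH2 yCH3 Helper69.SQ.b_typ yPCX yOPB yDPV yDP2 zHARM
    Helper35.SQ.s_zuniv
theorem yST1 : S_ST1 := Helper46.SQ.sST1 qGAM zTRI qSPAN zMONW qHTOP zSV zFDIM
theorem yALLI : S_ALLI := Helper80.SQ.sALLI
theorem yDIMZ : S_DIMZ := Helper14.SQ.sDIMZ zTF
theorem yZUL : S_ZUL := Helper39.SQ.sZUL Helper6.SQ.s_iota Helper49.SQ.s_pi

theorem yXLAY : S_XLAY := Helper24.SQ.b_xlay Helper50.SQ.s_layx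
theorem yCH1 : S_CH1 :=
  Helper28.SQ.b_ch1 Helper47.SQ.s_fl Helper35.SQ.s_laya yXLAY zHARM Helper35.SQ.s_zuniv
    Helper35.SQ.s_genv qCUP0 zFDIM Helper69.SQ.b_charv
theorem yEVAL : S_EVAL :=
  Helper24.SQ.b_eval Helper57.SQ.t_core0 m_tr zHC yCH1 yCH2 zHARM Helper35.SQ.s_zuniv zFDIM
    Helper69.SQ.b_typ
theorem yBEVAL : S_BEVAL :=
  Helper69.SQ.b_beval Helper57.SQ.t_core0 zHC yEVAL
    (Helper28.SQ.b_buniq Helper28.SQ.b_gder Helper69.SQ.b_bder)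
theorem yNILC : S_NILC := Helper85.SQ.b_nilc zSV zFDIM
theorem yDLABS : S_DLABS :=
  Helper44.SQ.b_dlabs Helper28.SQ.b_gder Helper69.SQ.b_bder
    Helper86.SQ.b_binv Helper53.SQ.b_good Helper28.SQ.b_nu Helper69.SQ.b_nils
theorem yDVG : S_DVG := Helper41.SQ.b_dvg zSV
theorem yDVD : S_DVD := Helper28.SQ.b_dvd yDVG Helper35.SQ.s_genv qCUP0
theorem yDVE : S_DVE := Helper28.SQ.b_dve yDVG Helper79.SQ.s_genvs qCUP1
theorem yXNIL : S_XNIL := Helper28.SQ.b_xnil yDVD yXLAY zFDIM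

theorem yCORE2 : S_CORE2 :=
  sCORE2 Helper57.SQ.t_core0 yEVAL yBEVAL
    (Helper41.SQ.b_idem Helper53.SQ.b_spec Helper28.SQ.b_four yNILC zFDIM Helper69.SQ.b_typ)
    (Helper86.SQ.b_nilp yNILC) yXNIL Helper53.SQ.b_pc
    (Helper41.SQ.b_bl1 yDVD yXLAY Helper35.SQ.s_laya Helper69.SQ.b_typ Helper41.SQ.b_qs zFDIM)
    (Helper41.SQ.b_bl2 yDVE Helper24.SQ.s_lays Helper69.SQ.b_typ Helper41.SQ.b_qs zFDIM)
    (Helper24.SQ.b_dl Helper57.SQ.t_core0 yDLABS zFDIM)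

theorem yCOREP : S_COREP :=
  sCOREP Helper87.SQ.sSCQ Helper57.SQ.sSCB
    (Helper97.SQ.sSCX (Helper25.SQ.sDLL qCR qVRV qVREP qKI qHF)
      (Helper22.SQ.sDLY qCO qVRV qVREP qKI qKG)) Helper62.SQ.sSCD sXINV yXNIL

/-- the standing situation with all its properties. -/
theorem sett2 (N l : ℕ) [NeZero l] (q : ℂ) (hl : l ≠ 0) (s : ℕ → ℂˣ) (hP : Par N l q)
    (hs : Function.Injective (tw N s)) :
    ∃ (D : Dl N l q) (C : Core (A N l q) (Fin (N + 1)) l) (K : ℕ),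
      Sett N l q hl s D C ∧ Nonempty (CoreQ C.toCore0 q) ∧ C.types = typs N l ∧
      (C.X ^ l - 1) ^ K = 0 ∧
      (∀ c c', (C.pc c).eval (qz q (2 * c')) = if c = c' then 1 else 0) ∧
      (∀ c, (Polynomial.X ^ l - 1) ^ K ∣ C.pc c ^ 2 - C.pc c) := by
  obtain ⟨D⟩ := qDELTA N l q hP
  obtain ⟨C0, hC0'⟩ := qC0 N l q hl hP D s
  obtain ⟨C, K, hC1, hC2, hC3, hK, hp1, hp2, hp3⟩ := yCORE2 N l q D hl s C0 hP hs hC0'
  refine ⟨D, C, K, ?_, ?_, hC2, hK, hp1, hp2⟩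
  · refine ⟨hP, hs, ?_, zFDIM N l q hP, ?_, ?_, ?_⟩
    · rw [hC1]; exact hC0'
    · intro M _ _ _ _ lam m v hv
      exact hC3.act M lam v m hv
    · intro lam
      exact ⟨(zZB N l q D hP lam).1, (zZB N l q D hP lam).2.1⟩
    · intro x
      exact zTRI N l q hP x
  · rw [hC1]
    exact yCOREP N l q D hl s C0 hP hC0'
end Pool.Agent.Helper4.SQ
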