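import Pool.Agent.Helper4.SQ.QAbs
import Pool.Agent.Helper4.SQ.GoalsL
import Pool.Agent.Helper22.SQ.UP0
import Pool.Agent.Helper24.SQ.MRY
import Pool.Agent.Helper32.SQ.MUA
import Pool.Agent.Helper7.SQ.MU
import Pool.Agent.Helper28.SQ.GEN
import Pool.Agent.Helper66.SQ.FAM
import Pool.Agent.Helper36.SQ.FEQ
import Pool.Agent.Helper79.SQ.ZL
import Pool.Agent.Helper88.SQ.PR
import Pool.Agent.Helper57.SQ.KK
import Pool.Agent.Helper49.SQ.LF1
import Pool.Agent.Helper12.SQ.LF2
import Pool.Agent.Helper39.SQ.LF3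
import Pool.Agent.Helper95.SQ.LOOP

/-!
Project SQ (MP_bb32d1_al), stage B, helper4: the currents on the space of invariant traces.
-/

set_option autoImplicit false
set_option linter.unusedSectionVars false

namespace Pool.Agent.Helper4.SQ

noncomputable section

open Pool.Agent.Helper19.SQ Pool.Agent.Helper34.SQ Pool.Agent.Helper41.SQ

variable {N l : ℕ} [NeZero l] {q : ℂ} {hl : l ≠ 0} {s : ℕ → ℂˣ} {D : Dl N l q}
  {C : Core (A N l q) (Fin (N + 1)) l} {K : ℕ}

/-- `∑_m m(x) e_m`. -/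
def zx (C : Core (A N l q) (Fin (N + 1)) l) (x : ZMod l) : A N l q :=
  ∑ m ∈ C.types, ((m x : ℤ) : ℂ) • C.e m

theorem zx_cen (x : ZMod l) (a : A N l q) : zx C x * a = a * zx C x := by
  rw [zx, Finset.sum_mul, Finset.mul_sum]
  exact Finset.sum_congr rfl fun m _ => by rw [smul_mul_assoc, mul_smul_comm, C.e_cen]

theorem zx_φ (x : ZMod l) : C.φ (zx C x) = zx C x := by
  rw [zx, map_sum]
  exact Finset.sum_congr rfl fun m _ => by rw [map_smul, C.φe]

theorem zx_e (x : ZMod l) (m : ZMod l → ℤ) : zx C x * C.e m = ((m x : ℤ) : ℂ) • C.e m := by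
  rw [zx, Finset.sum_mul]
  by_cases hm : m ∈ C.types
  · rw [Finset.sum_eq_single m]
    · rw [smul_mul_assoc, C.e_idem]
    · intro m' _ h'
      rw [smul_mul_assoc, C.e_orth m' m h', smul_zero]
    · intro h'; exact absurd hm h'
  · rw [C.e_types m hm, smul_zero]
    exact Finset.sum_eq_zero fun m' _ => by rw [mul_zero]

/-- `h_x` on `T`. -/
def tx (C : Core (A N l q) (Fin (N + 1)) l) (x : ZMod l) : Module.End ℂ (TT C) :=
  (MO (zx C x)).restrict
    (fun τ hτ => (yOPT (A N l q) (Fin (N + 1)) C.toCore0).2.2 _ (zx_cen x) (zx_φ x) τ hτ)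

theorem MO_blk {z : A N l q} {t : ℂ} {m : ZMod l → ℤ} (hz : z * C.e m = t • C.e m)
    {τ : A N l q →ₗ[ℂ] ℂ} (h : IsTrz C 1 m τ) : MO z τ = t • τ := by
  ext y
  rw [MO_apply, LinearMap.smul_apply, ← h.blk (z * y), mul_assoc, ← C.e_cen, ← mul_assoc, hz,
    smul_mul_assoc, map_smul, C.e_cen, h.blk]

theorem tx_gr {x : ZMod l} {m : ZMod l → ℤ} {τ : TT C} (h : τ ∈ tgr C m) :
    tx C x τ = ((m x : ℤ) : ℂ) • τ :=
  Subtype.ext (MO_blk (zx_e x m) (mem_tgr.1 h))

theorem tH_gr (h : Sett2 N l q hl s D C K) {c : ZMod l} {m : ZMod l → ℤ} {τ : TT C}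
    (hτ : τ ∈ tgr C m) : tH h c 0 τ = ((m c - m (c + 1) : ℤ) : ℂ) • τ := by
  apply Subtype.ext
  rw [tH_val, Hcr, pow_zero, mul_one, LinearMap.neg_apply]
  have h1 : Pool.Agent.Helper41.SQ.pair (C.pc c) C.pi * C.e m = ((m (c + 1) - m c : ℤ) : ℂ) • C.e m := by
    have h2 := C.DL c m
    rw [← h2]
    congr 1
    rw [Pool.Agent.Helper41.SQ.pair, Polynomial.sum_over_range]
    intro k
    rw [zero_smul]
  rw [MO_blk h1 (mem_tgr.1 hτ), ← neg_smul]
  change _ = ((m c - m (c + 1) : ℤ) : ℂ) • (τ : A N l q →ₗ[ℂ] ℂ)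
  congr 1
  push_cast
  ring

theorem smul_sub_eq {V : Type} [AddCommGroup V] [Module ℂ V] {a b c : ℂ} {v : V}
    (h : a - b = c) : a • v - b • v = c • v := by
  rw [← h, sub_smul]

theorem lie_eq {V : Type} [AddCommGroup V] [Module ℂ V] (X Y : Module.End ℂ V) :
    ⁅X, Y⁆ = X * Y - Y * X := rfl

/-- two operators are equal if they agree on the `T_m`. -/
theorem end_ext {X Y : Module.End ℂ (TT C)} (h : ∀ m, ∀ τ ∈ tgr C m, X τ = Y τ) : X = Y := by
  ext1 τ
  have h1 : (⊤ : Submodule ℂ (TT C)) ≤ LinearMap.eqLocus X Y := by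
    rw [← tgr_top, iSup_le_iff]
    intro m τ hτ
    exact h m τ hτ
  exact h1 (Submodule.mem_top (x := τ))

/-- the currents on `T`. -/
def curOf (h : Sett2 N l q hl s D C K) : Cur l (TT C) where
  h := tx C
  E := tE C
  F := tF C
  H := tH h
  types := C.types
  span := by
    rw [eq_top_iff, ← tgr_top, iSup_le_iff]
    intro m
    by_cases hm : m ∈ C.types
    · refine le_trans ?_ (le_iSup₂_of_le m hm le_rfl)
      intro τ hτ x
      exact tx_gr hτ
    · intro τ hτ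
      have h1 : τ = 0 := Subtype.ext (not_types hm (mem_tgr.1 hτ))
      rw [h1]
      exact Submodule.zero_mem _
  hh x y := by
    refine end_ext fun m τ hτ => ?_
    rw [lie_eq, LinearMap.sub_apply, Module.End.mul_apply,
      Module.End.mul_apply, tx_gr hτ, tx_gr hτ, map_smul, map_smul, tx_gr hτ, tx_gr hτ, smul_comm,
      sub_self, LinearMap.zero_apply]
  hE x c r := by
    refine end_ext fun m τ hτ => ?_
    have h1 : tE C c r τ ∈ tgr C (m + al c) := Ecr_trz hτ
    rw [lie_eq, LinearMap.sub_apply, Module.End.mul_apply,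
      Module.End.mul_apply, tx_gr h1, tx_gr hτ, map_smul, LinearMap.smul_apply]
    refine smul_sub_eq ?_
    rw [Pi.add_apply]
    push_cast
    rw [add_sub_cancel_left]
  hF x c r := by
    refine end_ext fun m τ hτ => ?_
    have h1 : tF C c r τ ∈ tgr C (m - al c) := Fcr_trz hτ
    rw [lie_eq, LinearMap.sub_apply, Module.End.mul_apply,
      Module.End.mul_apply, tx_gr h1, tx_gr hτ, map_smul, LinearMap.smul_apply]
    refine smul_sub_eq ?_
    rw [Pi.sub_apply]
    push_cast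
    rw [sub_sub_cancel_left]
  H0 c := by
    refine end_ext fun m τ hτ => ?_
    rw [tH_gr h hτ, LinearMap.sub_apply, tx_gr hτ, tx_gr hτ]
    exact (smul_sub_eq (V := TT C) (by push_cast; rfl)).symm
  EF c c' r s := by
    have h1 := (absData h).EF c c' r s
    rw [Ring.lie_def] at h1
    rw [lie_eq]
    exact h1
  HF c c' r s := by
    have h1 := (absData h).HF c c' r s
    rw [Ring.lie_def, acar_eq h.sett.par.h3] at h1
    rw [lie_eq]
    exact h1
  HE c c' r s := by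
    have h1 := (absData h).HE c c' r s
    rw [Ring.lie_def, acar_eq h.sett.par.h3] at h1
    rw [lie_eq]
    exact h1

/-! ### the Lie part -/

theorem yUPC : S_UPC := Helper24.SQ.sUPC Helper22.SQ.sUP0
theorem yMRY : S_MRY := Helper24.SQ.sMRY yUPC
theorem yMU : S_MU := Helper7.SQ.sMU (Helper32.SQ.sMUA qROOT) yMRY Helper22.SQ.sUP0
theorem yLF1 : S_LF1 := Helper49.SQ.sLF1 Helper66.SQ.sFAM Helper28.SQ.sGEN yMRY
theorem yLF2 : S_LF2 := Helper12.SQ.sLF2 Helper36.SQ.sFEQ yMRY yUPC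
theorem yLF3 : S_LF3 :=
  Helper39.SQ.sLF3 Helper79.SQ.sZL Helper28.SQ.sGEN yMRY Helper36.SQ.sFEQ yLF2
theorem yLOOP : S_LOOP :=
  Helper95.SQ.sLOOP yMU yLF1 yLF2 yLF3 Helper88.SQ.sPR Helper36.SQ.sFEQ
    (Helper57.SQ.sKK Helper88.SQ.sPR)

/-- the loop operators on the space of invariant traces. -/
theorem loop_of (h : Sett2 N l q hl s D C K) (h5 : 5 ≤ l) : Nonempty (Loop (curOf h)) :=
  yLOOP l (TT C) (curOf h) h5

end

end Pool.Agent.Helper4.SQ
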